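import Pool.Agent.Helper44.PS.Jump

/-!
# Counting the classes which contain a zero (helper44)

For a nice integral function `g` and a normal subgroup `A` there is a constant `C` such that for all
`m` and all cosets `y A` the number of classes modulo `p ^ m` in `y A` which contain a zero of `g`
without being contained in the zero set is at most `C p ^ (-m)` times the number of all classes.
-/

set_option autoImplicit false

namespace Pool.Agent.Helper44.PS

open Finset

variable {p : ℕ} [hp : Fact p.Prime] {P : Type*} [Group P] {r : ℕ}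

instance finiteMat (m : ℕ) : Finite (Matrix (Fin r) (Fin r) (ZMod (p ^ m))) := by
  have : NeZero (p ^ m) := ⟨pow_ne_zero m hp.1.ne_zero⟩
  infer_instance

variable {σ : P →* Matrix (Fin r) (Fin r) ℤ_[p]}

theorem red_eq_iff {m : ℕ} {x y : P} : red σ m x = red σ m y ↔ y⁻¹ * x ∈ NN σ m := by
  rw [red_apply, red_apply, map_eq_iff, mem_NN]
  have h1 : σ y⁻¹ * σ y = 1 := by rw [← map_mul, inv_mul_cancel, map_one]
  have h2 : σ y * σ y⁻¹ = 1 := by rw [← map_mul, mul_inv_cancel, map_one]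
  constructor
  · rintro ⟨Z, hZ⟩
    exact ⟨σ y⁻¹ * Z, by rw [map_mul, hZ, mul_add, h1, Matrix.mul_smul]⟩
  · rintro ⟨Z, hZ⟩
    refine ⟨σ y * Z, ?_⟩
    have h3 : σ x = σ y * σ (y⁻¹ * x) := by rw [← map_mul, mul_inv_cancel_left]
    rw [h3, hZ, mul_add, mul_one, Matrix.mul_smul]

theorem red_mono {m n : ℕ} (h : m ≤ n) {x y : P} (hxy : red σ n x = red σ n y) :
    red σ m x = red σ m y :=
  red_eq_iff.2 (NN_mono h (red_eq_iff.1 hxy))

theorem exists_max {g : P → ℚ_[p]} (hint : ∀ x, ∃ z : ℤ_[p], g x = z) {A : Subgroup P} {m : ℕ}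
    {x : P} (h : ∃ h ∈ A, h ∈ NN σ m ∧ g (x * h) ≠ 0) :
    ∃ B : ℝ, 0 < B ∧ (∀ h ∈ A, h ∈ NN σ m → ‖g (x * h)‖ ≤ B) ∧
      ∃ h ∈ A, h ∈ NN σ m ∧ ‖g (x * h)‖ = B := by
  classical
  let S : ℕ → Prop := fun k => ∃ h ∈ A, h ∈ NN σ m ∧ ‖g (x * h)‖ = (p : ℝ) ^ (-(k : ℤ))
  have hS : ∀ h ∈ A, h ∈ NN σ m → g (x * h) ≠ 0 → ∃ k : ℕ, ‖g (x * h)‖ = (p : ℝ) ^ (-(k : ℤ)) := by
    intro h _ _ h0
    obtain ⟨z, hz⟩ := hint (x * h)
    have hz0 : z ≠ 0 := by
      rintro rfl
      exact h0 (by rw [hz]; rfl)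
    refine ⟨z.valuation, ?_⟩
    rw [hz]
    exact PadicInt.norm_eq_zpow_neg_valuation hz0
  have hex : ∃ k, S k := by
    obtain ⟨h, h1, h2, h3⟩ := h
    obtain ⟨k, hk⟩ := hS h h1 h2 h3
    exact ⟨k, h, h1, h2, hk⟩
  obtain ⟨h₀, h1, h2, h3⟩ := Nat.find_spec hex
  have hp0 : (0 : ℝ) < p := by exact_mod_cast hp.1.pos
  refine ⟨(p : ℝ) ^ (-((Nat.find hex : ℕ) : ℤ)), by positivity, ?_, h₀, h1, h2, h3⟩
  intro h hA hN
  by_cases h0 : g (x * h) = 0
  · rw [h0, norm_zero]
    positivity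
  · obtain ⟨k, hk⟩ := hS h hA hN h0
    rw [hk]
    exact zpow_neg_anti (Nat.find_min' hex ⟨h, hA, hN, hk⟩)

theorem card_red_le (A : Subgroup P) (m k : ℕ) :
    (red σ (m + k) '' (A : Set P)).ncard ≤
      (red σ m '' (A : Set P)).ncard * Nat.card (Matrix (Fin r) (Fin r) (ZMod (p ^ k))) := by
  classical
  have hrep : ∀ c : Matrix (Fin r) (Fin r) (ZMod (p ^ m)), ∃ a : P, c ∈ red σ m '' (A : Set P) →
      a ∈ A ∧ red σ m a = c := by
    intro c
    by_cases hc : c ∈ red σ m '' (A : Set P)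
    · obtain ⟨a, ha, h⟩ := hc
      exact ⟨a, fun _ => ⟨ha, h⟩⟩
    · exact ⟨1, fun h => absurd h hc⟩
  choose a ha using hrep
  have hlift : ∀ z : ZMod (p ^ k), ∃ w : ℤ_[p], PadicInt.toZModPow k w = z := fun z =>
    ZMod.ringHom_surjective (PadicInt.toZModPow k) z
  choose l hl using hlift
  let F : Matrix (Fin r) (Fin r) (ZMod (p ^ m)) × Matrix (Fin r) (Fin r) (ZMod (p ^ k)) →
      Matrix (Fin r) (Fin r) (ZMod (p ^ (m + k))) := fun q =>
    (σ (a q.1) * (1 + (p : ℤ_[p]) ^ m • q.2.map l)).map (PadicInt.toZModPow (m + k))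
  have hsub : red σ (m + k) '' (A : Set P) ⊆ F '' ((red σ m '' (A : Set P)) ×ˢ Set.univ) := by
    rintro _ ⟨x, hx, rfl⟩
    obtain ⟨h1, h2⟩ := ha (red σ m x) ⟨x, hx, rfl⟩
    have h3 : (a (red σ m x))⁻¹ * x ∈ NN σ m := red_eq_iff.1 h2.symm
    obtain ⟨Z, hZ⟩ := mem_NN.1 h3
    refine ⟨(red σ m x, Z.map (PadicInt.toZModPow k)), ⟨⟨x, hx, rfl⟩, Set.mem_univ _⟩, ?_⟩
    change (σ (a (red σ m x)) * (1 + (p : ℤ_[p]) ^ m •
      (Z.map (PadicInt.toZModPow k)).map l)).map (PadicInt.toZModPow (m + k)) =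
        (σ x).map (PadicInt.toZModPow (m + k))
    have h4 : ((Z.map (PadicInt.toZModPow k)).map l).map (PadicInt.toZModPow k) =
        Z.map (PadicInt.toZModPow k) := by
      ext i j
      simp [hl]
    obtain ⟨W, hW⟩ := (map_eq_iff k _ _).1 h4
    rw [map_eq_iff]
    refine ⟨σ (a (red σ m x)) * W, ?_⟩
    have h5 : σ x = σ (a (red σ m x)) * (1 + (p : ℤ_[p]) ^ m • Z) := by
      rw [← hZ, ← map_mul, mul_inv_cancel_left]
    rw [h5, hW, smul_add, smul_smul, ← pow_add, mul_add, mul_add, mul_add, Matrix.mul_smul,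
      Matrix.mul_smul, add_assoc]
  refine (Set.ncard_le_ncard hsub (Set.toFinite _)).trans
    ((Set.ncard_image_le (Set.toFinite _)).trans ?_)
  rw [Set.ncard_prod, Set.ncard_univ]

/-- The left coset. -/
def coset (A : Subgroup P) (y : P) : Set P := {x | y⁻¹ * x ∈ A}

theorem coset_mul {A : Subgroup P} {y x a : P} (hx : x ∈ coset A y) (ha : a ∈ A) :
    x * a ∈ coset A y := by
  change y⁻¹ * (x * a) ∈ A
  rw [← mul_assoc]
  exact A.mul_mem hx ha

theorem card_coset (A : Subgroup P) (y : P) (m : ℕ) :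
    (red σ m '' coset A y).ncard = (red σ m '' (A : Set P)).ncard := by
  have h1 : red σ m '' coset A y = (fun c => red σ m y * c) '' (red σ m '' (A : Set P)) := by
    ext c
    constructor
    · rintro ⟨x, hx, rfl⟩
      exact ⟨red σ m (y⁻¹ * x), ⟨_, hx, rfl⟩, by
        change red σ m y * red σ m (y⁻¹ * x) = _
        rw [← map_mul, mul_inv_cancel_left]⟩
    · rintro ⟨_, ⟨a, ha, rfl⟩, rfl⟩
      refine ⟨y * a, ?_, map_mul _ _ _⟩
      change y⁻¹ * (y * a) ∈ A
      rwa [inv_mul_cancel_left]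
  rw [h1, Set.ncard_image_of_injective]
  intro c d hcd
  have h2 : red σ m y⁻¹ * (red σ m y * c) = red σ m y⁻¹ * (red σ m y * d) := by
    simp only at hcd
    rw [hcd]
  rwa [← mul_assoc, ← mul_assoc, ← map_mul, inv_mul_cancel, map_one, one_mul, one_mul] at h2

variable {N : ℕ} {g : P → ℚ_[p]} {A : Subgroup P} {m₀ : ℕ} {U : Finset P}

/-- The classes in which the slices in the direction `u` have a zero. -/
def slice (σ : P →* Matrix (Fin r) (Fin r) ℤ_[p]) (g : P → ℚ_[p]) (A : Subgroup P) (y u : P)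
    (M s : ℕ) : Set (Matrix (Fin r) (Fin r) (ZMod (p ^ M))) :=
  {c | c ∈ red σ M '' coset A y ∧ ∀ x ∈ coset A y, red σ M x = c →
    ∃ t', ‖g (x * u ^ (p ^ s * t'))‖ ≠ ‖g x‖}

theorem card_slice (hg : Nice σ N g) {u : P} (hu : u ∈ A) (hu2 : u ∈ NN σ 2) (y : P) (M s : ℕ) :
    (slice σ g A y u M s).ncard * p ^ s ≤ (2 * N - 2) * (red σ M '' (A : Set P)).ncard := by
  classical
  let Q : Finset (Matrix (Fin r) (Fin r) (ZMod (p ^ M))) := (Set.toFinite (red σ M '' coset A y)).toFinset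
  let S : Finset (Matrix (Fin r) (Fin r) (ZMod (p ^ M))) := (Set.toFinite (slice σ g A y u M s)).toFinset
  have hSQ : S ⊆ Q := by
    intro c hc
    rw [Set.Finite.mem_toFinset] at hc ⊢
    exact hc.1
  have hS : (slice σ g A y u M s).ncard = S.card := Set.ncard_eq_toFinset_card _ _
  have hQ : (red σ M '' (A : Set P)).ncard = Q.card := by
    rw [← card_coset A y M]
    exact Set.ncard_eq_toFinset_card _ _
  let f : ℕ → Matrix (Fin r) (Fin r) (ZMod (p ^ M)) → Matrix (Fin r) (Fin r) (ZMod (p ^ M)) :=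
    fun t c => c * red σ M (u ^ t)
  have hf : ∀ t, Function.Injective (f t) := by
    intro t c d hcd
    have h2 : c * red σ M (u ^ t) * red σ M (u ^ t)⁻¹ = d * red σ M (u ^ t) * red σ M (u ^ t)⁻¹ := by
      rw [show c * red σ M (u ^ t) = d * red σ M (u ^ t) from hcd]
    rwa [mul_assoc, mul_assoc, ← map_mul, mul_inv_cancel, map_one, mul_one, mul_one] at h2
  have hfQ : ∀ t, ∀ c ∈ Q, f t c ∈ Q := by
    intro t c hc
    rw [Set.Finite.mem_toFinset] at hc ⊢
    obtain ⟨x, hx, rfl⟩ := hc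
    exact ⟨x * u ^ t, coset_mul hx (A.pow_mem hu t), map_mul _ _ _⟩
  have hcol : ∀ t, (Q.filter fun c => f t c ∈ S).card = S.card := by
    intro t
    have h1 : Q.image (f t) = Q := by
      refine Finset.eq_of_subset_of_card_le (Finset.image_subset_iff.2 (hfQ t)) ?_
      rw [Finset.card_image_of_injective _ (hf t)]
    rw [← Finset.card_image_of_injective (Q.filter fun c => f t c ∈ S) (hf t)]
    congr 1
    ext d
    rw [Finset.mem_image]
    constructor
    · rintro ⟨c, hc, rfl⟩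
      exact (Finset.mem_filter.1 hc).2
    · intro hd
      have h2 : d ∈ Q.image (f t) := h1.symm ▸ hSQ hd
      obtain ⟨c, hc, rfl⟩ := Finset.mem_image.1 h2
      exact ⟨c, Finset.mem_filter.2 ⟨hc, hd⟩, rfl⟩
  have hrow : ∀ c ∈ Q, ((range (p ^ s)).filter fun t => f t c ∈ S).card ≤ 2 * N - 2 := by
    intro c hc
    rw [Set.Finite.mem_toFinset] at hc
    obtain ⟨x, hx, rfl⟩ := hc
    obtain ⟨a, hR, hN⟩ := hg.newt x u hu2
    refine zero_count hR hN s _ fun t ht => ?_
    rw [Finset.mem_filter, mem_range, Set.Finite.mem_toFinset] at ht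
    obtain ⟨ht1, ht2⟩ := ht
    refine ⟨ht1, ?_⟩
    obtain ⟨t', ht'⟩ := ht2.2 (x * u ^ t) (coset_mul hx (A.pow_mem hu t)) (map_mul _ _ _)
    refine ⟨t', ?_⟩
    rw [mul_assoc, ← pow_add] at ht'
    exact ht'
  have hdouble : ∑ t ∈ range (p ^ s), (Q.filter fun c => f t c ∈ S).card =
      ∑ c ∈ Q, ((range (p ^ s)).filter fun t => f t c ∈ S).card := by
    simp only [Finset.card_filter]
    exact Finset.sum_comm
  rw [hS, hQ]
  calc S.card * p ^ s = ∑ t ∈ range (p ^ s), (Q.filter fun c => f t c ∈ S).card := by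
        simp only [hcol, sum_const, card_range, smul_eq_mul]
        ring
    _ = ∑ c ∈ Q, ((range (p ^ s)).filter fun t => f t c ∈ S).card := hdouble
    _ ≤ ∑ _c ∈ Q, (2 * N - 2) := Finset.sum_le_sum hrow
    _ = (2 * N - 2) * Q.card := by
        rw [sum_const, smul_eq_mul]
        ring

/-- The elements of the coset with a zero in their class, which is not contained in the zero set. -/
def zeros (σ : P →* Matrix (Fin r) (Fin r) ℤ_[p]) (g : P → ℚ_[p]) (A : Subgroup P) (y : P)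
    (m : ℕ) : Set P :=
  {x | x ∈ coset A y ∧ g x = 0 ∧ ∃ h ∈ A, h ∈ NN σ m ∧ g (x * h) ≠ 0}

theorem ncard_biUnion_le {α β : Type*} [Finite β] [DecidableEq α] (U : Finset α) (S : α → Set β) :
    (⋃ u ∈ U, S u).ncard ≤ ∑ u ∈ U, (S u).ncard := by
  induction U using Finset.induction_on with
  | empty => simp
  | insert u U hu ih =>
    rw [Finset.sum_insert hu, Finset.set_biUnion_insert]
    exact (Set.ncard_union_le _ _).trans (Nat.add_le_add_left ih _)

/-- **The number of classes containing a zero.** -/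
theorem count_classes (hg : Nice σ N g) (hint : ∀ x, ∃ z : ℤ_[p], g x = z) (A : Subgroup P)
    [A.Normal] : ∃ C : ℕ, ∀ (y : P) (m : ℕ),
      (red σ m '' zeros σ g A y m).ncard * p ^ m ≤ C * (red σ m '' (A : Set P)).ncard := by
  classical
  obtain ⟨m₀, U, h2, hmem, hgen⟩ := exists_gen σ A
  have hU : Gen σ A m₀ U := ⟨h2, hmem, hgen⟩
  let Kc := Nat.card (Matrix (Fin r) (Fin r) (ZMod (p ^ (N + 1))))
  refine ⟨p ^ m₀ * (U.card * (2 * N - 2) * Kc + 1), fun y m => ?_⟩
  rcases lt_or_ge m m₀ with hm | hm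
  · have h3 : (red σ m '' zeros σ g A y m).ncard ≤ (red σ m '' (A : Set P)).ncard := by
      rw [← card_coset A y m]
      exact Set.ncard_le_ncard (Set.image_mono fun x hx => hx.1) (Set.toFinite _)
    calc (red σ m '' zeros σ g A y m).ncard * p ^ m
        ≤ (red σ m '' (A : Set P)).ncard * p ^ m₀ :=
          Nat.mul_le_mul h3 (Nat.pow_le_pow_right hp.1.pos hm.le)
      _ ≤ p ^ m₀ * (U.card * (2 * N - 2) * Kc + 1) * (red σ m '' (A : Set P)).ncard := by
          rw [mul_comm]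
          exact Nat.mul_le_mul_right _ (Nat.le_mul_of_pos_right _ (Nat.succ_pos _))
  · let M := m + (N + 1)
    let s := m - m₀
    -- the choice of a subclass
    have hch : ∀ c : Matrix (Fin r) (Fin r) (ZMod (p ^ m)),
        ∃ x : P, c ∈ red σ m '' zeros σ g A y m →
          red σ m x = c ∧ ∃ u ∈ U, red σ M x ∈ slice σ g A y u M s := by
      intro c
      by_cases hc : c ∈ red σ m '' zeros σ g A y m
      · obtain ⟨x, ⟨hxA, hx0, hxn⟩, rfl⟩ := hc
        obtain ⟨B, hB0, hB, hmax⟩ := exists_max (σ := σ) hint hxn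
        obtain ⟨u, hu, j, h₂, hA₂, hh₂, hj⟩ := jump hg hU hm hB0 hB (by rw [hx0, norm_zero]; exact hB0)
          hmax
        refine ⟨x * h₂, fun _ => ⟨?_, u, hu, ⟨⟨_, coset_mul hxA hA₂, rfl⟩, ?_⟩⟩⟩
        · refine red_eq_iff.2 ?_
          rw [inv_mul_cancel_left]
          exact hh₂
        · intro x' hx' hred
          have h3 : (x * h₂)⁻¹ * x' ∈ NN σ M := red_eq_iff.1 hred
          have h4 : (x * h₂)⁻¹ * x' ∈ A := by
            have h5 : (x * h₂)⁻¹ * x' = (y⁻¹ * (x * h₂))⁻¹ * (y⁻¹ * x') := by group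
            rw [h5]
            exact A.mul_mem (A.inv_mem (coset_mul hxA hA₂)) hx'
          have h6 := hj _ h4 h3
          rw [mul_inv_cancel_left] at h6
          exact ⟨p ^ j, h6.ne'⟩
      · exact ⟨1, fun h => absurd h hc⟩
    choose x hx using hch
    have h3 : (red σ m '' zeros σ g A y m).ncard ≤ (⋃ u ∈ U, slice σ g A y u M s).ncard := by
      refine Set.ncard_le_ncard_of_injOn (fun c => red σ M (x c)) ?_ ?_ (Set.toFinite _)
      · intro c hc
        obtain ⟨-, u, hu, h4⟩ := hx c hc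
        exact Set.mem_biUnion hu h4
      · intro c hc d hd hcd
        have h4 := red_mono (σ := σ) (show m ≤ M from Nat.le_add_right _ _) hcd
        rw [(hx c hc).1, (hx d hd).1] at h4
        exact h4
    have h4 : (⋃ u ∈ U, slice σ g A y u M s).ncard ≤ ∑ u ∈ U, (slice σ g A y u M s).ncard := by
      exact ncard_biUnion_le U fun u => slice σ g A y u M s
    have h5 : ∀ u ∈ U, (slice σ g A y u M s).ncard * p ^ s ≤
        (2 * N - 2) * ((red σ m '' (A : Set P)).ncard * Kc) := by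
      intro u hu
      obtain ⟨h6, h7⟩ := hmem u hu
      exact (card_slice hg h6 (NN_mono h2 h7) y M s).trans
        (Nat.mul_le_mul_left _ (card_red_le A m (N + 1)))
    have h6 : p ^ m = p ^ s * p ^ m₀ := by
      rw [← pow_add]
      congr 1
      omega
    calc (red σ m '' zeros σ g A y m).ncard * p ^ m
        ≤ (∑ u ∈ U, (slice σ g A y u M s).ncard) * p ^ m := Nat.mul_le_mul_right _ (h3.trans h4)
      _ = (∑ u ∈ U, (slice σ g A y u M s).ncard * p ^ s) * p ^ m₀ := by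
          rw [h6, ← mul_assoc, Finset.sum_mul]
      _ ≤ (∑ _u ∈ U, (2 * N - 2) * ((red σ m '' (A : Set P)).ncard * Kc)) * p ^ m₀ :=
          Nat.mul_le_mul_right _ (Finset.sum_le_sum h5)
      _ = p ^ m₀ * (U.card * (2 * N - 2) * Kc) * (red σ m '' (A : Set P)).ncard := by
          rw [sum_const, smul_eq_mul]
          ring
      _ ≤ p ^ m₀ * (U.card * (2 * N - 2) * Kc + 1) * (red σ m '' (A : Set P)).ncard :=
          Nat.mul_le_mul_right _ (Nat.mul_le_mul_left _ (Nat.le_succ _))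

end Pool.Agent.Helper44.PS
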