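import Pool.Agent.Helper44.PS.Classes

/-!
# Powers and cosets (helper44)

`P` is generated modulo all `NN σ M` by `A` and `z`.  Let `y ∈ z ^ n A`, `n ≥ 1`, and let `e` be a
function with `e (x ^ j) ≤ e (x)` for `j ≡ 1` modulo `h₀`, such that on `y NN σ m` the zeros of the Lipschitz function `f` are
the elements with `e (x) < R`.  If `f` vanishes on `y (A ∩ NN σ m)` then it vanishes on `y NN σ M₀` for
some `M₀`: the elements there are congruent to powers of elements of `y (A ∩ NN σ m)`.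
-/

set_option autoImplicit false

namespace Pool.Agent.Helper44.PS

open Finset

variable {p : ℕ} [hp : Fact p.Prime] {P : Type*} [Group P] {r : ℕ}
  {σ : P →* Matrix (Fin r) (Fin r) ℤ_[p]}

instance finiteQuot (m : ℕ) : Finite (P ⧸ NN σ m) := by
  have h1 : Function.Injective fun c : P ⧸ NN σ m =>
      Quotient.liftOn' c (fun x => red σ m x) (fun x y hxy => by
        rw [QuotientGroup.leftRel_apply] at hxy
        exact (red_eq_iff.2 hxy).symm) := by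
    intro c d
    induction c using QuotientGroup.induction_on with
    | H x =>
      induction d using QuotientGroup.induction_on with
      | H y =>
        intro h
        have h2 : red σ m x = red σ m y := h
        exact (QuotientGroup.eq.2 (red_eq_iff.1 h2.symm))
  exact Finite.of_injective _ h1

theorem exists_pow_mem (σ : P →* Matrix (Fin r) (Fin r) ℤ_[p]) (m : ℕ) :
    ∃ E : ℕ, 0 < E ∧ ∀ x : P, x ^ E ∈ NN σ m := by
  have hn : (NN σ m).Normal := MonoidHom.normal_ker _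
  refine ⟨Nat.card (P ⧸ NN σ m), Nat.card_pos, fun x => ?_⟩
  rw [← QuotientGroup.eq_one_iff, QuotientGroup.mk_pow]
  exact pow_card_eq_one'

theorem pow_mem_NN' {m : ℕ} (hm : 2 ≤ m) {E : ℕ} (hE : ∀ x : P, x ^ E ∈ NN σ m) (k : ℕ) (x : P) :
    x ^ (E * p ^ k) ∈ NN σ (m + k) := by
  rw [pow_mul]
  exact pow_mem_NN hm (hE x) k

/-- The arithmetic of the exponents. -/
theorem exists_exponent {n Q h' : ℕ} (hQ1 : 1 < Q) (hh : h' ∣ Q)
    (hpr : ∀ q : ℕ, q.Prime → q ∣ Q → q ∣ h') {N : ℕ} {d s : ℤ}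
    (h : (N : ℤ) - n - d = n * h' * s) :
    ∃ j j' : ℕ, (∃ q : ℤ, (j : ℤ) = 1 + h' * q) ∧ (∃ q : ℤ, (j : ℤ) * j' = 1 + Q * q) ∧
      (∃ q : ℤ, (j' : ℤ) = 1 + h' * q) ∧ ∃ q : ℤ, (N : ℤ) * j' - n = d * j' + Q * q := by
  have hQ0 : (Q : ℤ) ≠ 0 := by
    have : (0 : ℤ) < Q := by exact_mod_cast (by omega : 0 < Q)
    exact this.ne'
  obtain ⟨j, hj⟩ : ∃ j : ℕ, (j : ℤ) = (1 + h' * s) % Q :=
    ⟨((1 + h' * s) % Q).toNat, Int.toNat_of_nonneg (Int.emod_nonneg _ hQ0)⟩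
  have hj' : ∃ q : ℤ, (j : ℤ) = 1 + h' * s + Q * q := by
    refine ⟨-((1 + h' * s) / Q), ?_⟩
    rw [hj]
    have := Int.emod_add_mul_ediv (1 + h' * s) Q
    linarith
  obtain ⟨q₁, hq₁⟩ := hj'
  obtain ⟨t, ht⟩ := hh
  have ht' : (Q : ℤ) = h' * t := by exact_mod_cast ht
  have hcop : Nat.Coprime j Q := by
    rw [Nat.coprime_iff_gcd_eq_one]
    by_contra hne
    obtain ⟨q, hq, hqd⟩ := Nat.exists_prime_and_dvd hne
    have h1 : q ∣ j := hqd.trans (Nat.gcd_dvd_left _ _)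
    have h2 : q ∣ h' := hpr q hq (hqd.trans (Nat.gcd_dvd_right _ _))
    have h3 : (q : ℤ) ∣ j := by exact_mod_cast h1
    have h4 : (q : ℤ) ∣ h' := by exact_mod_cast h2
    have h5 : (1 : ℤ) = j - h' * (s + t * q₁) := by
      rw [hq₁, ht']
      ring
    have h6 : (q : ℤ) ∣ 1 := by
      rw [h5]
      exact dvd_sub h3 (h4.mul_right _)
    have h7 : q ∣ 1 := by exact_mod_cast h6
    exact hq.one_lt.ne' (Nat.dvd_one.1 h7)
  obtain ⟨j', -, hj'⟩ := Nat.exists_mul_mod_eq_one_of_coprime hcop hQ1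
  have h8 : ∃ q : ℤ, (j : ℤ) * j' = 1 + Q * q := by
    refine ⟨((j * j' / Q : ℕ) : ℤ), ?_⟩
    have h9 := Nat.mod_add_div (j * j') Q
    rw [hj'] at h9
    exact_mod_cast h9.symm
  obtain ⟨q₂, hq₂⟩ := h8
  refine ⟨j, j', ⟨s + t * q₁, ?_⟩, ⟨q₂, hq₂⟩, ⟨t * q₂ - s * j' - t * q₁ * j', ?_⟩,
    ⟨n * (q₂ - q₁ * j'), ?_⟩⟩
  · rw [hq₁, ht']
    ring
  · have h10 : (j : ℤ) * j' = j' + h' * s * j' + Q * q₁ * j' := by
      rw [hq₁]
      ring
    rw [hq₂, ht'] at h10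
    rw [ht'] at hq₁
    linear_combination -h10
  · have h11 : (N : ℤ) = n + d + n * h' * s := by linarith
    have h12 : (n : ℤ) * (1 + h' * s) * j' = n * (1 + Q * q₂) - n * Q * q₁ * j' := by
      rw [← hq₂, hq₁]
      ring
    rw [h11]
    linear_combination h12

/-- The subgroups `A NN σ M` and the exponents of `z`. -/
def Expo (σ : P →* Matrix (Fin r) (Fin r) ℤ_[p]) (A : Subgroup P) (z : P) (M : ℕ) (k : ℤ) : Prop :=
  z ^ k ∈ A ⊔ NN σ M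

theorem exists_stable (σ : P →* Matrix (Fin r) (Fin r) ℤ_[p]) (A : Subgroup P) (z : P) (L m : ℕ)
    (hL : 0 < L) : ∃ M₀, m ≤ M₀ ∧ ∀ M, M₀ ≤ M → ∀ k, Expo σ A z M₀ k →
      ∃ d s : ℤ, Expo σ A z M d ∧ k - d = L * s := by
  have : NeZero L := ⟨hL.ne'⟩
  let T : ℕ → Set (ZMod L) := fun M => {c | ∃ k : ℤ, Expo σ A z M k ∧ (k : ZMod L) = c}
  have hmono : ∀ M, T (M + 1) ⊆ T M := by
    rintro M c ⟨k, hk, rfl⟩
    exact ⟨k, sup_le_sup_left (NN_mono (Nat.le_succ M)) A hk, rfl⟩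
  let T' : ℕ →o Set (ZMod L) := ⟨fun M => (T M)ᶜ, monotone_nat_of_le_succ fun M =>
    Set.compl_subset_compl.2 (hmono M)⟩
  obtain ⟨M₁, hM₁⟩ := WellFoundedGT.monotone_chain_condition T'
  refine ⟨max m M₁, le_max_left _ _, fun M hM k hk => ?_⟩
  have h1 : T (max m M₁) = T M := by
    have h2 : (T M₁)ᶜ = (T (max m M₁))ᶜ := hM₁ _ (le_max_right _ _)
    have h3 : (T M₁)ᶜ = (T M)ᶜ := hM₁ _ ((le_max_right _ _).trans hM)
    exact compl_injective (h2.symm.trans h3)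
  have h4 : ((k : ℤ) : ZMod L) ∈ T M := h1 ▸ ⟨k, hk, rfl⟩
  obtain ⟨d, hd, hdk⟩ := h4
  have h5 : ((k - d : ℤ) : ZMod L) = 0 := by
    rw [Int.cast_sub, hdk, sub_self]
  rw [ZMod.intCast_zmod_eq_zero_iff_dvd] at h5
  obtain ⟨s, hs⟩ := h5
  exact ⟨d, s, hd, hs⟩

theorem vanish_near {A : Subgroup P} [hA : A.Normal] {z : P}
    (hgen : ∀ (M : ℕ) (x : P), ∃ k : ℕ, ∃ a ∈ A, red σ M x = red σ M (z ^ k * a))
    {n : ℕ} (hn : 0 < n) {y : P} (hy : y ∈ coset A (z ^ n)) {m : ℕ} (hm : 2 ≤ m)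
    {f : P → ℚ_[p]} (hlip : ∀ (M : ℕ) (x h : P), h ∈ NN σ M → ‖f (x * h) - f x‖ ≤ (p : ℝ) ^ (-(M : ℤ)))
    {h₀ : ℕ} (hh₀ : 0 < h₀) {e : P → ℕ}
    (he : ∀ (x : P) (j : ℕ), (∃ q : ℤ, (j : ℤ) = 1 + h₀ * q) → e (x ^ j) ≤ e x) {R : ℕ}
    (hR : ∀ w ∈ NN σ m, f (y * w) = 0 ↔ e (y * w) < R)
    (h0 : ∀ h ∈ A, h ∈ NN σ m → f (y * h) = 0) :
    ∃ M₀, ∀ w ∈ NN σ M₀, f (y * w) = 0 := by
  have hp1 := hp.1.one_lt
  obtain ⟨E, hE0, hE⟩ := exists_pow_mem σ m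
  obtain ⟨h', hh'⟩ : ∃ h', h' = p * E * h₀ := ⟨_, rfl⟩
  have hh0 : 0 < h' := by
    rw [hh']
    exact Nat.mul_pos (Nat.mul_pos hp.1.pos hE0) hh₀
  obtain ⟨M₀, hmM, hM₀⟩ := exists_stable σ A z (n * h') m (Nat.mul_pos hn hh0)
  refine ⟨M₀, fun w hw => ?_⟩
  -- it suffices to estimate the value
  by_contra hne
  have hpos : 0 < ‖f (y * w)‖ := norm_pos_iff.2 hne
  obtain ⟨M₁, hM₁⟩ := exists_pow_lt (p := p) hpos
  obtain ⟨M, hM⟩ : ∃ M, M = max M₀ M₁ := ⟨_, rfl⟩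
  have hM0 : M₀ ≤ M := hM ▸ le_max_left _ _
  have hlt : (p : ℝ) ^ (-(M : ℤ)) < ‖f (y * w)‖ :=
    lt_of_le_of_lt (zpow_neg_anti (hM ▸ le_max_right _ _)) hM₁
  have hNM : (NN σ M).Normal := MonoidHom.normal_ker _
  obtain ⟨H, hH⟩ : ∃ H, H = A ⊔ NN σ M := ⟨_, rfl⟩
  have hHn : H.Normal := by
    rw [hH]
    infer_instance
  -- exponents
  obtain ⟨Q, hQ⟩ : ∃ Q, Q = E * p ^ (M - m) * h' := ⟨_, rfl⟩
  have hQ1 : 1 < Q := by
    have h1 : 1 ≤ E * p ^ (M - m) := Nat.mul_pos hE0 (pow_pos hp.1.pos _)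
    have h2 : 1 < h' := by
      rw [hh', mul_assoc]
      calc 1 < p := hp1
        _ = p * 1 := (mul_one p).symm
        _ ≤ p * (E * h₀) := Nat.mul_le_mul_left p (Nat.mul_pos hE0 hh₀)
    rw [hQ]
    calc 1 < h' := h2
      _ = 1 * h' := (one_mul h').symm
      _ ≤ E * p ^ (M - m) * h' := Nat.mul_le_mul_right _ h1
  have hQmem : ∀ x : P, x ^ Q ∈ NN σ M := by
    intro x
    have h1 := pow_mem_NN' hm hE (M - m) x
    rw [show m + (M - m) = M by omega] at h1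
    rw [hQ, pow_mul]
    exact (NN σ M).pow_mem h1 h'
  have hpr : ∀ q : ℕ, q.Prime → q ∣ Q → q ∣ h' := by
    intro q hq hd
    rw [hQ] at hd
    rcases hq.dvd_mul.1 hd with h1 | h1
    · rcases hq.dvd_mul.1 h1 with h2 | h2
      · rw [hh']
        exact (h2.mul_left p).mul_right h₀
      · rw [hh']
        exact ((hq.dvd_of_dvd_pow h2).mul_right E).mul_right h₀
    · exact h1
  -- the coset of `y w`
  obtain ⟨N, a, ha, hN⟩ := hgen M (y * w)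
  have hν : (z ^ N * a)⁻¹ * (y * w) ∈ NN σ M := red_eq_iff.1 hN
  have hy' : (z ^ n)⁻¹ * y ∈ A := hy
  have hexp : Expo σ A z M₀ ((N : ℤ) - n) := by
    have hn0 : (NN σ M₀).Normal := MonoidHom.normal_ker _
    have hG : (A ⊔ NN σ M₀).Normal := inferInstance
    change z ^ ((N : ℤ) - n) ∈ A ⊔ NN σ M₀
    rw [← QuotientGroup.eq_one_iff]
    have h1 : ((y * w : P) : P ⧸ (A ⊔ NN σ M₀)) = ((z ^ N : P) : P ⧸ (A ⊔ NN σ M₀)) := by
      rw [eq_comm, QuotientGroup.eq]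
      have h2 : (z ^ N)⁻¹ * (y * w) = a * ((z ^ N * a)⁻¹ * (y * w)) := by group
      rw [h2]
      exact Subgroup.mul_mem_sup ha (NN_mono hM0 hν)
    have h3 : ((y * w : P) : P ⧸ (A ⊔ NN σ M₀)) = ((z ^ n : P) : P ⧸ (A ⊔ NN σ M₀)) := by
      rw [eq_comm, QuotientGroup.eq, ← mul_assoc]
      exact Subgroup.mul_mem_sup hy' hw
    rw [zpow_sub, zpow_natCast, zpow_natCast, QuotientGroup.mk_mul, QuotientGroup.mk_inv, ← h1, ← h3,
      mul_inv_cancel]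
  obtain ⟨d, s, hd, hs⟩ := hM₀ M hM0 _ hexp
  obtain ⟨j, j', ⟨q₀, hq₀⟩, ⟨q₁, hq₁⟩, ⟨q₂, hq₂⟩, ⟨q₃, hq₃⟩⟩ := exists_exponent (n := n) hQ1
    (hQ ▸ Dvd.intro_left _ rfl) hpr (N := N) (d := d) (s := s) (by
      rw [hs]
      push_cast
      ring)
  obtain ⟨x, hx⟩ : ∃ x, x = (y * w) ^ j' := ⟨_, rfl⟩
  -- `x` is congruent to `y` modulo `p ^ m`
  have hx1 : y⁻¹ * x ∈ NN σ m := by
    have hnm : (NN σ m).Normal := MonoidHom.normal_ker _
    rw [← QuotientGroup.eq, hx, QuotientGroup.mk_pow]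
    have h1 : ((y * w : P) : P ⧸ NN σ m) = (y : P ⧸ NN σ m) := by
      rw [eq_comm, QuotientGroup.eq, inv_mul_cancel_left]
      exact NN_mono hmM hw
    rw [h1, ← zpow_natCast, hq₂, zpow_add, zpow_one, zpow_mul, zpow_natCast]
    have h2 : ((y : P ⧸ NN σ m)) ^ h' = 1 := by
      rw [← QuotientGroup.mk_pow, QuotientGroup.eq_one_iff, hh', mul_comm p, pow_mul, pow_mul]
      exact (NN σ m).pow_mem ((NN σ m).pow_mem (hE y) p) h₀
    rw [h2, one_zpow, mul_one]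
  -- `x` lies in `z ^ n H`
  have hx2 : (z ^ n)⁻¹ * x ∈ H := by
    have h1 : ((y * w : P) : P ⧸ H) = ((z ^ N : P) : P ⧸ H) := by
      rw [eq_comm, QuotientGroup.eq]
      have h2 : (z ^ N)⁻¹ * (y * w) = a * ((z ^ N * a)⁻¹ * (y * w)) := by group
      rw [h2, hH]
      exact Subgroup.mul_mem_sup ha hν
    have h3 : ((z : P ⧸ H)) ^ ((N : ℤ) * j' - n) = 1 := by
      rw [hq₃, zpow_add, zpow_mul, zpow_mul]
      have h4 : ((z : P ⧸ H)) ^ d = 1 := by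
        rw [← QuotientGroup.mk_zpow, QuotientGroup.eq_one_iff, hH]
        exact hd
      have h5 : ((z : P ⧸ H)) ^ (Q : ℤ) = 1 := by
        rw [zpow_natCast, ← QuotientGroup.mk_pow, QuotientGroup.eq_one_iff, hH]
        exact Subgroup.mem_sup_right (hQmem z)
      rw [h4, h5, one_zpow, one_zpow, mul_one]
    have h6 : ((x : P) : P ⧸ H) = (z : P ⧸ H) ^ (N * j') := by
      rw [hx, QuotientGroup.mk_pow, h1, QuotientGroup.mk_pow, ← pow_mul]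
    have h7 : ((z ^ n : P) : P ⧸ H) = (z : P ⧸ H) ^ n := QuotientGroup.mk_pow _ _ _
    rw [zpow_sub, mul_inv_eq_one, zpow_natCast] at h3
    rw [← QuotientGroup.eq, h7, h6, ← h3]
    exact_mod_cast rfl
  rw [hH, Subgroup.mem_sup_of_normal_right] at hx2
  obtain ⟨a', ha', ν, hν', hx3⟩ := hx2
  -- the element of the coset
  obtain ⟨h, hh⟩ : ∃ h, h = y⁻¹ * (z ^ n * a') := ⟨_, rfl⟩
  have hyh : y * h = x * ν⁻¹ := by
    rw [hh, mul_inv_cancel_left, eq_mul_inv_iff_mul_eq, mul_assoc, hx3, mul_inv_cancel_left]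
  have hhA : h ∈ A := by
    have h1 : h = ((z ^ n)⁻¹ * y)⁻¹ * a' := by
      rw [hh]
      group
    rw [h1]
    exact A.mul_mem (A.inv_mem hy') ha'
  have hhN : h ∈ NN σ m := by
    have h1 : h = y⁻¹ * x * ν⁻¹ := by
      rw [mul_assoc, ← hyh, inv_mul_cancel_left]
    rw [h1]
    exact (NN σ m).mul_mem hx1 ((NN σ m).inv_mem (NN_mono (hmM.trans hM0) hν'))
  have h1 := (hR h hhN).1 (h0 h hhA hhN)
  -- the power
  have h2 : (y * h) ^ j = y * w * ((y * w)⁻¹ * (y * h) ^ j) := by rw [mul_inv_cancel_left]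
  have h3 : (y * w)⁻¹ * (y * h) ^ j ∈ NN σ M := by
    rw [← QuotientGroup.eq, QuotientGroup.mk_pow, hyh]
    have h4 : ((x * ν⁻¹ : P) : P ⧸ NN σ M) = (x : P ⧸ NN σ M) := by
      rw [eq_comm, QuotientGroup.eq, inv_mul_cancel_left]
      exact (NN σ M).inv_mem hν'
    have h5 : ((y * w : P) : P ⧸ NN σ M) ^ Q = 1 := by
      rw [← QuotientGroup.mk_pow, QuotientGroup.eq_one_iff]
      exact hQmem _
    rw [h4, hx, QuotientGroup.mk_pow, ← pow_mul, ← zpow_natCast]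
    push_cast
    rw [mul_comm, hq₁, zpow_add, zpow_one, zpow_mul, zpow_natCast, h5, one_zpow, mul_one]
  have h4 : e ((y * h) ^ j) < R := by
    refine lt_of_le_of_lt (he _ _ ⟨p * E * q₀, ?_⟩) h1
    rw [hq₀, hh']
    push_cast
    ring
  have h5 : f ((y * h) ^ j) = 0 := by
    have h6 : (y * h) ^ j = y * (y⁻¹ * (y * h) ^ j) := by rw [mul_inv_cancel_left]
    have h7 : y⁻¹ * (y * h) ^ j ∈ NN σ m := by
      have h8 : y⁻¹ * (y * h) ^ j = w * ((y * w)⁻¹ * (y * h) ^ j) := by group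
      rw [h8]
      exact (NN σ m).mul_mem (NN_mono hmM hw) (NN_mono (hmM.trans hM0) h3)
    rw [h6] at h4 ⊢
    exact (hR _ h7).2 h4
  have h6 := hlip M (y * w) _ h3
  rw [← h2, h5, zero_sub, norm_neg] at h6
  linarith

end Pool.Agent.Helper44.PS
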