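import Pool.Agent.Helper44.PS.Roots

/-!
# Counting the zeros of a sequence with a small difference recurrence (helper44)

`φ (t) = ∑ C (t, j) a (j)`.  If the Newton coefficients `a (j)`, `j ≥ N`, are small in terms of the
first `N` ones, then at most `2 N - 2` of the classes `t + p ^ s ℕ`, `t < p ^ s`, contain `t'` with
`‖φ (t')‖ ≠ ‖φ (t)‖`.
-/

set_option autoImplicit false

namespace Pool.Agent.Helper44.PS

open Polynomial Finset

variable {p : ℕ} [hp : Fact p.Prime]

/-- The Newton coefficients of index at least `N` are small in terms of the first `N` ones. -/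
structure Rec (p : ℕ) [Fact p.Prime] (N : ℕ) (a : ℕ → ℚ_[p]) : Prop where
  pos : 0 < N
  dec : ∀ B : ℝ, (∀ i < N, ‖a i‖ ≤ B) → ∀ j, N ≤ j → ‖a j‖ * (p : ℝ) ^ (2 * (j + 1 - N)) ≤ B

/-- The sequence with Newton coefficients `a`. -/
def Newton (a φ : ℕ → ℚ_[p]) : Prop :=
  ∀ t, φ t = ∑ j ∈ range (t + 1), (t.choose j : ℚ_[p]) * a j

/-- The interpolation polynomial. -/
noncomputable def interp (a : ℕ → ℚ_[p]) (L : ℕ) : ℚ_[p][X] :=
  ∑ j ∈ range (L + 1), C (a j / (j.factorial : ℚ_[p])) * descPochhammer ℚ_[p] j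

theorem interp_eval {a φ : ℕ → ℚ_[p]} (h : Newton a φ) {L t : ℕ} (ht : t ≤ L) :
    (interp a L).eval (t : ℚ_[p]) = φ t := by
  rw [h t, interp, eval_finsetSum]
  have h1 : ∀ j, eval (t : ℚ_[p]) (C (a j / (j.factorial : ℚ_[p])) * descPochhammer ℚ_[p] j) =
      (t.choose j : ℚ_[p]) * a j := by
    intro j
    have hj : (j.factorial : ℚ_[p]) ≠ 0 := Nat.cast_ne_zero.2 (Nat.factorial_ne_zero j)
    rw [eval_mul, eval_C, descPochhammer_eval_eq_descFactorial, Nat.descFactorial_eq_factorial_mul_choose]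
    push_cast
    field_simp
  simp only [h1]
  symm
  refine Finset.sum_subset (fun j hj => ?_) fun j _ hj => ?_
  · rw [mem_range] at hj ⊢
    omega
  · rw [mem_range, not_lt] at hj
    rw [Nat.choose_eq_zero_of_lt (by omega), Nat.cast_zero, zero_mul]

/-- The Newton coefficients are bounded by the values. -/
theorem newton_le {a φ : ℕ → ℚ_[p]} (h : Newton a φ) {B : ℝ} {m : ℕ} (hB : ∀ t ≤ m, ‖φ t‖ ≤ B) :
    ‖a m‖ ≤ B := by
  induction m using Nat.strong_induction_on with
  | _ m ih =>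
    have h1 : a m = φ m - ∑ j ∈ range m, (m.choose j : ℚ_[p]) * a j := by
      rw [h m, sum_range_succ, Nat.choose_self, Nat.cast_one, one_mul]
      ring
    have hB0 : 0 ≤ B := (norm_nonneg _).trans (hB 0 (Nat.zero_le _))
    rw [h1, sub_eq_add_neg]
    refine (IsUltrametricDist.norm_add_le_max _ _).trans (max_le (hB m le_rfl) ?_)
    rw [norm_neg]
    refine IsUltrametricDist.norm_sum_le_of_forall_le_of_nonneg hB0 fun j hj => ?_
    rw [mem_range] at hj
    rw [norm_mul]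
    refine (mul_le_of_le_one_left (norm_nonneg _) ?_).trans
      (ih j hj fun t ht => hB t (ht.trans hj.le))
    exact_mod_cast Padic.norm_int_le_one (m.choose j : ℤ)

theorem one_lt_p : (1 : ℝ) < p := by exact_mod_cast hp.1.one_lt

theorem inv_factorial_le (j : ℕ) : ‖((j.factorial : ℚ_[p]))⁻¹‖ ≤ (p : ℝ) ^ j := by
  have hj : (j.factorial : ℕ) ≠ 0 := Nat.factorial_ne_zero j
  rw [norm_inv, Padic.norm_eq_zpow_neg_valuation (Nat.cast_ne_zero.2 hj), Padic.valuation_natCast,
    zpow_neg, inv_inv, zpow_natCast]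
  exact pow_le_pow_right₀ one_lt_p.le (padicValNat_factorial_le (p := p) j)

theorem exists_newton_le {a φ : ℕ → ℚ_[p]} (h : Newton a φ) (m : ℕ) :
    ∃ t ≤ m, ‖a m‖ ≤ ‖φ t‖ := by
  obtain ⟨t, ht, hmax⟩ := Finset.exists_max_image (range (m + 1)) (fun t => ‖φ t‖)
    ⟨0, by simp⟩
  refine ⟨t, by simpa [Nat.lt_succ_iff] using ht, newton_le h fun t' ht' => hmax t' ?_⟩
  simpa [Nat.lt_succ_iff] using ht'

theorem coeff_lt {N : ℕ} {a : ℕ → ℚ_[p]} (hR : Rec p N a) {B : ℝ} (hB0 : 0 < B)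
    (hB : ∀ i < N, ‖a i‖ ≤ B) (L k : ℕ) (hk : 2 * N - 1 ≤ k) : ‖(interp a L).coeff k‖ < B := by
  have h1 : ‖(interp a L).coeff k‖ ≤ B * (p : ℝ)⁻¹ := by
    rw [interp, finsetSum_coeff]
    refine IsUltrametricDist.norm_sum_le_of_forall_le_of_nonneg (by positivity) fun j _ => ?_
    rw [coeff_C_mul]
    by_cases hjk : j < k
    · rw [coeff_eq_zero_of_natDegree_lt (by rwa [descPochhammer_natDegree]), mul_zero, norm_zero]
      positivity
    · push Not at hjk
      have hN := hR.pos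
      have h2 := hR.dec B hB j (by omega)
      have h3 : ‖(descPochhammer ℚ_[p] j).coeff k‖ ≤ 1 := by
        rw [← descPochhammer_map (Int.castRingHom ℚ_[p]), coeff_map]
        exact Padic.norm_int_le_one _
      have h4 : ‖a j / (j.factorial : ℚ_[p])‖ ≤ ‖a j‖ * (p : ℝ) ^ j := by
        rw [div_eq_mul_inv, norm_mul]
        exact mul_le_mul_of_nonneg_left (inv_factorial_le j) (norm_nonneg _)
      have h5 : ‖a j‖ * (p : ℝ) ^ (j + 1) ≤ B :=
        (mul_le_mul_of_nonneg_left (pow_le_pow_right₀ one_lt_p.le (by omega))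
          (norm_nonneg _)).trans h2
      have hp0 : (0 : ℝ) < p := by exact_mod_cast hp.1.pos
      rw [norm_mul]
      calc ‖a j / (j.factorial : ℚ_[p])‖ * ‖(descPochhammer ℚ_[p] j).coeff k‖
          ≤ (‖a j‖ * (p : ℝ) ^ j) * 1 := mul_le_mul h4 h3 (norm_nonneg _) (by positivity)
        _ = ‖a j‖ * (p : ℝ) ^ (j + 1) * (p : ℝ)⁻¹ := by
          rw [pow_succ]
          field_simp
        _ ≤ B * (p : ℝ)⁻¹ := mul_le_mul_of_nonneg_right h5 (by positivity)
  refine lt_of_le_of_lt h1 (mul_lt_of_lt_one_right hB0 (inv_lt_one_of_one_lt₀ one_lt_p))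

theorem norm_p_pow_mul_le (s t : ℕ) : ‖((p ^ s * t : ℕ) : ℚ_[p])‖ ≤ (p : ℝ) ^ (-(s : ℤ)) := by
  have h := (Padic.norm_int_le_pow_iff_dvd (p := p) ((p ^ s * t : ℕ) : ℤ) s).2
    (by exact_mod_cast Dvd.intro _ rfl)
  exact_mod_cast h

/-- **The number of classes on which the norm is not constant.** -/
theorem zero_count {N : ℕ} {a φ : ℕ → ℚ_[p]} (hR : Rec p N a) (hφ : Newton a φ) (s : ℕ)
    (T : Finset ℕ) (hT : ∀ t ∈ T, t < p ^ s ∧ ∃ t', ‖φ (t + p ^ s * t')‖ ≠ ‖φ t‖) :
    T.card ≤ 2 * N - 2 := by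
  classical
  by_contra hcon
  push Not at hcon
  have hN := hR.pos
  have hchoose : ∀ t, ∃ t', t ∈ T → ‖φ (t + p ^ s * t')‖ ≠ ‖φ t‖ := by
    intro t
    by_cases ht : t ∈ T
    · obtain ⟨-, t', h⟩ := hT t ht
      exact ⟨t', fun _ => h⟩
    · exact ⟨0, fun h => absurd h ht⟩
  choose t' ht' using hchoose
  obtain ⟨L, hLN, hL⟩ : ∃ L, N ≤ L ∧ ∀ t ∈ T, t + p ^ s * t' t ≤ L := by
    refine ⟨max N (T.sup fun t => t + p ^ s * t' t), le_max_left _ _, fun t ht => ?_⟩
    exact (Finset.le_sup (f := fun t => t + p ^ s * t' t) ht).trans (le_max_right _ _)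
  let K := PadicAlgCl p
  let f : K[X] := (interp a L).map (algebraMap ℚ_[p] K)
  have hnorm : ∀ x : ℚ_[p], ‖algebraMap ℚ_[p] K x‖ = ‖x‖ := fun x => PadicAlgCl.norm_extends p x
  have heval : ∀ t ≤ L, ‖f.eval (t : K)‖ = ‖φ t‖ := by
    intro t ht
    have h1 : ((t : ℕ) : K) = algebraMap ℚ_[p] K (t : ℚ_[p]) := by rw [map_natCast]
    rw [h1, eval_map_algebraMap, aeval_algebraMap_apply, hnorm, coe_aeval_eq_eval, interp_eval hφ ht]
  -- the maximal coefficient
  obtain ⟨i₀, hi₀, hmax⟩ := Finset.exists_max_image (range N) (fun i => ‖a i‖) ⟨0, by simpa⟩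
  rw [mem_range] at hi₀
  have hB : ∀ i < N, ‖a i‖ ≤ ‖a i₀‖ := fun i hi => hmax i (mem_range.2 hi)
  have hB0 : 0 < ‖a i₀‖ := by
    rw [norm_pos_iff]
    intro h0
    rw [h0, norm_zero] at hB
    have ha : ∀ j, a j = 0 := by
      intro j
      rcases lt_or_ge j N with hj | hj
      · exact norm_le_zero_iff.1 (hB j hj)
      · have h1 := hR.dec 0 hB j hj
        have h2 : (0 : ℝ) < (p : ℝ) ^ (2 * (j + 1 - N)) := by
          have : (0 : ℝ) < p := by exact_mod_cast hp.1.pos
          positivity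
        have h3 : ‖a j‖ ≤ 0 := by
          by_contra h4
          push Not at h4
          have := mul_pos h4 h2
          linarith
        exact norm_le_zero_iff.1 h3
    have hφ0 : ∀ t, φ t = 0 := by
      intro t
      rw [hφ t]
      exact Finset.sum_eq_zero fun j _ => by rw [ha, mul_zero]
    obtain ⟨t, ht⟩ : T.Nonempty := Finset.card_pos.1 (by omega)
    exact ht' t ht (by rw [hφ0, hφ0])
  -- the roots
  have hroot : ∀ t, ∃ α : K, t ∈ T → α ∈ f.roots ∧ ‖(t : K) - α‖ ≤ (p : ℝ) ^ (-(s : ℤ)) := by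
    intro t
    by_cases ht : t ∈ T
    · by_contra hno
      push Not at hno
      refine ht' t ht ?_
      have h1 := norm_eval_eq f ((t : ℕ) : K) ((t + p ^ s * t' t : ℕ) : K) ((p : ℝ) ^ (-(s : ℤ)))
        (by
          rw [Nat.cast_add, add_sub_cancel_left]
          have h2 : ((p ^ s * t' t : ℕ) : K) = algebraMap ℚ_[p] K ((p ^ s * t' t : ℕ) : ℚ_[p]) := by
            rw [map_natCast]
          rw [h2, hnorm]
          exact norm_p_pow_mul_le s (t' t)) (fun α hα => (hno α).2 hα)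
      rw [heval t ((Nat.le_add_right _ _).trans (hL t ht)), heval _ (hL t ht)] at h1
      exact h1.symm
    · exact ⟨0, fun h => absurd h ht⟩
  choose α hα using hroot
  have hinj : Set.InjOn α T := by
    intro t ht u hu htu
    have h1 : ‖((t : ℕ) : K) - (u : K)‖ ≤ (p : ℝ) ^ (-(s : ℤ)) := by
      have h2 : ((t : ℕ) : K) - (u : K) = (t - α t) + -((u : K) - α u) := by
        rw [htu]
        ring
      rw [h2]
      refine (IsUltrametricDist.norm_add_le_max _ _).trans (max_le (hα t ht).2 ?_)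
      rw [norm_neg]
      exact (hα u hu).2
    have h3 : ((t : ℕ) : K) - (u : K) = algebraMap ℚ_[p] K (((t : ℤ) - (u : ℤ) : ℤ) : ℚ_[p]) := by
      simp
    rw [h3, hnorm, Padic.norm_int_le_pow_iff_dvd] at h1
    have h4 := (hT t ht).1
    have h5 := (hT u hu).1
    have h6 : (t : ℤ) - u = 0 := by
      refine Int.eq_zero_of_abs_lt_dvd h1 ?_
      rw [abs_lt]
      have h7 : ((p ^ s : ℕ) : ℤ) = (p : ℤ) ^ s := by push_cast; rfl
      constructor
      · rw [← h7]
        omega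
      · rw [← h7]
        omega
    omega
  have hsmall := small_of_roots (T.image α) f ‖a i₀‖ (by
      intro β hβ
      obtain ⟨t, ht, rfl⟩ := Finset.mem_image.1 hβ
      obtain ⟨h1, h2⟩ := hα t ht
      refine ⟨(mem_roots'.1 h1).2, ?_⟩
      have h3 : α t = (t : K) + -((t : K) - α t) := by ring
      rw [h3]
      refine (IsUltrametricDist.norm_add_le_max _ _).trans (max_le ?_ ?_)
      · have h4 : ((t : ℕ) : K) = algebraMap ℚ_[p] K ((t : ℤ) : ℚ_[p]) := by
          simp
        rw [h4, hnorm]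
        exact Padic.norm_int_le_one _
      · rw [norm_neg]
        refine h2.trans ?_
        rw [zpow_neg, zpow_natCast]
        exact inv_le_one_of_one_le₀ (one_le_pow₀ one_lt_p.le)) (by
      intro k hk
      rw [Finset.card_image_of_injOn hinj] at hk
      rw [coeff_map, hnorm]
      exact coeff_lt hR hB0 hB L k (by omega))
  obtain ⟨t, ht, hle⟩ := exists_newton_le hφ i₀
  have h1 := hsmall (t : K) (by
    have h4 : ((t : ℕ) : K) = algebraMap ℚ_[p] K ((t : ℤ) : ℚ_[p]) := by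
      simp
    rw [h4, hnorm]
    exact Padic.norm_int_le_one _)
  rw [heval t (by omega)] at h1
  exact absurd hle (not_le.2 h1)

end Pool.Agent.Helper44.PS
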