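import Pool.Agent.Helper44.PS.Law

/-!
# The multiplicities of the roots of unity (helper44)

`mw T w` is the number of eigenvalues `k` of `T` with `k ^ w = 1`, with multiplicities.
-/

set_option autoImplicit false

namespace Pool.Agent.Helper44.PS

open Polynomial Pool.Agent.Helper40.ZO Pool.Agent.Helper40.LL Pool.Agent.Helper40.JL
  Pool.Agent.Helper40.CS

section closed

variable {K V : Type*} [Field K] [AddCommGroup V] [Module K V] [FiniteDimensional K V]

open Classical in
/-- The number of roots of unity of order dividing `w` among the roots. -/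
noncomputable def rw1 (f : K[X]) (w : ℕ) : ℕ := Multiset.card (f.roots.filter fun k => k ^ w = 1)

open Classical in
/-- The roots of unity of order dividing `w`. -/
noncomputable def un (K : Type*) [Field K] (w : ℕ) : Finset K := (X ^ w - 1 : K[X]).roots.toFinset

theorem mem_un {w : ℕ} (hw : 0 < w) {k : K} : k ∈ un K w ↔ k ^ w = 1 := by
  classical
  rw [un, Multiset.mem_toFinset, mem_roots (X_pow_sub_one_ne_zero hw), IsRoot.def, eval_sub,
    eval_pow, eval_X, eval_one, sub_eq_zero]
where
  X_pow_sub_one_ne_zero (hw : 0 < w) : (X ^ w - 1 : K[X]) ≠ 0 := by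
    have h := X_pow_sub_C_ne_zero hw (1 : K)
    rwa [C_1] at h

theorem rw1_eq_sum (f : K[X]) {w : ℕ} (hw : 0 < w) :
    rw1 f w = ∑ k ∈ un K w, f.rootMultiplicity k := by
  classical
  have h1 : ∀ (s : Multiset K) (R : Finset K), (∀ k, k ∈ R ↔ k ^ w = 1) →
      Multiset.card (s.filter fun k => k ^ w = 1) = ∑ k ∈ R, s.count k := by
    intro s R hR
    induction s using Multiset.induction_on with
    | empty => simp
    | cons a s ih =>
      have h2 : ∑ k ∈ R, Multiset.count k (a ::ₘ s) =
          ∑ k ∈ R, Multiset.count k s + ∑ k ∈ R, (if k = a then 1 else 0) := by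
        rw [← Finset.sum_add_distrib]
        exact Finset.sum_congr rfl fun k _ => Multiset.count_cons k a s
      rw [h2, ← ih]
      by_cases ha : a ^ w = 1
      · rw [Multiset.filter_cons_of_pos (p := fun k : K => k ^ w = 1) s ha, Multiset.card_cons,
          Finset.sum_ite_eq',
          if_pos ((hR a).2 ha)]
      · rw [Multiset.filter_cons_of_neg (p := fun k : K => k ^ w = 1) s ha, Finset.sum_ite_eq',
          if_neg (fun h => ha ((hR a).1 h)), add_zero]
  rw [rw1, h1 f.roots (un K w) (fun k => mem_un hw)]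
  exact Finset.sum_congr rfl fun k _ => count_roots f

theorem finrank_ker_prod (T : Module.End K V) (N : ℕ) (s : Finset K) :
    Module.finrank K (LinearMap.ker (aeval T (∏ k ∈ s, (X - C k) ^ N))) =
      ∑ k ∈ s, Module.finrank K (LinearMap.ker (aeval T ((X - C k) ^ N))) := by
  classical
  induction s using Finset.induction_on with
  | empty =>
    rw [Finset.prod_empty, map_one, Finset.sum_empty]
    have h2 : LinearMap.ker (1 : Module.End K V) = ⊥ := LinearMap.ker_id
    rw [h2, finrank_bot]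
  | insert a s ha ih =>
    have hcop : IsCoprime ((X - C a : K[X]) ^ N) (∏ k ∈ s, (X - C k) ^ N) := by
      refine IsCoprime.prod_right fun k hk => IsCoprime.pow ?_
      exact isCoprime_X_sub_C_of_isUnit_sub (by
        rw [isUnit_iff_ne_zero, sub_ne_zero]
        rintro rfl
        exact ha hk)
    rw [Finset.prod_insert ha, Finset.sum_insert ha,
      ← sup_ker_aeval_eq_ker_aeval_mul_of_coprime T hcop]
    have h3 := Submodule.finrank_sup_add_finrank_inf_eq
      (LinearMap.ker (aeval T ((X - C a : K[X]) ^ N)))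
      (LinearMap.ker (aeval T (∏ k ∈ s, (X - C k : K[X]) ^ N)))
    rw [(disjoint_ker_aeval_of_isCoprime T hcop).eq_bot, finrank_bot, add_zero] at h3
    rw [h3, ih]

theorem prod_un [IsAlgClosed K] [CharZero K] {w : ℕ} (hw : 0 < w) :
    (X ^ w - 1 : K[X]) = ∏ k ∈ un K w, (X - C k) := by
  classical
  have h1 : (X ^ w - 1 : K[X]).Splits := IsAlgClosed.splits _
  have h2 : (X ^ w - 1 : K[X]).Separable := by
    have h := separable_X_pow_sub_C (1 : K) (n := w) (Nat.cast_ne_zero.2 hw.ne') one_ne_zero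
    rwa [C_1] at h
  have h3 : (X ^ w - 1 : K[X]).Monic := by
    have h := monic_X_pow_sub_C (1 : K) hw.ne'
    rwa [C_1] at h
  have h4 := h1.eq_prod_roots
  rw [h3.leadingCoeff, C_1, one_mul] at h4
  have h5 : (X ^ w - 1 : K[X]).roots.Nodup := nodup_roots h2
  rw [un]
  conv_lhs => rw [h4]
  rw [Finset.prod_eq_multiset_prod, Multiset.toFinset_val, h5.dedup]

theorem mult_pow [IsAlgClosed K] [CharZero K] (T : Module.End K V) {w : ℕ} (hw : 0 < w) :
    (T ^ w).charpoly.rootMultiplicity 1 = rw1 T.charpoly w := by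
  rw [mult_eq (T ^ w) 1 le_rfl, rw1_eq_sum _ hw]
  have h1 : aeval (T ^ w) ((X - C (1 : K)) ^ Module.finrank K V) =
      aeval T (∏ k ∈ un K w, (X - C k) ^ Module.finrank K V) := by
    rw [Finset.prod_pow, ← prod_un hw]
    simp
  rw [h1, finrank_ker_prod]
  exact Finset.sum_congr rfl fun k _ => (mult_eq T k le_rfl).symm

end closed

open Classical in
theorem rw1_closure {E L : Type*} [Field E] [Field L] [Algebra E L] [IsAlgClosed L]
    (q : E[X]) (w : ℕ) : rw1 (q.map (algebraMap E L)) w =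
      rw1 (q.map (algebraMap E (AlgebraicClosure E))) w := by
  let φ : AlgebraicClosure E →ₐ[E] L := IsAlgClosed.lift
  have h1 : q.map (algebraMap E L) =
      (q.map (algebraMap E (AlgebraicClosure E))).map (φ : AlgebraicClosure E →+* L) := by
    rw [Polynomial.map_map]
    congr 1
    exact (φ.comp_algebraMap).symm
  have h2 : (q.map (algebraMap E L)).roots =
      ((q.map (algebraMap E (AlgebraicClosure E))).roots).map (φ : AlgebraicClosure E →+* L) := by
    rw [h1]
    exact (Polynomial.Splits.roots_map (IsAlgClosed.splits _) (φ : AlgebraicClosure E →+* L))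
  rw [rw1, rw1, h2, Multiset.filter_map, Multiset.card_map]
  congr 1
  refine Multiset.filter_congr fun k _ => ?_
  rw [Function.comp_apply, ← map_pow]
  exact map_eq_one_iff _ (RingHom.injective _)

theorem rw1_eq {E K K' : Type*} [Field E] [Field K] [Field K'] [Algebra E K] [Algebra E K']
    [IsAlgClosed K] [IsAlgClosed K'] (q : E[X]) (w : ℕ) :
    rw1 (q.map (algebraMap E K)) w = rw1 (q.map (algebraMap E K')) w :=
  (rw1_closure (L := K) q w).trans (rw1_closure (L := K') q w).symm

variable {p : ℕ} [hp : Fact p.Prime] {r : ℕ}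

theorem mu_pow {P : Type*} [Group P] (σ : P →* Matrix (Fin r) (Fin r) ℤ_[p]) {w : ℕ} (hw : 0 < w)
    (x : P) : mu σ 1 (x ^ w) = rw1 ((σ x).charpoly.map (inc p)) w := by
  have h1 : mu σ 1 (x ^ w) = ((Matrix.toLin' ((inc p).mapMatrix (σ x))) ^ w).charpoly.rootMultiplicity
      1 := by
    rw [← Matrix.toLin'_pow, Matrix.charpoly_toLin', ← map_pow, ← map_pow, RingHom.mapMatrix_apply,
      Matrix.charpoly_map, mu]
    have h2 := eq_rootMultiplicity_map (p := (σ (x ^ w)).charpoly) (f := inc p) inc_injective 1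
    rw [map_one] at h2
    exact h2
  rw [h1, mult_pow _ hw, Matrix.charpoly_toLin', RingHom.mapMatrix_apply, Matrix.charpoly_map]

/-- The polynomial functions of `x ^ w`. -/
theorem exists_pow (G : MvPolynomial (Fin r × Fin r) ℤ_[p]) (w : ℕ) :
    ∃ G' : MvPolynomial (Fin r × Fin r) ℤ_[p], ∀ X : Matrix (Fin r) (Fin r) ℤ_[p],
      MvPolynomial.eval (fun k => X k.1 k.2) G' =
        MvPolynomial.eval (fun k => (X ^ w) k.1 k.2) G := by
  refine ⟨MvPolynomial.bind₁ (fun k => ((Matrix.mvPolynomialX (Fin r) (Fin r) ℤ_[p]) ^ w) k.1 k.2) G,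
    fun X => ?_⟩
  rw [← MvPolynomial.coe_aeval_eq_eval, ← MvPolynomial.coe_aeval_eq_eval, RingHom.coe_coe,
    RingHom.coe_coe, MvPolynomial.aeval_bind₁]
  congr 2
  funext k
  have h1 : (X ^ w : Matrix (Fin r) (Fin r) ℤ_[p]) =
      (MvPolynomial.eval fun k : Fin r × Fin r => X k.1 k.2).mapMatrix
        ((Matrix.mvPolynomialX (Fin r) (Fin r) ℤ_[p]) ^ w) := by
    rw [map_pow, Matrix.mvPolynomialX_mapMatrix_eval]
  rw [h1, RingHom.mapMatrix_apply, Matrix.map_apply]
  rfl

theorem count_cyc {P : Type*} [Group P] (σ : P →* Matrix (Fin r) (Fin r) ℤ_[p]) {A : Subgroup P}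
    [A.Normal] {z : P}
    (hgen : ∀ (M : ℕ) (x : P), ∃ k : ℕ, ∃ a ∈ A, red σ M x = red σ M (z ^ k * a)) (w : ℕ) :
    ∃ m₁ C : ℕ, ∀ n, 0 < n → ∀ m,
      (red σ m '' {x | x ∈ coset A (z ^ n) ∧
          ∃ v ∈ NN σ m₁, mu σ 1 ((x * v) ^ w) < mu σ 1 (x ^ w)}).ncard * p ^ m ≤
        C * (red σ m '' (A : Set P)).ncard := by
  have hex := fun k => exists_taylor (p := p) (r := r) 1 k
  choose G₀ hG₀ using hex
  have hex' := fun k => exists_pow (G₀ k) w
  choose G hG using hex'
  obtain ⟨m₁, C, h⟩ := count_drop_gen σ hgen (e := fun x => r - mu σ 1 (x ^ w)) (r' := r)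
    (fun x => Nat.sub_le _ _) (fun R => G (r - R)) (by
      intro R hR x hx
      have h1 := mu_le σ 1 (x ^ w)
      have h2 : (σ x) ^ w = σ (x ^ w) := (map_pow σ x w).symm
      rw [pv, PadicInt.coe_eq_zero, hG, h2, hG₀, coeff_eq_zero_iff
        (Matrix.charpoly_monic _).ne_zero (k := r - R)
        (show r - R ≤ mu σ 1 (x ^ w) by omega)]
      change r - R < mu σ 1 (x ^ w) ↔ r - mu σ 1 (x ^ w) < R
      omega) one_pos (fun x j _ => by
      have := mu_pow_le σ (l := 1) (h₀ := 1) (one_pow 1) (x ^ w) j ⟨(j : ℤ) - 1, by ring⟩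
      rw [← pow_mul, mul_comm w j, pow_mul] at this
      omega)
  refine ⟨m₁, C, fun n hn m => (Nat.mul_le_mul_right _ ?_).trans (h n hn m)⟩
  refine Set.ncard_le_ncard (Set.image_mono ?_) (Set.toFinite _)
  rintro x ⟨hx, v, hv, hlt⟩
  have h1 := mu_le σ 1 (x ^ w)
  exact ⟨hx, v, hv, by omega⟩

end Pool.Agent.Helper44.PS
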