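import Pool.Agent.Helper44.PS.Eig

/-!
# A function which drops only in few classes, general form (helper44)

`e` is a bounded function on `P` such that for every `R` the condition `e (x) < R` is given, where
`e (x) ≤ R`, by the vanishing of a polynomial in the entries of `σ x`, and `e (x ^ j) ≤ e (x)` for all
`j ≡ 1` modulo `h₀`.
-/

set_option autoImplicit false

namespace Pool.Agent.Helper44.PS

open Finset

variable {p : ℕ} [hp : Fact p.Prime] {P : Type*} [Group P] {r : ℕ}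

/-- The value of a polynomial in the entries of `σ x`. -/
noncomputable def pv (σ : P →* Matrix (Fin r) (Fin r) ℤ_[p])
    (G : MvPolynomial (Fin r × Fin r) ℤ_[p]) (x : P) : ℚ_[p] :=
  ((MvPolynomial.eval (fun k => σ x k.1 k.2) G : ℤ_[p]) : ℚ_[p])

theorem count_drop_gen (σ : P →* Matrix (Fin r) (Fin r) ℤ_[p]) {A : Subgroup P} [A.Normal] {z : P}
    (hgen : ∀ (M : ℕ) (x : P), ∃ k : ℕ, ∃ a ∈ A, red σ M x = red σ M (z ^ k * a))
    {e : P → ℕ} {r' : ℕ} (hle : ∀ x, e x ≤ r')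
    (G : ℕ → MvPolynomial (Fin r × Fin r) ℤ_[p])
    (hG : ∀ R ≤ r', ∀ x, e x ≤ R → (pv σ (G R) x = 0 ↔ e x < R))
    {h₀ : ℕ} (hh₀ : 0 < h₀)
    (he : ∀ (x : P) (j : ℕ), (∃ q : ℤ, (j : ℤ) = 1 + h₀ * q) → e (x ^ j) ≤ e x) :
    ∃ m₁ C : ℕ, ∀ n, 0 < n → ∀ m,
      (red σ m '' {x | x ∈ coset A (z ^ n) ∧ ∃ w ∈ NN σ m₁, e x < e (x * w)}).ncard * p ^ m ≤
        C * (red σ m '' (A : Set P)).ncard := by
  classical
  obtain ⟨m₁, h2, hm₁⟩ := exists_stab σ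
  have hnice : ∀ R, ∃ N, Nice σ N (pv σ (G R)) := by
    intro R
    obtain ⟨N, hN⟩ := nice_poly (P := P) (G R)
    exact ⟨N, hN σ⟩
  have hC : ∀ R, ∃ C : ℕ, ∀ (y : P) (m : ℕ),
      (red σ m '' zeros σ (pv σ (G R)) A y m).ncard * p ^ m ≤
        C * (red σ m '' (A : Set P)).ncard := by
    intro R
    obtain ⟨N, hN⟩ := hnice R
    exact count_classes hN (fun x => ⟨_, rfl⟩) A
  choose C hC using hC
  have hnon : ∀ {n : ℕ}, 0 < n → ∀ {y : P}, y ∈ coset A (z ^ n) → ∀ {R : ℕ}, R ≤ r' →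
      (∀ w ∈ NN σ m₁, e (y * w) ≤ R) → ∀ {w₀ : P}, w₀ ∈ NN σ m₁ → e (y * w₀) = R →
        ∀ {m : ℕ}, m₁ ≤ m → ∃ h ∈ A, h ∈ NN σ m ∧ pv σ (G R) (y * h) ≠ 0 := by
    intro n hn y hy R hRr hR w₀ hw₀ hR₀ m hm
    by_contra hcon
    push Not at hcon
    obtain ⟨N, hN⟩ := hnice R
    obtain ⟨M₀, hM₀⟩ := vanish_near hgen hn hy (h2.trans hm) hN.lip hh₀ he (R := R)
      (fun w hw => hG R hRr _ (hR w (NN_mono hm hw))) hcon
    obtain ⟨G', hG'⟩ := val_left (σ y) (G R)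
    have h3 := hm₁ M₀ G' (fun x hx => by
      rw [hG', ← map_mul]
      exact PadicInt.coe_eq_zero.1 (hM₀ x hx)) w₀ hw₀
    rw [hG', ← map_mul] at h3
    have h4 := (hG R hRr _ (hR w₀ hw₀)).1 (PadicInt.coe_eq_zero.2 h3)
    omega
  refine ⟨m₁, p ^ m₁ + ∑ R ∈ range (r' + 1), C R, fun n hn m => ?_⟩
  rcases lt_or_ge m m₁ with hm | hm
  · have h3 : (red σ m '' {x | x ∈ coset A (z ^ n) ∧ ∃ w ∈ NN σ m₁, e x < e (x * w)}).ncard ≤
        (red σ m '' (A : Set P)).ncard := by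
      rw [← card_coset A (z ^ n) m]
      exact Set.ncard_le_ncard (Set.image_mono fun x hx => hx.1) (Set.toFinite _)
    calc _ ≤ (red σ m '' (A : Set P)).ncard * p ^ m₁ :=
          Nat.mul_le_mul h3 (Nat.pow_le_pow_right hp.1.pos hm.le)
      _ ≤ _ := by
          rw [mul_comm]
          exact Nat.mul_le_mul_right _ (Nat.le_add_right _ _)
  · have hsub : red σ m '' {x | x ∈ coset A (z ^ n) ∧ ∃ w ∈ NN σ m₁, e x < e (x * w)} ⊆
        ⋃ R ∈ range (r' + 1), red σ m '' zeros σ (pv σ (G R)) A (z ^ n) m := by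
      rintro _ ⟨x, ⟨hx, w, hw, hlt⟩, rfl⟩
      have hex : ∃ R, R ≤ r' ∧ (∀ w ∈ NN σ m₁, e (x * w) ≤ R) ∧ ∃ w₀ ∈ NN σ m₁, e (x * w₀) = R := by
        let S : Finset ℕ := (range (r' + 1)).filter fun k => ∃ w ∈ NN σ m₁, e (x * w) = k
        have hS : S.Nonempty := ⟨e (x * 1), Finset.mem_filter.2
          ⟨mem_range.2 (Nat.lt_succ_of_le (hle _)), 1, (NN σ m₁).one_mem, rfl⟩⟩
        obtain ⟨h3, w₀, hw₀, h4⟩ := Finset.mem_filter.1 (S.max'_mem hS)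
        refine ⟨S.max' hS, Nat.le_of_lt_succ (mem_range.1 h3), fun w hw => ?_, w₀, hw₀, h4⟩
        exact S.le_max' _ (Finset.mem_filter.2
          ⟨mem_range.2 (Nat.lt_succ_of_le (hle _)), w, hw, rfl⟩)
      obtain ⟨R, hRr, hR, w₀, hw₀, hR₀⟩ := hex
      have h3 : e x < R := lt_of_lt_of_le hlt (hR w hw)
      obtain ⟨h, hA, hN, hne⟩ := hnon hn hx hRr hR hw₀ hR₀ hm
      refine Set.mem_biUnion (x := R) (Finset.mem_coe.2 (mem_range.2 (Nat.lt_succ_of_le hRr))) ?_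
      refine ⟨x, ⟨hx, (hG R hRr x h3.le).2 h3, h, hA, hN, hne⟩, rfl⟩
    calc _ ≤ (∑ R ∈ range (r' + 1), (red σ m '' zeros σ (pv σ (G R)) A (z ^ n) m).ncard) * p ^ m :=
          Nat.mul_le_mul_right _ ((Set.ncard_le_ncard hsub (Set.toFinite _)).trans
            (ncard_biUnion_le _ _))
      _ = ∑ R ∈ range (r' + 1), (red σ m '' zeros σ (pv σ (G R)) A (z ^ n) m).ncard * p ^ m := by
          rw [Finset.sum_mul]
      _ ≤ ∑ R ∈ range (r' + 1), C R * (red σ m '' (A : Set P)).ncard :=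
          Finset.sum_le_sum fun R _ => hC R _ m
      _ = (∑ R ∈ range (r' + 1), C R) * (red σ m '' (A : Set P)).ncard := by rw [Finset.sum_mul]
      _ ≤ _ := Nat.mul_le_mul_right _ (Nat.le_add_left _ _)

end Pool.Agent.Helper44.PS
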