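import Pool.Agent.Helper44.PS.Coset
import Pool.Agent.Helper40.ZO.Hank

/-!
# The number of eigenvalues drops only in few classes (helper44)

`ne x` is the number of different eigenvalues of `σ x`.
* `exists_stab`: polynomials vanishing on a small congruence subgroup vanish on `NN σ m₁`.
* `exists_hankel`: the Hankel determinant of the traces as a polynomial.
* `count_drop`: for all `n ≥ 1` and all `m` the elements `x` of `z ^ n A` such that `σ x` has less
  eigenvalues than some element of `x NN σ m₁` lie in at most `C p ^ (-m)` of the classes modulo `p ^ m`.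
-/

set_option autoImplicit false

namespace Pool.Agent.Helper44.PS

open Finset Pool.Agent.Helper40.ZO

variable {p : ℕ} [hp : Fact p.Prime] {P : Type*} [Group P] {r : ℕ}

section power

variable {K : Type*} [Field K]

theorem numEigM_eq (M : Mat r K) : numEigM M = (spectrum K M).ncard := by
  classical
  unfold numEigM
  rw [← Set.ncard_coe_finset]
  congr 1
  ext l
  rw [Finset.mem_coe, Multiset.mem_toFinset, Polynomial.mem_roots M.charpoly_monic.ne_zero,
    Matrix.mem_spectrum_iff_isRoot_charpoly]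

theorem finite_spectrum (M : Mat r K) : (spectrum K M).Finite := by
  classical
  refine (Finset.finite_toSet M.charpoly.roots.toFinset).subset fun l hl => ?_
  rw [Finset.mem_coe, Multiset.mem_toFinset, Polynomial.mem_roots M.charpoly_monic.ne_zero]
  exact Matrix.mem_spectrum_iff_isRoot_charpoly.1 hl

/-- Powers have at most as many eigenvalues. -/
theorem numEigM_pow_le [IsAlgClosed K] (M : Mat r K) (j : ℕ) : numEigM (M ^ j) ≤ numEigM M := by
  rw [numEigM_eq, numEigM_eq]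
  rcases Nat.eq_zero_or_pos r with rfl | hr
  · have h1 : ∀ A : Mat 0 K, spectrum K A = ∅ := by
      intro A
      have : Subsingleton (Mat 0 K) := ⟨fun a b => by ext i; exact i.elim0⟩
      exact spectrum.of_subsingleton A
    rw [h1, Set.ncard_empty]
    exact Nat.zero_le _
  · have : Nonempty (Fin r) := ⟨⟨0, hr⟩⟩
    have h1 : (spectrum K M).Nonempty := spectrum.nonempty_of_isAlgClosed_of_finiteDimensional K M
    rw [spectrum.map_pow_of_nonempty h1]
    exact Set.ncard_image_le (finite_spectrum M)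

theorem numEigM_le (M : Mat r K) : numEigM M ≤ r := by
  classical
  unfold numEigM
  calc M.charpoly.roots.toFinset.card ≤ Multiset.card M.charpoly.roots := Multiset.toFinset_card_le _
    _ ≤ M.charpoly.natDegree := Polynomial.card_roots' _
    _ = r := by rw [Matrix.charpoly_natDegree_eq_dim, Fintype.card_fin]

end power

/-- The inclusion of the `p`-adic integers. -/
noncomputable def inc (p : ℕ) [Fact p.Prime] : ℤ_[p] →+* PadicAlgCl p :=
  (algebraMap ℚ_[p] (PadicAlgCl p)).comp PadicInt.Coe.ringHom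

theorem inc_injective : Function.Injective (inc p) := by
  rw [inc, RingHom.coe_comp]
  exact (RingHom.injective _).comp Subtype.coe_injective

/-- The number of different eigenvalues of `σ x`. -/
noncomputable def ne (σ : P →* Matrix (Fin r) (Fin r) ℤ_[p]) (x : P) : ℕ :=
  numEigM ((inc p).mapMatrix (σ x))

theorem ne_pow_le (σ : P →* Matrix (Fin r) (Fin r) ℤ_[p]) (x : P) (j : ℕ) :
    ne σ (x ^ j) ≤ ne σ x := by
  unfold ne
  rw [map_pow, map_pow]
  exact numEigM_pow_le _ j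

theorem ne_le (σ : P →* Matrix (Fin r) (Fin r) ℤ_[p]) (x : P) : ne σ x ≤ r := numEigM_le _

/-- The Hankel determinant of the traces. -/
noncomputable def hk (R : ℕ) {S : Type*} [CommRing S] (X : Matrix (Fin r) (Fin r) S) : S :=
  (Matrix.of fun a b : Fin R => Matrix.trace (X ^ ((a : ℕ) + b))).det

theorem map_hk (R : ℕ) {S T : Type*} [CommRing S] [CommRing T] (φ : S →+* T)
    (X : Matrix (Fin r) (Fin r) S) : φ (hk R X) = hk R (φ.mapMatrix X) := by
  unfold hk
  rw [RingHom.map_det]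
  congr 1
  ext a b
  rw [RingHom.mapMatrix_apply, Matrix.map_apply, Matrix.of_apply, Matrix.of_apply, ← map_pow,
    RingHom.mapMatrix_apply]
  simp only [Matrix.trace, Matrix.diag_apply, map_sum, Matrix.map_apply]

theorem exists_hankel (R : ℕ) : ∃ G : MvPolynomial (Fin r × Fin r) ℤ_[p],
    ∀ X : Matrix (Fin r) (Fin r) ℤ_[p], MvPolynomial.eval (fun k => X k.1 k.2) G = hk R X := by
  refine ⟨hk R (Matrix.mvPolynomialX (Fin r) (Fin r) ℤ_[p]), fun X => ?_⟩
  rw [map_hk, Matrix.mvPolynomialX_mapMatrix_eval]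

theorem hk_eq_zero_iff {σ : P →* Matrix (Fin r) (Fin r) ℤ_[p]} {R : ℕ} {x : P} (h : ne σ x ≤ R) :
    hk R (σ x) = 0 ↔ ne σ x < R := by
  unfold ne at h ⊢
  rw [numEigM_lt_iff h]
  change _ ↔ hk R ((inc p).mapMatrix (σ x)) = 0
  rw [← map_hk, map_eq_zero_iff _ inc_injective]

/-- Left translation of polynomials. -/
theorem val_left {S : Type*} [CommRing S] (A : Matrix (Fin r) (Fin r) S)
    (f : MvPolynomial (Fin r × Fin r) S) :
    ∃ g : MvPolynomial (Fin r × Fin r) S, ∀ M : Matrix (Fin r) (Fin r) S,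
      MvPolynomial.eval (fun k => M k.1 k.2) g = MvPolynomial.eval (fun k => (A * M) k.1 k.2) f := by
  refine ⟨MvPolynomial.bind₁ (fun k => ∑ j, MvPolynomial.C (A k.1 j) *
    MvPolynomial.X (j, k.2)) f, fun M => ?_⟩
  rw [← MvPolynomial.coe_aeval_eq_eval, ← MvPolynomial.coe_aeval_eq_eval, RingHom.coe_coe,
    RingHom.coe_coe, MvPolynomial.aeval_bind₁]
  congr 2
  funext k
  simp [Matrix.mul_apply]

theorem exists_stab (σ : P →* Matrix (Fin r) (Fin r) ℤ_[p]) :
    ∃ m₁, 2 ≤ m₁ ∧ ∀ m, ∀ G : MvPolynomial (Fin r × Fin r) ℤ_[p],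
      (∀ x ∈ NN σ m, MvPolynomial.eval (fun k => σ x k.1 k.2) G = 0) →
        ∀ x ∈ NN σ m₁, MvPolynomial.eval (fun k => σ x k.1 k.2) G = 0 := by
  let J : ℕ → Ideal (MvPolynomial (Fin r × Fin r) ℤ_[p]) := fun m =>
    { carrier := {G | ∀ x ∈ NN σ m, MvPolynomial.eval (fun k => σ x k.1 k.2) G = 0}
      add_mem' := by
        intro f g hf hg x hx
        rw [map_add, hf x hx, hg x hx, add_zero]
      zero_mem' := fun x _ => map_zero _
      smul_mem' := by
        intro c f hf x hx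
        rw [smul_eq_mul, map_mul, hf x hx, mul_zero] }
  have hJ : ∀ m G, G ∈ J m ↔ ∀ x ∈ NN σ m, MvPolynomial.eval (fun k => σ x k.1 k.2) G = 0 :=
    fun m G => Iff.rfl
  let J' : ℕ →o Ideal (MvPolynomial (Fin r × Fin r) ℤ_[p]) := ⟨J, monotone_nat_of_le_succ fun m G hG =>
    (hJ _ _).2 fun x hx => (hJ _ _).1 hG x (NN_mono (Nat.le_succ m) hx)⟩
  obtain ⟨m₁, hm₁⟩ := WellFoundedGT.monotone_chain_condition J'
  refine ⟨max 2 m₁, le_max_left _ _, fun m G hG x hx => ?_⟩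
  have h1 : G ∈ J (max m m₁) := (hJ _ _).2 fun x hx => hG x (NN_mono (le_max_left _ _) hx)
  have h2 : J m₁ = J (max m m₁) := hm₁ _ (le_max_right _ _)
  rw [← h2] at h1
  exact (hJ _ _).1 h1 x (NN_mono (le_max_right _ _) hx)

/-- The Hankel determinant as a function on `P`. -/
noncomputable def hkf (σ : P →* Matrix (Fin r) (Fin r) ℤ_[p]) (R : ℕ) (x : P) : ℚ_[p] :=
  ((hk R (σ x) : ℤ_[p]) : ℚ_[p])

theorem hkf_nice (σ : P →* Matrix (Fin r) (Fin r) ℤ_[p]) (R : ℕ) :
    ∃ N, Nice σ N (hkf σ R) := by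
  obtain ⟨G, hG⟩ := exists_hankel (p := p) (r := r) R
  obtain ⟨N, hN⟩ := nice_poly (P := P) G
  refine ⟨N, ?_⟩
  have h1 := hN σ
  simp only [hG] at h1
  exact h1

theorem hkf_eq_zero_iff {σ : P →* Matrix (Fin r) (Fin r) ℤ_[p]} {R : ℕ} {x : P} (h : ne σ x ≤ R) :
    hkf σ R x = 0 ↔ ne σ x < R := by
  rw [← hk_eq_zero_iff h, hkf]
  exact PadicInt.coe_eq_zero

theorem nonvanish (σ : P →* Matrix (Fin r) (Fin r) ℤ_[p]) {A : Subgroup P} [A.Normal] {z : P}
    (hgen : ∀ (M : ℕ) (x : P), ∃ k : ℕ, ∃ a ∈ A, red σ M x = red σ M (z ^ k * a))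
    {m₁ : ℕ} (h2 : 2 ≤ m₁) (hm₁ : ∀ m, ∀ G : MvPolynomial (Fin r × Fin r) ℤ_[p],
      (∀ x ∈ NN σ m, MvPolynomial.eval (fun k => σ x k.1 k.2) G = 0) →
        ∀ x ∈ NN σ m₁, MvPolynomial.eval (fun k => σ x k.1 k.2) G = 0)
    {n : ℕ} (hn : 0 < n) {y : P} (hy : y ∈ coset A (z ^ n)) {R : ℕ}
    (hR : ∀ w ∈ NN σ m₁, ne σ (y * w) ≤ R) {w₀ : P} (hw₀ : w₀ ∈ NN σ m₁) (hR₀ : ne σ (y * w₀) = R)
    {m : ℕ} (hm : m₁ ≤ m) : ∃ h ∈ A, h ∈ NN σ m ∧ hkf σ R (y * h) ≠ 0 := by
  by_contra hcon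
  push Not at hcon
  obtain ⟨N, hN⟩ := hkf_nice σ R
  obtain ⟨M₀, hM₀⟩ := vanish_near hgen hn hy (h2.trans hm) hN.lip one_pos
    (fun x j _ => ne_pow_le σ x j) (R := R)
    (fun w hw => hkf_eq_zero_iff (hR w (NN_mono hm hw))) hcon
  obtain ⟨G, hG⟩ := exists_hankel (p := p) (r := r) R
  obtain ⟨G', hG'⟩ := val_left (σ y) G
  have h3 := hm₁ M₀ G' (fun x hx => by
    rw [hG', hG, ← map_mul]
    exact PadicInt.coe_eq_zero.1 (hM₀ x hx)) w₀ hw₀
  rw [hG', hG, ← map_mul] at h3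
  have h4 := (hk_eq_zero_iff (hR w₀ hw₀)).1 h3
  omega

/-- **The number of eigenvalues drops only in few classes.** -/
theorem count_drop (σ : P →* Matrix (Fin r) (Fin r) ℤ_[p]) {A : Subgroup P} [A.Normal] {z : P}
    (hgen : ∀ (M : ℕ) (x : P), ∃ k : ℕ, ∃ a ∈ A, red σ M x = red σ M (z ^ k * a)) :
    ∃ m₁ C : ℕ, ∀ n, 0 < n → ∀ m,
      (red σ m '' {x | x ∈ coset A (z ^ n) ∧ ∃ w ∈ NN σ m₁, ne σ x < ne σ (x * w)}).ncard * p ^ m ≤
        C * (red σ m '' (A : Set P)).ncard := by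
  classical
  obtain ⟨m₁, h2, hm₁⟩ := exists_stab σ
  have hC : ∀ R, ∃ C : ℕ, ∀ (y : P) (m : ℕ),
      (red σ m '' zeros σ (hkf σ R) A y m).ncard * p ^ m ≤ C * (red σ m '' (A : Set P)).ncard := by
    intro R
    obtain ⟨N, hN⟩ := hkf_nice σ R
    exact count_classes hN (fun x => ⟨_, rfl⟩) A
  choose C hC using hC
  refine ⟨m₁, p ^ m₁ + ∑ R ∈ range (r + 1), C R, fun n hn m => ?_⟩
  rcases lt_or_ge m m₁ with hm | hm
  · have h3 : (red σ m '' {x | x ∈ coset A (z ^ n) ∧ ∃ w ∈ NN σ m₁, ne σ x < ne σ (x * w)}).ncard ≤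
        (red σ m '' (A : Set P)).ncard := by
      rw [← card_coset A (z ^ n) m]
      exact Set.ncard_le_ncard (Set.image_mono fun x hx => hx.1) (Set.toFinite _)
    calc _ ≤ (red σ m '' (A : Set P)).ncard * p ^ m₁ :=
          Nat.mul_le_mul h3 (Nat.pow_le_pow_right hp.1.pos hm.le)
      _ ≤ _ := by
          rw [mul_comm]
          exact Nat.mul_le_mul_right _ (Nat.le_add_right _ _)
  · have hsub : red σ m '' {x | x ∈ coset A (z ^ n) ∧ ∃ w ∈ NN σ m₁, ne σ x < ne σ (x * w)} ⊆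
        ⋃ R ∈ range (r + 1), red σ m '' zeros σ (hkf σ R) A (z ^ n) m := by
      rintro _ ⟨x, ⟨hx, w, hw, hlt⟩, rfl⟩
      -- the maximal number of eigenvalues
      have hex : ∃ R, R ≤ r ∧ (∀ w ∈ NN σ m₁, ne σ (x * w) ≤ R) ∧
          ∃ w₀ ∈ NN σ m₁, ne σ (x * w₀) = R := by
        let S : Finset ℕ := (range (r + 1)).filter fun k => ∃ w ∈ NN σ m₁, ne σ (x * w) = k
        have hS : S.Nonempty := ⟨ne σ (x * 1), Finset.mem_filter.2
          ⟨mem_range.2 (Nat.lt_succ_of_le (ne_le σ _)), 1, (NN σ m₁).one_mem, rfl⟩⟩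
        obtain ⟨h3, w₀, hw₀, h4⟩ := Finset.mem_filter.1 (S.max'_mem hS)
        refine ⟨S.max' hS, Nat.le_of_lt_succ (mem_range.1 h3), fun w hw => ?_, w₀, hw₀, h4⟩
        exact S.le_max' _ (Finset.mem_filter.2
          ⟨mem_range.2 (Nat.lt_succ_of_le (ne_le σ _)), w, hw, rfl⟩)
      obtain ⟨R, hRr, hR, w₀, hw₀, hR₀⟩ := hex
      have h3 : ne σ x < R := lt_of_lt_of_le hlt (hR w hw)
      obtain ⟨h, hA, hN, hne⟩ := nonvanish σ hgen h2 hm₁ hn hx hR hw₀ hR₀ hm
      refine Set.mem_biUnion (x := R) (Finset.mem_coe.2 (mem_range.2 (Nat.lt_succ_of_le hRr))) ?_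
      refine ⟨x, ⟨hx, (hkf_eq_zero_iff h3.le).2 h3, h, hA, hN, hne⟩, rfl⟩
    calc _ ≤ (∑ R ∈ range (r + 1), (red σ m '' zeros σ (hkf σ R) A (z ^ n) m).ncard) * p ^ m :=
          Nat.mul_le_mul_right _ ((Set.ncard_le_ncard hsub (Set.toFinite _)).trans
            (ncard_biUnion_le _ _))
      _ = ∑ R ∈ range (r + 1), (red σ m '' zeros σ (hkf σ R) A (z ^ n) m).ncard * p ^ m := by
          rw [Finset.sum_mul]
      _ ≤ ∑ R ∈ range (r + 1), C R * (red σ m '' (A : Set P)).ncard :=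
          Finset.sum_le_sum fun R _ => hC R _ m
      _ = (∑ R ∈ range (r + 1), C R) * (red σ m '' (A : Set P)).ncard := by rw [Finset.sum_mul]
      _ ≤ _ := Nat.mul_le_mul_right _ (Nat.le_add_left _ _)

end Pool.Agent.Helper44.PS
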