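import Pool.Agent.Helper44.PS.Eig
import Pool.Agent.Helper40.CS.Zero

/-!
# Linear saving for the elements which are not semisimple (helper44)
-/

set_option autoImplicit false

namespace Pool.Agent.Helper44.PS

open Polynomial Pool.Agent.Helper40.ZO Pool.Agent.Helper40.CS

variable {p : ℕ} [hp : Fact p.Prime] {r : ℕ}

section top

variable {P : Type*} [Group P] [TopologicalSpace P] [IsTopologicalGroup P]

theorem toZModPow_eq_zero_iff_norm (m : ℕ) (y : ℤ_[p]) :
    PadicInt.toZModPow m y = 0 ↔ ‖y‖ < (p : ℝ) ^ (-(m : ℤ) + 1) := by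
  rw [← PadicInt.norm_le_pow_iff_norm_lt_pow_add_one, PadicInt.norm_le_pow_iff_mem_span_pow,
    ← PadicInt.ker_toZModPow, RingHom.mem_ker]

theorem isOpen_NN {σ : P →* Matrix (Fin r) (Fin r) ℤ_[p]} (hσ : Continuous σ) (m : ℕ) :
    IsOpen (NN σ m : Set P) := by
  have h1 : (NN σ m : Set P) = ⋂ i : Fin r, ⋂ j : Fin r,
      {x | ‖σ x i j - (1 : Matrix (Fin r) (Fin r) ℤ_[p]) i j‖ < (p : ℝ) ^ (-(m : ℤ) + 1)} := by
    ext x
    rw [SetLike.mem_coe, NN, MonoidHom.mem_ker, red_apply]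
    simp only [Set.mem_iInter, Set.mem_setOf_eq, ← toZModPow_eq_zero_iff_norm, map_sub, sub_eq_zero]
    constructor
    · intro h i j
      have h2 := congrFun (congrFun h i) j
      rw [Matrix.map_apply] at h2
      rw [h2]
      by_cases hij : i = j
      · subst hij
        rw [Matrix.one_apply_eq, Matrix.one_apply_eq, map_one]
      · rw [Matrix.one_apply_ne hij, Matrix.one_apply_ne hij, map_zero]
    · intro h
      ext i j
      rw [Matrix.map_apply, h i j]
      by_cases hij : i = j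
      · subst hij
        rw [Matrix.one_apply_eq, Matrix.one_apply_eq, map_one]
      · rw [Matrix.one_apply_ne hij, Matrix.one_apply_ne hij, map_zero]
  rw [h1]
  refine isOpen_iInter_of_finite fun i => isOpen_iInter_of_finite fun j => ?_
  refine isOpen_lt (Continuous.norm ((hσ.matrix_elem i j).sub continuous_const)) continuous_const

/-- `A` and `z` generate `P` modulo `NN σ M`. -/
theorem exists_gen_mod {σ : P →* Matrix (Fin r) (Fin r) ℤ_[p]} (hσ : Continuous σ) {A : Subgroup P}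
    [A.Normal] {z : P} (hgen : (A ⊔ Subgroup.zpowers z).topologicalClosure = ⊤) (M : ℕ) (x : P) :
    ∃ k : ℕ, ∃ a ∈ A, red σ M x = red σ M (z ^ k * a) := by
  have h1 : Dense ((A ⊔ Subgroup.zpowers z : Subgroup P) : Set P) := by
    rw [dense_iff_closure_eq, ← Subgroup.topologicalClosure_coe, hgen, Subgroup.coe_top]
  have h2 : IsOpen {w : P | x⁻¹ * w ∈ NN σ M} :=
    (isOpen_NN hσ M).preimage (continuous_const.mul continuous_id)
  obtain ⟨b, hb1, hb2⟩ := h1.inter_open_nonempty _ h2 ⟨x, by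
    change x⁻¹ * x ∈ NN σ M
    rw [inv_mul_cancel]
    exact (NN σ M).one_mem⟩
  rw [sup_comm, SetLike.mem_coe, Subgroup.mem_sup_of_normal_right] at hb2
  obtain ⟨_, ⟨k, rfl⟩, a, ha, rfl⟩ := hb2
  obtain ⟨E, hE0, hE⟩ := exists_pow_mem σ M
  have hn : (NN σ M).Normal := MonoidHom.normal_ker _
  refine ⟨(k + E * |k|).toNat, a, ha, ?_⟩
  have h3 : (((k + E * |k|).toNat : ℕ) : ℤ) = k + E * |k| := by
    refine Int.toNat_of_nonneg ?_
    have h4 : (1 : ℤ) ≤ E := by exact_mod_cast hE0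
    have h5 : 0 ≤ |k| := abs_nonneg k
    have h6 : -|k| ≤ k := neg_abs_le k
    nlinarith
  rw [red_eq_iff]
  have h7 : (z ^ k * a)⁻¹ * x ∈ NN σ M := by
    have h8 : x⁻¹ * (z ^ k * a) ∈ NN σ M := hb1
    have h9 := (NN σ M).inv_mem h8
    rwa [mul_inv_rev, inv_inv] at h9
  rw [← QuotientGroup.eq] at h7 ⊢
  rw [← h7, QuotientGroup.mk_mul, QuotientGroup.mk_mul]
  congr 1
  rw [← zpow_natCast, h3, QuotientGroup.mk_zpow, QuotientGroup.mk_zpow, zpow_add, zpow_mul,
    zpow_natCast]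
  have h10 : ((z : P ⧸ NN σ M)) ^ E = 1 := by
    rw [← QuotientGroup.mk_pow, QuotientGroup.eq_one_iff]
    exact hE z
  rw [h10, one_zpow, mul_one]

end top

theorem ne_eq_card {E P : Type*} [Field E] [Algebra E ℚ_[p]] [Group P]
    (σ : P →* Matrix (Fin r) (Fin r) ℤ_[p]) {q : E[X]} {x : P}
    (h : (σ x).charpoly.map PadicInt.Coe.ringHom = q.map (algebraMap E ℚ_[p]))
    {L W : Type*} [Field L] [Algebra E L] [IsAlgClosed L] [AddCommGroup W] [Module L W]
    [FiniteDimensional L W] {T : Module.End L W} (hT : T.charpoly = q.map (algebraMap E L)) :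
    numEig T = ne σ x := by
  classical
  letI : Algebra E (PadicAlgCl p) :=
    ((algebraMap ℚ_[p] (PadicAlgCl p)).comp (algebraMap E ℚ_[p])).toAlgebra
  have h1 : ((inc p).mapMatrix (σ x)).charpoly = q.map (algebraMap E (PadicAlgCl p)) := by
    rw [RingHom.mapMatrix_apply, Matrix.charpoly_map, inc, ← Polynomial.map_map, h,
      Polynomial.map_map]
    rfl
  unfold numEig ne numEigM
  rw [hT, h1]
  exact card_roots_eq (K := L) (K' := PadicAlgCl p) q

/-- Elements which are not semisimple have less eigenvalues than some element of their class. -/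
theorem drop_of_not_semisimple {I E P : Type*} {K V : I → Type*} [Field E] [∀ i, Field (K i)]
    [∀ i, Algebra E (K i)] [∀ i, IsAlgClosed (K i)] [∀ i, CharZero (K i)]
    [∀ i, TopologicalSpace (K i)] [∀ i, IsTopologicalRing (K i)] [∀ i, T2Space (K i)]
    [∀ i, AddCommGroup (V i)] [∀ i, Module (K i) (V i)] [∀ i, FiniteDimensional (K i) (V i)]
    [Group P] [TopologicalSpace P] [IsTopologicalGroup P] [CompactSpace P]
    [TotallyDisconnectedSpace P] (ρ : ∀ i, P →* Module.End (K i) (V i))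
    (hρ : ∀ (i : I) (v : V i) (f : Module.Dual (K i) (V i)), Continuous fun x => f (ρ i x v))
    {Fr : Set P} (hFr : Dense Fr) (poly : P → E[X])
    (hcomp : ∀ x ∈ Fr, ∀ i, (ρ i x).charpoly = (poly x).map (algebraMap E (K i)))
    (hss : ∀ i, ActsSemisimply (ρ i '' (Set.univ : Set P)))
    [Algebra E ℚ_[p]] (σ : P →* Matrix (Fin r) (Fin r) ℤ_[p]) (hσ : Continuous σ)
    (hcomp' : ∀ x ∈ Fr,
      (σ x).charpoly.map PadicInt.Coe.ringHom = (poly x).map (algebraMap E ℚ_[p]))
    {x : P} (hx : x ∈ Fr) {i : I} (hns : ¬ (ρ i x).IsSemisimple) (m : ℕ) :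
    ∃ w ∈ NN σ m, ne σ x < ne σ (x * w) := by
  by_contra hcon
  push Not at hcon
  have hn : (NN σ m).Normal := MonoidHom.normal_ker _
  have ho := isOpen_NN hσ m
  refine hns (criterion_open (ρ i) (hρ i) (hss i) (B := NN σ m) ?_ ?_)
  · exact Subgroup.isOpen_mono (le_sup_left.trans (Subgroup.le_topologicalClosure _)) ho
  · intro γ hγ
    by_contra hlt
    push Not at hlt
    obtain ⟨U, hU, hγU, hUle⟩ := numEig_open (ρ i) (hρ i) (γ * x)
    have hO : IsOpen (U ∩ {z | z * x⁻¹ ∈ NN σ m}) :=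
      hU.inter (ho.preimage (continuous_id.mul continuous_const))
    obtain ⟨z, ⟨hzU, hzΓ⟩, hzFr⟩ := hFr.inter_open_nonempty _ hO ⟨γ * x, hγU, by
      rw [Set.mem_setOf_eq, mul_inv_cancel_right]
      exact hγ⟩
    have h1 := hUle z hzU
    have h2 := hcon (x⁻¹ * z) (by
      have := hn.conj_mem _ hzΓ x⁻¹
      rwa [inv_inv, mul_assoc, inv_mul_cancel_right] at this)
    rw [mul_inv_cancel_left] at h2
    have h3 := ne_eq_card σ (hcomp' z hzFr) (hcomp z hzFr i)
    have h4 := ne_eq_card σ (hcomp' x hx) (hcomp x hx i)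
    omega

/-- **Linear saving.** -/
theorem linear_saving {I E P : Type*} {K V : I → Type*} [Field E] [∀ i, Field (K i)]
    [∀ i, Algebra E (K i)] [∀ i, IsAlgClosed (K i)] [∀ i, CharZero (K i)]
    [∀ i, TopologicalSpace (K i)] [∀ i, IsTopologicalRing (K i)] [∀ i, T2Space (K i)]
    [∀ i, AddCommGroup (V i)] [∀ i, Module (K i) (V i)] [∀ i, FiniteDimensional (K i) (V i)]
    [Group P] [TopologicalSpace P] [IsTopologicalGroup P] [CompactSpace P]
    [TotallyDisconnectedSpace P] (ρ : ∀ i, P →* Module.End (K i) (V i))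
    (hρ : ∀ (i : I) (v : V i) (f : Module.Dual (K i) (V i)), Continuous fun x => f (ρ i x v))
    {Fr : Set P} (hFr : Dense Fr) (poly : P → E[X])
    (hcomp : ∀ x ∈ Fr, ∀ i, (ρ i x).charpoly = (poly x).map (algebraMap E (K i)))
    (hss : ∀ i, ActsSemisimply (ρ i '' (Set.univ : Set P)))
    [Algebra E ℚ_[p]] (σ : P →* Matrix (Fin r) (Fin r) ℤ_[p]) (hσ : Continuous σ)
    (hcomp' : ∀ x ∈ Fr,
      (σ x).charpoly.map PadicInt.Coe.ringHom = (poly x).map (algebraMap E ℚ_[p]))
    {A : Subgroup P} [A.Normal] {z : P}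
    (hgen : (A ⊔ Subgroup.zpowers z).topologicalClosure = ⊤) :
    ∃ C : ℕ, ∀ n, 0 < n → ∀ m,
      (red σ m '' {x | x ∈ Fr ∧ x ∈ coset A (z ^ n) ∧ ∃ i, ¬ (ρ i x).IsSemisimple}).ncard * p ^ m ≤
        C * (red σ m '' (A : Set P)).ncard := by
  obtain ⟨m₁, C, hC⟩ := count_drop σ (A := A) (z := z) (fun M x => exists_gen_mod hσ hgen M x)
  refine ⟨C, fun n hn m => (Nat.mul_le_mul_right _ ?_).trans (hC n hn m)⟩
  refine Set.ncard_le_ncard (Set.image_mono ?_) (Set.toFinite _)
  rintro x ⟨hx, hxz, i, hns⟩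
  exact ⟨hxz, drop_of_not_semisimple ρ hρ hFr poly hcomp hss σ hσ hcomp' hx hns m₁⟩

end Pool.Agent.Helper44.PS
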