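import Pool.Agent.Helper44.PS.Nice

/-!
# Powers generate the small congruence subgroups (helper44)

`A_m = A ∩ NN σ m`.  There are `m₀ ≥ 2` and a finite set `U ⊆ A_{m₀}` such that for all `m ≥ m₀` every
element of `A_m` is congruent to some `u ^ (p ^ (m - m₀))`, `u ∈ U`, modulo `A_{m+1}`.
-/

set_option autoImplicit false

namespace Pool.Agent.Helper44.PS

open Matrix Finset

variable {p : ℕ} [hp : Fact p.Prime] {P : Type*} [Group P] {r : ℕ}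

/-- `(1 + p ^ m Y) ^ p = 1 + p ^ (m + 1) (Y + p Z)` for `m ≥ 2`. -/
theorem one_add_pow_p (m : ℕ) (hm : 2 ≤ m) (Y : Matrix (Fin r) (Fin r) ℤ_[p]) :
    ∃ Z : Matrix (Fin r) (Fin r) ℤ_[p], (1 + (p : ℤ_[p]) ^ m • Y) ^ p =
      1 + (p : ℤ_[p]) ^ (m + 1) • (Y + (p : ℤ_[p]) • Z) := by
  have hp2 := hp.1.two_le
  have h1 : (1 + (p : ℤ_[p]) ^ m • Y) ^ p = ∑ j ∈ range (p + 1),
      ((p.choose j : ℤ_[p]) * (p : ℤ_[p]) ^ (m * j)) • Y ^ j := by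
    rw [add_comm, (Commute.one_right ((p : ℤ_[p]) ^ m • Y)).add_pow]
    refine Finset.sum_congr rfl fun j _ => ?_
    have h5 : ∀ (A : Matrix (Fin r) (Fin r) ℤ_[p]) (k : ℕ),
        A * (k : Matrix (Fin r) (Fin r) ℤ_[p]) = (k : ℤ_[p]) • A := by
      intro A k
      rw [← nsmul_eq_mul', Nat.cast_smul_eq_nsmul]
    rw [one_pow, mul_one, h5, smul_pow, smul_smul, pow_mul]
  obtain ⟨q, rfl⟩ : ∃ q, p = q + 2 := ⟨p - 2, by omega⟩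
  rw [h1, sum_range_succ', sum_range_succ']
  simp only [Nat.choose_zero_right, Nat.cast_one, mul_zero, pow_zero, one_smul, zero_add,
    Nat.choose_one_right, mul_one, pow_one]
  have h2 : ∀ j : ℕ, ∃ c : ℤ_[q + 2], (((q + 2).choose (j + 1 + 1) : ℕ) : ℤ_[q + 2]) *
      ((q + 2 : ℕ) : ℤ_[q + 2]) ^ (m * (j + 1 + 1)) = ((q + 2 : ℕ) : ℤ_[q + 2]) ^ (m + 2) * c := by
    intro j
    refine ⟨(((q + 2).choose (j + 1 + 1) : ℕ) : ℤ_[q + 2]) *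
      ((q + 2 : ℕ) : ℤ_[q + 2]) ^ (m * (j + 1 + 1) - (m + 2)), ?_⟩
    have h3 : m * (j + 1 + 1) = (m + 2) + (m * (j + 1 + 1) - (m + 2)) := by
      have : m + 2 ≤ m * (j + 1 + 1) := by nlinarith
      omega
    conv_lhs => rw [h3, pow_add]
    ring
  choose c hc using h2
  refine ⟨∑ j ∈ range (q + 1), c j • Y ^ (j + 1 + 1), ?_⟩
  rw [smul_add, smul_smul, ← pow_succ, Finset.smul_sum]
  have h4 : ∑ k ∈ range (q + 1), (((((q + 2).choose (k + 1 + 1) : ℕ) : ℤ_[q + 2])) *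
      ((q + 2 : ℕ) : ℤ_[q + 2]) ^ (m * (k + 1 + 1))) • Y ^ (k + 1 + 1) =
      ∑ i ∈ range (q + 1), ((q + 2 : ℕ) : ℤ_[q + 2]) ^ (m + 1 + 1) • c i • Y ^ (i + 1 + 1) := by
    refine Finset.sum_congr rfl fun j _ => ?_
    rw [hc, smul_smul]
  rw [h4, pow_succ' _ m]
  abel

theorem one_add_pow_pow (k m : ℕ) (hm : 2 ≤ m) (Y : Matrix (Fin r) (Fin r) ℤ_[p]) :
    ∃ Z : Matrix (Fin r) (Fin r) ℤ_[p], (1 + (p : ℤ_[p]) ^ m • Y) ^ p ^ k =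
      1 + (p : ℤ_[p]) ^ (m + k) • (Y + (p : ℤ_[p]) • Z) := by
  induction k with
  | zero => exact ⟨0, by simp⟩
  | succ k ih =>
    obtain ⟨Z, hZ⟩ := ih
    obtain ⟨W, hW⟩ := one_add_pow_p (m + k) (by omega) (Y + (p : ℤ_[p]) • Z)
    refine ⟨Z + W, ?_⟩
    rw [pow_succ, pow_mul, hZ, hW, smul_add (p : ℤ_[p]) Z W, ← add_assoc Y]
    rfl

/-- Powers of the elements. -/
theorem pow_mem_NN {σ : P →* Matrix (Fin r) (Fin r) ℤ_[p]} {m : ℕ} (hm : 2 ≤ m) {x : P}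
    (hx : x ∈ NN σ m) (k : ℕ) : x ^ p ^ k ∈ NN σ (m + k) := by
  obtain ⟨Y, hY⟩ := mem_NN.1 hx
  obtain ⟨Z, hZ⟩ := one_add_pow_pow k m hm Y
  exact mem_NN.2 ⟨_, by rw [map_pow, hY, hZ]⟩

/-- The finite set generating the small subgroups. -/
theorem exists_gen (σ : P →* Matrix (Fin r) (Fin r) ℤ_[p]) (A : Subgroup P) :
    ∃ (m₀ : ℕ) (U : Finset P), 2 ≤ m₀ ∧ (∀ u ∈ U, u ∈ A ∧ u ∈ NN σ m₀) ∧
      ∀ m, m₀ ≤ m → ∀ h ∈ A, h ∈ NN σ m → ∃ u ∈ U, (u ^ p ^ (m - m₀))⁻¹ * h ∈ NN σ (m + 1) := by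
  classical
  let F := Matrix (Fin r) (Fin r) (ZMod p)
  let q : Matrix (Fin r) (Fin r) ℤ_[p] → F := fun Y => Y.map (PadicInt.toZMod)
  have hq : ∀ Y Z : Matrix (Fin r) (Fin r) ℤ_[p], q (Y + (p : ℤ_[p]) • Z) = q Y := by
    intro Y Z
    ext i j
    simp [q]
  have hq' : ∀ Y Z : Matrix (Fin r) (Fin r) ℤ_[p], q Y = q Z → ∃ W, Y = Z + (p : ℤ_[p]) • W := by
    intro Y Z h
    have h1 : ∀ i j, ∃ w, Y i j - Z i j = (p : ℤ_[p]) * w := by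
      intro i j
      have h2 : PadicInt.toZMod (Y i j - Z i j) = 0 := by
        rw [map_sub, sub_eq_zero]
        exact congrFun (congrFun h i) j
      rw [← RingHom.mem_ker, PadicInt.ker_toZMod, PadicInt.maximalIdeal_eq_span_p,
        Ideal.mem_span_singleton] at h2
      exact h2
    choose W hW using h1
    refine ⟨Matrix.of W, ?_⟩
    ext i j
    rw [Matrix.add_apply, Matrix.smul_apply, Matrix.of_apply, smul_eq_mul, ← hW i j]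
    ring
  let gr : ℕ → Set F := fun m => {M | ∃ h ∈ A, ∃ Y, σ h = 1 + (p : ℤ_[p]) ^ m • Y ∧ q Y = M}
  have hmono : ∀ m, 2 ≤ m → gr m ⊆ gr (m + 1) := by
    rintro m hm M ⟨h, hA, Y, hY, rfl⟩
    obtain ⟨Z, hZ⟩ := one_add_pow_p m hm Y
    exact ⟨h ^ p, A.pow_mem hA p, _, by rw [map_pow, hY, hZ], hq _ _⟩
  let gr' : ℕ →o Set F := ⟨fun k => gr (k + 2), monotone_nat_of_le_succ fun k =>
    hmono (k + 2) (by omega)⟩
  obtain ⟨k₀, hk₀⟩ := WellFoundedGT.monotone_chain_condition gr'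
  have hstab : ∀ m, k₀ + 2 ≤ m → gr m = gr (k₀ + 2) := by
    intro m hm
    have := hk₀ (m - 2) (by omega)
    change gr (k₀ + 2) = gr (m - 2 + 2) at this
    rw [this]
    congr 1
    omega
  have hlift : ∀ M : F, ∃ u : P, M ∈ gr (k₀ + 2) →
      u ∈ A ∧ ∃ Y, σ u = 1 + (p : ℤ_[p]) ^ (k₀ + 2) • Y ∧ q Y = M := by
    intro M
    by_cases hM : M ∈ gr (k₀ + 2)
    · obtain ⟨u, hu, Y, h1, h2⟩ := hM
      exact ⟨u, fun _ => ⟨hu, Y, h1, h2⟩⟩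
    · exact ⟨1, fun h => absurd h hM⟩
  choose f hf using hlift
  refine ⟨k₀ + 2, (Finset.univ.filter fun M : F => M ∈ gr (k₀ + 2)).image f, by omega, ?_, ?_⟩
  · intro u hu
    obtain ⟨M, hM, rfl⟩ := Finset.mem_image.1 hu
    obtain ⟨h1, Y, h2, -⟩ := hf M (Finset.mem_filter.1 hM).2
    exact ⟨h1, mem_NN.2 ⟨Y, h2⟩⟩
  · intro m hm h hA hh
    obtain ⟨Y, hY⟩ := mem_NN.1 hh
    have hM : q Y ∈ gr (k₀ + 2) := by
      rw [← hstab m hm]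
      exact ⟨h, hA, Y, hY, rfl⟩
    obtain ⟨h1, Z, h2, h3⟩ := hf _ hM
    refine ⟨f (q Y), Finset.mem_image.2 ⟨_, Finset.mem_filter.2 ⟨Finset.mem_univ _, hM⟩, rfl⟩, ?_⟩
    obtain ⟨W, hW⟩ := one_add_pow_pow (m - (k₀ + 2)) (k₀ + 2) (by omega) Z
    obtain ⟨X, hX⟩ := hq' Y (Z + (p : ℤ_[p]) • W) (by rw [hq, h3])
    let w := f (q Y) ^ p ^ (m - (k₀ + 2))
    have hw : σ w = 1 + (p : ℤ_[p]) ^ m • (Z + (p : ℤ_[p]) • W) := by
      rw [map_pow, h2, hW]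
      congr 3
      omega
    have h4 : σ h = σ w + (p : ℤ_[p]) ^ (m + 1) • X := by
      rw [hw, hY, hX, smul_add _ _ ((p : ℤ_[p]) • X), smul_smul, ← pow_succ, add_assoc]
    refine mem_NN.2 ⟨σ w⁻¹ * X, ?_⟩
    change σ (w⁻¹ * h) = _
    rw [map_mul, h4, mul_add, ← map_mul, inv_mul_cancel, map_one, Matrix.mul_smul]

end Pool.Agent.Helper44.PS
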