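import Pool.Agent.Helper44.PS.Gr

/-!
# Relative Lipschitz estimate and the jump (helper44)

* `rel_lip`: if `‖g‖ ≤ B` on the class `x A_m` then `‖g (y h) - g (y)‖ ≤ p ^ (N - k) B` for `y` in the
  class and `h ∈ A_{m+k}`.
* `jump`: if `g` has a zero in a class and `B` is the maximum of `‖g‖` there then for some `u ∈ U`
  there is a subclass modulo `A_{m+N+1}` all of whose elements `y` satisfy
  `‖g (y)‖ < ‖g (y u ^ t)‖`, `t` divisible by `p ^ (m - m₀)`.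
-/

set_option autoImplicit false

namespace Pool.Agent.Helper44.PS

open Finset

variable {p : ℕ} [hp : Fact p.Prime] {P : Type*} [Group P] {r : ℕ}

/-- `U` generates the small subgroups of `A`. -/
structure Gen (σ : P →* Matrix (Fin r) (Fin r) ℤ_[p]) (A : Subgroup P) (m₀ : ℕ) (U : Finset P) :
    Prop where
  two_le : 2 ≤ m₀
  mem : ∀ u ∈ U, u ∈ A ∧ u ∈ NN σ m₀
  gen : ∀ m, m₀ ≤ m → ∀ h ∈ A, h ∈ NN σ m → ∃ u ∈ U, (u ^ p ^ (m - m₀))⁻¹ * h ∈ NN σ (m + 1)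

theorem norm_choose_mul_le (k j : ℕ) (hj : 1 ≤ j) :
    ‖(((p ^ k).choose j : ℕ) : ℚ_[p])‖ ≤ (p : ℝ) ^ (-(k : ℤ)) * (p : ℝ) ^ j := by
  have hp0 : (0 : ℝ) < p := by exact_mod_cast hp.1.pos
  obtain ⟨i, rfl⟩ : ∃ i, j = i + 1 := ⟨j - 1, by omega⟩
  obtain ⟨q, hq⟩ : ∃ q, p ^ k = q + 1 := ⟨p ^ k - 1, by
    have := pow_pos hp.1.pos k
    omega⟩
  have h1 : (q + 1) * q.choose i = (q + 1).choose (i + 1) * (i + 1) := Nat.add_one_mul_choose_eq q i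
  rw [← hq] at h1
  have h2 : ‖(((p ^ k).choose (i + 1) : ℕ) : ℚ_[p])‖ * ‖((i + 1 : ℕ) : ℚ_[p])‖ ≤
      (p : ℝ) ^ (-(k : ℤ)) := by
    rw [← norm_mul, ← Nat.cast_mul, ← h1]
    exact norm_p_pow_mul_le k _
  have h3 : (1 : ℝ) ≤ ‖((i + 1 : ℕ) : ℚ_[p])‖ * (p : ℝ) ^ (i + 1) := by
    have h4 : ((i + 1 : ℕ) : ℚ_[p]) ≠ 0 := Nat.cast_ne_zero.2 (Nat.succ_ne_zero i)
    rw [Padic.norm_eq_zpow_neg_valuation h4, Padic.valuation_natCast, zpow_neg, zpow_natCast,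
      ← div_eq_inv_mul, one_le_div (by positivity)]
    refine pow_le_pow_right₀ one_lt_p.le ?_
    have h5 : p ^ padicValNat p (i + 1) ∣ i + 1 := pow_padicValNat_dvd
    have h6 := Nat.le_of_dvd (Nat.succ_pos i) h5
    exact (Nat.lt_pow_self hp.1.one_lt (n := padicValNat p (i + 1))).le.trans h6
  calc ‖(((p ^ k).choose (i + 1) : ℕ) : ℚ_[p])‖
      ≤ ‖(((p ^ k).choose (i + 1) : ℕ) : ℚ_[p])‖ *
        (‖((i + 1 : ℕ) : ℚ_[p])‖ * (p : ℝ) ^ (i + 1)) := le_mul_of_one_le_right (norm_nonneg _) h3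
    _ = (‖(((p ^ k).choose (i + 1) : ℕ) : ℚ_[p])‖ * ‖((i + 1 : ℕ) : ℚ_[p])‖) *
        (p : ℝ) ^ (i + 1) := by ring
    _ ≤ (p : ℝ) ^ (-(k : ℤ)) * (p : ℝ) ^ (i + 1) := mul_le_mul_of_nonneg_right h2 (by positivity)

variable {σ : P →* Matrix (Fin r) (Fin r) ℤ_[p]} {N : ℕ} {g : P → ℚ_[p]}

theorem step (hg : Nice σ N g) {x v : P} (hv : v ∈ NN σ 2) {B : ℝ}
    (hB : ∀ t : ℕ, ‖g (x * v ^ t)‖ ≤ B) (k : ℕ) :
    ‖g (x * v ^ p ^ k) - g x‖ ≤ (p : ℝ) ^ N * (p : ℝ) ^ (-(k : ℤ)) * B := by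
  have hp0 : (0 : ℝ) < p := by exact_mod_cast hp.1.pos
  have hB0 : 0 ≤ B := (norm_nonneg _).trans (hB 0)
  obtain ⟨a, hR, hN⟩ := hg.newt x v hv
  have ha : ∀ j, ‖a j‖ ≤ B := fun j => newton_le hN fun t _ => hB t
  have ha' : ∀ j, ‖a j‖ * (p : ℝ) ^ j ≤ (p : ℝ) ^ N * B := by
    intro j
    rcases lt_or_ge j N with hj | hj
    · rw [mul_comm]
      exact mul_le_mul (pow_le_pow_right₀ one_lt_p.le hj.le) (ha j) (norm_nonneg _) (by positivity)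
    · have h1 := hR.dec B (fun i _ => ha i) j hj
      calc ‖a j‖ * (p : ℝ) ^ j ≤ ‖a j‖ * ((p : ℝ) ^ (2 * (j + 1 - N)) * (p : ℝ) ^ N) := by
            refine mul_le_mul_of_nonneg_left ?_ (norm_nonneg _)
            rw [← pow_add]
            exact pow_le_pow_right₀ one_lt_p.le (by omega)
        _ = (p : ℝ) ^ N * (‖a j‖ * (p : ℝ) ^ (2 * (j + 1 - N))) := by ring
        _ ≤ (p : ℝ) ^ N * B := mul_le_mul_of_nonneg_left h1 (by positivity)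
  have h2 : g (x * v ^ p ^ k) - g x =
      ∑ j ∈ range (p ^ k), (((p ^ k).choose (j + 1) : ℕ) : ℚ_[p]) * a (j + 1) := by
    have h3 := hN (p ^ k)
    have h4 := hN 0
    simp only [pow_zero, mul_one, zero_add, range_one, sum_singleton, Nat.choose_self, Nat.cast_one,
      one_mul] at h4
    simp only at h3
    rw [sum_range_succ', Nat.choose_zero_right, Nat.cast_one, one_mul] at h3
    rw [h3, h4, add_sub_cancel_right]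
  rw [h2]
  refine IsUltrametricDist.norm_sum_le_of_forall_le_of_nonneg (by positivity) fun j _ => ?_
  rw [norm_mul]
  calc ‖(((p ^ k).choose (j + 1) : ℕ) : ℚ_[p])‖ * ‖a (j + 1)‖
      ≤ ((p : ℝ) ^ (-(k : ℤ)) * (p : ℝ) ^ (j + 1)) * ‖a (j + 1)‖ :=
        mul_le_mul_of_nonneg_right (norm_choose_mul_le k (j + 1) (by omega)) (norm_nonneg _)
    _ = (p : ℝ) ^ (-(k : ℤ)) * (‖a (j + 1)‖ * (p : ℝ) ^ (j + 1)) := by ring
    _ ≤ (p : ℝ) ^ (-(k : ℤ)) * ((p : ℝ) ^ N * B) :=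
        mul_le_mul_of_nonneg_left (ha' (j + 1)) (by positivity)
    _ = (p : ℝ) ^ N * (p : ℝ) ^ (-(k : ℤ)) * B := by ring

variable {A : Subgroup P} {m₀ : ℕ} {U : Finset P}

theorem pow_gen_mem (hU : Gen σ A m₀ U) {u : P} (hu : u ∈ U) {m : ℕ} (hm : m₀ ≤ m) :
    u ^ p ^ (m - m₀) ∈ A ∧ u ^ p ^ (m - m₀) ∈ NN σ m := by
  obtain ⟨h1, h2⟩ := hU.mem u hu
  refine ⟨A.pow_mem h1 _, ?_⟩
  have h3 := pow_mem_NN hU.two_le h2 (m - m₀)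
  rwa [show m₀ + (m - m₀) = m by omega] at h3

theorem rel_lip_aux (hg : Nice σ N g) (hU : Gen σ A m₀ U) {m k : ℕ} (hm : m₀ ≤ m) {x : P} {B : ℝ}
    (hB : ∀ h ∈ A, h ∈ NN σ m → ‖g (x * h)‖ ≤ B) (s : ℕ) :
    ∀ m', m + k ≤ m' → ∀ h₁ ∈ A, h₁ ∈ NN σ m → ∀ h ∈ A, h ∈ NN σ m' →
      ‖g (x * h₁ * h) - g (x * h₁)‖ ≤
        max ((p : ℝ) ^ N * (p : ℝ) ^ (-(k : ℤ)) * B) ((p : ℝ) ^ (-((m' + s : ℕ) : ℤ))) := by
  induction s with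
  | zero =>
    intro m' _ h₁ _ _ h _ hh
    exact (hg.lip m' (x * h₁) h hh).trans (le_max_right _ _)
  | succ s ih =>
    intro m' hm' h₁ hA₁ hh₁ h hA hh
    obtain ⟨u, hu, hu'⟩ := hU.gen m' (by omega) h hA hh
    obtain ⟨w, hw⟩ : ∃ w, w = u ^ p ^ (m' - m₀) := ⟨_, rfl⟩
    obtain ⟨hwA, hwN⟩ := pow_gen_mem hU hu (show m₀ ≤ m' by omega)
    rw [← hw] at hu' hwA hwN
    -- the first step
    obtain ⟨v, hv⟩ : ∃ v, v = u ^ p ^ (m' - k - m₀) := ⟨_, rfl⟩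
    obtain ⟨hvA, hvN⟩ := pow_gen_mem hU hu (show m₀ ≤ m' - k by omega)
    rw [← hv] at hvA hvN
    have hvw : v ^ p ^ k = w := by
      rw [hv, hw, ← pow_mul, ← pow_add]
      congr 2
      omega
    have h1 : ‖g (x * h₁ * w) - g (x * h₁)‖ ≤ (p : ℝ) ^ N * (p : ℝ) ^ (-(k : ℤ)) * B := by
      rw [← hvw]
      refine step hg (NN_mono (by have := hU.two_le; omega) hvN) (fun t => ?_) k
      rw [mul_assoc]
      exact hB _ (A.mul_mem hA₁ (A.pow_mem hvA t))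
        ((NN σ m).mul_mem hh₁ ((NN σ m).pow_mem (NN_mono (by omega) hvN) t))
    have h2 := ih (m' + 1) (by omega) (h₁ * w) (A.mul_mem hA₁ hwA)
      ((NN σ m).mul_mem hh₁ (NN_mono (by omega) hwN)) (w⁻¹ * h) (A.mul_mem (A.inv_mem hwA) hA) hu'
    have h3 : x * (h₁ * w) * (w⁻¹ * h) = x * h₁ * h := by group
    rw [h3, ← mul_assoc x] at h2
    have h4 : m' + 1 + s = m' + (s + 1) := by omega
    rw [h4] at h2
    have h5 : g (x * h₁ * h) - g (x * h₁) =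
        (g (x * h₁ * h) - g (x * h₁ * w)) + (g (x * h₁ * w) - g (x * h₁)) := by ring
    rw [h5]
    exact (IsUltrametricDist.norm_add_le_max _ _).trans (max_le h2 (h1.trans (le_max_left _ _)))

theorem exists_pow_lt {c : ℝ} (hc : 0 < c) : ∃ s : ℕ, (p : ℝ) ^ (-(s : ℤ)) < c := by
  obtain ⟨s, hs⟩ := exists_pow_lt_of_lt_one hc (inv_lt_one_of_one_lt₀ (one_lt_p (p := p)))
  refine ⟨s, ?_⟩
  rwa [zpow_neg, zpow_natCast, ← inv_pow]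

theorem zpow_neg_anti {m n : ℕ} (h : m ≤ n) : (p : ℝ) ^ (-(n : ℤ)) ≤ (p : ℝ) ^ (-(m : ℤ)) :=
  zpow_le_zpow_right₀ one_lt_p.le (by omega)

/-- The relative Lipschitz estimate. -/
theorem rel_lip (hg : Nice σ N g) (hU : Gen σ A m₀ U) {m k : ℕ} (hm : m₀ ≤ m) {x : P} {B : ℝ}
    (hB : ∀ h ∈ A, h ∈ NN σ m → ‖g (x * h)‖ ≤ B) {h₁ h : P} (hA₁ : h₁ ∈ A) (hh₁ : h₁ ∈ NN σ m)
    (hA : h ∈ A) (hh : h ∈ NN σ (m + k)) :
    ‖g (x * h₁ * h) - g (x * h₁)‖ ≤ (p : ℝ) ^ N * (p : ℝ) ^ (-(k : ℤ)) * B := by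
  have hp0 : (0 : ℝ) < p := by exact_mod_cast hp.1.pos
  have hB0 : 0 ≤ B := (norm_nonneg _).trans (hB 1 A.one_mem (NN σ m).one_mem)
  by_contra hcon
  push Not at hcon
  have h0 : 0 < ‖g (x * h₁ * h) - g (x * h₁)‖ := lt_of_le_of_lt (by positivity) hcon
  obtain ⟨s, hs⟩ := exists_pow_lt (p := p) h0
  have h1 := rel_lip_aux hg hU hm hB s (m + k) le_rfl h₁ hA₁ hh₁ h hA hh
  have h2 := zpow_neg_anti (p := p) (show s ≤ m + k + s by omega)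
  rcases le_max_iff.1 h1 with h3 | h3
  · linarith
  · linarith

theorem jump_aux (hg : Nice σ N g) (hU : Gen σ A m₀ U) {m : ℕ} (hm : m₀ ≤ m) {x : P} {B : ℝ}
    (hB : ∀ h ∈ A, h ∈ NN σ m → ‖g (x * h)‖ ≤ B) (s : ℕ) :
    ∀ m', m ≤ m' → (p : ℝ) ^ (-((m' + s : ℕ) : ℤ)) < B → ∀ h₁ ∈ A, h₁ ∈ NN σ m → ∀ h ∈ A,
      h ∈ NN σ m' → ‖g (x * h₁)‖ < B → ‖g (x * h₁ * h)‖ = B →
        ∃ u ∈ U, ∃ j, ∃ h₂ ∈ A, h₂ ∈ NN σ m ∧ ‖g (x * h₂)‖ < B ∧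
          ‖g (x * h₂ * u ^ p ^ (m + j - m₀))‖ = B := by
  induction s with
  | zero =>
    intro m' _ hlt h₁ _ _ h _ hh h1 h2
    exfalso
    have h3 := hg.lip m' (x * h₁) h hh
    have h4 : g (x * h₁ * h) = (g (x * h₁ * h) - g (x * h₁)) + g (x * h₁) := by ring
    have h5 : ‖g (x * h₁ * h)‖ < B := by
      rw [h4]
      exact lt_of_le_of_lt (IsUltrametricDist.norm_add_le_max _ _)
        (max_lt (lt_of_le_of_lt h3 (by simpa using hlt)) h1)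
    exact absurd h2 h5.ne
  | succ s ih =>
    intro m' hm' hlt h₁ hA₁ hh₁ h hA hh h1 h2
    obtain ⟨u, hu, hu'⟩ := hU.gen m' (by omega) h hA hh
    obtain ⟨w, hw⟩ : ∃ w, w = u ^ p ^ (m' - m₀) := ⟨_, rfl⟩
    obtain ⟨hwA, hwN⟩ := pow_gen_mem hU hu (show m₀ ≤ m' by omega)
    rw [← hw] at hu' hwA hwN
    have hw1 : h₁ * w ∈ NN σ m := (NN σ m).mul_mem hh₁ (NN_mono (by omega) hwN)
    have hw2 : ‖g (x * (h₁ * w))‖ ≤ B := hB _ (A.mul_mem hA₁ hwA) hw1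
    rcases lt_or_eq_of_le hw2 with h3 | h3
    · have h4 : m' + 1 + s = m' + (s + 1) := by omega
      refine ih (m' + 1) (by omega) (by rw [h4]; exact hlt) (h₁ * w) (A.mul_mem hA₁ hwA) hw1
        (w⁻¹ * h) (A.mul_mem (A.inv_mem hwA) hA) hu' h3 ?_
      rw [show x * (h₁ * w) * (w⁻¹ * h) = x * h₁ * h by group]
      exact h2
    · refine ⟨u, hu, m' - m, h₁, hA₁, hh₁, h1, ?_⟩
      rw [show m + (m' - m) - m₀ = m' - m₀ by omega, ← hw, mul_assoc]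
      exact h3

/-- **The jump.** -/
theorem jump (hg : Nice σ N g) (hU : Gen σ A m₀ U) {m : ℕ} (hm : m₀ ≤ m) {x : P} {B : ℝ}
    (hB0 : 0 < B) (hB : ∀ h ∈ A, h ∈ NN σ m → ‖g (x * h)‖ ≤ B) (hx : ‖g x‖ < B)
    (hmax : ∃ h ∈ A, h ∈ NN σ m ∧ ‖g (x * h)‖ = B) :
    ∃ u ∈ U, ∃ j, ∃ h₂ ∈ A, h₂ ∈ NN σ m ∧ ∀ h ∈ A, h ∈ NN σ (m + (N + 1)) →
      ‖g (x * h₂ * h)‖ < ‖g (x * h₂ * h * u ^ (p ^ (m - m₀) * p ^ j))‖ := by
  have hp0 : (0 : ℝ) < p := by exact_mod_cast hp.1.pos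
  obtain ⟨h₀, hA₀, hh₀, h₀B⟩ := hmax
  obtain ⟨s, hs⟩ := exists_pow_lt (p := p) hB0
  obtain ⟨u, hu, j, h₂, hA₂, hh₂, h1, h2⟩ := jump_aux hg hU hm hB s m le_rfl
    (lt_of_le_of_lt (zpow_neg_anti (by omega)) hs) 1 A.one_mem (NN σ m).one_mem h₀ hA₀ hh₀
    (by rwa [mul_one]) (by rwa [mul_one])
  refine ⟨u, hu, j, h₂, hA₂, hh₂, fun h hA hh => ?_⟩
  have hlt : (p : ℝ) ^ N * (p : ℝ) ^ (-((N + 1 : ℕ) : ℤ)) * B < B := by
    have h3 : (p : ℝ) ^ N * (p : ℝ) ^ (-((N + 1 : ℕ) : ℤ)) = (p : ℝ)⁻¹ := by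
      rw [zpow_neg, zpow_natCast, pow_succ]
      field_simp
    rw [h3]
    exact mul_lt_of_lt_one_left hB0 (inv_lt_one_of_one_lt₀ one_lt_p)
  obtain ⟨w, hw⟩ : ∃ w, w = u ^ p ^ (m + j - m₀) := ⟨_, rfl⟩
  obtain ⟨hwA, hwN⟩ := pow_gen_mem hU hu (show m₀ ≤ m + j by omega)
  rw [← hw] at hwA hwN h2
  have hw' : u ^ (p ^ (m - m₀) * p ^ j) = w := by
    rw [hw, ← pow_add]
    congr 2
    omega
  rw [hw']
  have h3 := rel_lip hg hU (k := N + 1) hm hB hA₂ hh₂ hA hh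
  have h4 : ‖g (x * h₂ * h)‖ < B := by
    have h5 : g (x * h₂ * h) = (g (x * h₂ * h) - g (x * h₂)) + g (x * h₂) := by ring
    rw [h5]
    exact lt_of_le_of_lt (IsUltrametricDist.norm_add_le_max _ _)
      (max_lt (lt_of_le_of_lt h3 hlt) h1)
  have hnorm : (NN σ (m + (N + 1))).Normal := MonoidHom.normal_ker _
  have h5 := rel_lip hg hU (k := N + 1) hm hB (h₁ := h₂ * w) (h := w⁻¹ * h * w)
    (A.mul_mem hA₂ hwA) ((NN σ m).mul_mem hh₂ (NN_mono (by omega) hwN))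
    (A.mul_mem (A.mul_mem (A.inv_mem hwA) hA) hwA)
    (by
      have := hnorm.conj_mem h hh w⁻¹
      rwa [inv_inv] at this)
  rw [show x * (h₂ * w) * (w⁻¹ * h * w) = x * h₂ * h * w by group, ← mul_assoc x h₂ w] at h5
  have h6 : ‖g (x * h₂ * h * w)‖ = B := by
    have h7 : g (x * h₂ * h * w) = (g (x * h₂ * h * w) - g (x * h₂ * w)) + g (x * h₂ * w) := by
      ring
    have h8 : ‖g (x * h₂ * h * w) - g (x * h₂ * w)‖ < ‖g (x * h₂ * w)‖ := by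
      rw [h2]
      exact lt_of_le_of_lt h5 hlt
    rw [h7, IsUltrametricDist.norm_add_eq_max_of_norm_ne_norm h8.ne, max_eq_right h8.le, h2]
  rw [h6]
  exact h4

end Pool.Agent.Helper44.PS
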