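import Pool.Agent.Helper44.PS.Drop
import Pool.Agent.Helper40.LL.Rank

/-!
# The multiplicity of a root of unity is larger than generic only in few classes (helper44)
-/

set_option autoImplicit false

namespace Pool.Agent.Helper44.PS

open Finset Polynomial

variable {p : ℕ} [hp : Fact p.Prime] {P : Type*} [Group P] {r : ℕ}

/-- The multiplicity of the eigenvalue `l`. -/
noncomputable def mu (σ : P →* Matrix (Fin r) (Fin r) ℤ_[p]) (l : ℤ_[p]) (x : P) : ℕ :=
  (σ x).charpoly.rootMultiplicity l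

theorem mu_le (σ : P →* Matrix (Fin r) (Fin r) ℤ_[p]) (l : ℤ_[p]) (x : P) : mu σ l x ≤ r := by
  classical
  have h1 := (σ x).charpoly.card_roots'
  rw [Matrix.charpoly_natDegree_eq_dim, Fintype.card_fin] at h1
  refine le_trans ?_ h1
  rw [mu, ← count_roots]
  exact Multiset.count_le_card _ _

/-- The taylor coefficients of the characteristic polynomial as polynomials. -/
theorem exists_taylor (l : ℤ_[p]) (k : ℕ) : ∃ G : MvPolynomial (Fin r × Fin r) ℤ_[p],
    ∀ X : Matrix (Fin r) (Fin r) ℤ_[p], MvPolynomial.eval (fun k => X k.1 k.2) G =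
      (X.charpoly.comp (Polynomial.X + C l)).coeff k := by
  refine ⟨((Matrix.mvPolynomialX (Fin r) (Fin r) ℤ_[p]).charpoly.comp
    (Polynomial.X + C (MvPolynomial.C l))).coeff k, fun X => ?_⟩
  have h1 : X.charpoly = (Matrix.mvPolynomialX (Fin r) (Fin r) ℤ_[p]).charpoly.map
      (MvPolynomial.eval fun k => X k.1 k.2) := by
    rw [← Matrix.charpoly_map, ← RingHom.mapMatrix_apply, Matrix.mvPolynomialX_mapMatrix_eval]
  rw [← coeff_map, Polynomial.map_comp, ← h1]
  simp

theorem coeff_eq_zero_iff {f : ℤ_[p][X]} (hf : f ≠ 0) {l : ℤ_[p]} {k : ℕ}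
    (hk : k ≤ f.rootMultiplicity l) :
    (f.comp (Polynomial.X + C l)).coeff k = 0 ↔ k < f.rootMultiplicity l := by
  have h0 : f.comp (Polynomial.X + C l) ≠ 0 := by
    intro h
    have h1 := congrArg (fun g => g.comp (Polynomial.X - C l)) h
    simp only [comp_assoc, add_comp, X_comp, C_comp, sub_add_cancel, comp_X, zero_comp] at h1
    exact hf h1
  rw [rootMultiplicity_eq_natTrailingDegree] at hk ⊢
  constructor
  · intro h
    rcases lt_or_eq_of_le hk with h1 | h1
    · exact h1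
    · exfalso
      rw [h1] at h
      exact (trailingCoeff_nonzero_iff_nonzero.2 h0) h
  · intro h
    exact coeff_eq_zero_of_lt_natTrailingDegree h

theorem mu_pow_le (σ : P →* Matrix (Fin r) (Fin r) ℤ_[p]) {l : ℤ_[p]} {h₀ : ℕ} (hl : l ^ h₀ = 1)
    (x : P) (j : ℕ) (hj : ∃ q : ℤ, (j : ℤ) = 1 + h₀ * q) : mu σ l x ≤ mu σ l (x ^ j) := by
  -- `l ^ j = l`
  have hlj : l ^ j = l := by
    obtain ⟨q, hq⟩ := hj
    rcases Nat.eq_zero_or_pos j with rfl | hj0
    · have h1 : h₀ ∣ 1 := by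
        have h2 : (h₀ : ℤ) ∣ 1 := ⟨-q, by
          push_cast at hq
          linarith⟩
        exact_mod_cast h2
      rw [Nat.dvd_one.1 h1, pow_one] at hl
      rw [hl, pow_zero]
    · have h1 : h₀ ∣ j - 1 := by
        have h2 : (h₀ : ℤ) ∣ ((j - 1 : ℕ) : ℤ) := ⟨q, by
          push_cast [Nat.cast_sub hj0]
          linarith⟩
        exact_mod_cast h2
      obtain ⟨t, ht⟩ := h1
      have h3 : j = h₀ * t + 1 := by omega
      rw [h3, pow_succ, pow_mul, hl, one_pow, one_mul]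
  have hfield : ∀ y : P, mu σ l y = (Matrix.toLin' ((σ y).map
      (PadicInt.Coe.ringHom (p := p)))).charpoly.rootMultiplicity (l : ℚ_[p]) := by
    intro y
    have h1 : (Matrix.toLin' ((σ y).map (PadicInt.Coe.ringHom (p := p)))).charpoly =
        (σ y).charpoly.map PadicInt.Coe.ringHom := by
      rw [Matrix.charpoly_toLin', Matrix.charpoly_map]
    rw [h1, mu]
    exact eq_rootMultiplicity_map (f := PadicInt.Coe.ringHom) Subtype.coe_injective l
  rw [hfield, hfield, Helper40.LL.mult_eq _ _ le_rfl, Helper40.LL.mult_eq _ _ le_rfl]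
  refine Submodule.finrank_mono ?_
  obtain ⟨T, hT⟩ : ∃ T, T = Matrix.toLin' ((σ x).map (PadicInt.Coe.ringHom (p := p))) := ⟨_, rfl⟩
  have hT' : Matrix.toLin' ((σ (x ^ j)).map (PadicInt.Coe.ringHom (p := p))) = T ^ j := by
    have h1 : (σ (x ^ j)).map (PadicInt.Coe.ringHom (p := p)) =
        ((σ x).map (PadicInt.Coe.ringHom (p := p))) ^ j := by
      rw [map_pow, ← RingHom.mapMatrix_apply, map_pow]
      rfl
    rw [h1, Matrix.toLin'_pow, hT]
  rw [hT', ← hT]
  obtain ⟨q, hq⟩ : (Polynomial.X - C (l : ℚ_[p])) ∣ (Polynomial.X ^ j - C (l : ℚ_[p])) := by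
    rw [dvd_iff_isRoot, IsRoot.def, eval_sub, eval_pow, eval_X, eval_C, ← PadicInt.coe_pow, hlj,
      sub_self]
  intro v hv
  rw [LinearMap.mem_ker] at hv ⊢
  have h2 : aeval (T ^ j) ((Polynomial.X - C (l : ℚ_[p])) ^ Module.finrank ℚ_[p] (Fin r → ℚ_[p])) =
      aeval T (q ^ Module.finrank ℚ_[p] (Fin r → ℚ_[p])) *
        aeval T ((Polynomial.X - C (l : ℚ_[p])) ^ Module.finrank ℚ_[p] (Fin r → ℚ_[p])) := by
    rw [← map_mul, ← mul_pow, mul_comm q, ← hq]
    simp
  rw [h2, Module.End.mul_apply, hv, map_zero]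

/-- **The multiplicity is larger than generic only in few classes.** -/
theorem count_mult (σ : P →* Matrix (Fin r) (Fin r) ℤ_[p]) {A : Subgroup P} [A.Normal] {z : P}
    (hgen : ∀ (M : ℕ) (x : P), ∃ k : ℕ, ∃ a ∈ A, red σ M x = red σ M (z ^ k * a))
    {l : ℤ_[p]} {h₀ : ℕ} (hh₀ : 0 < h₀) (hl : l ^ h₀ = 1) :
    ∃ m₁ C : ℕ, ∀ n, 0 < n → ∀ m,
      (red σ m '' {x | x ∈ coset A (z ^ n) ∧ ∃ w ∈ NN σ m₁, mu σ l (x * w) < mu σ l x}).ncard *
          p ^ m ≤
        C * (red σ m '' (A : Set P)).ncard := by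
  have hex := fun k => exists_taylor (p := p) (r := r) l k
  choose G hG using hex
  obtain ⟨m₁, C, h⟩ := count_drop_gen σ hgen (e := fun x => r - mu σ l x) (r' := r)
    (fun x => Nat.sub_le _ _) (fun R => G (r - R)) (by
      intro R hR x hx
      have h1 := mu_le σ l x
      rw [pv, PadicInt.coe_eq_zero, hG, coeff_eq_zero_iff (Matrix.charpoly_monic _).ne_zero
        (k := r - R) (show r - R ≤ mu σ l x by omega)]
      change r - R < mu σ l x ↔ r - mu σ l x < R
      omega) hh₀ (fun x j hj => by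
      have := mu_pow_le σ hl x j hj
      omega)
  refine ⟨m₁, C, fun n hn m => (Nat.mul_le_mul_right _ ?_).trans (h n hn m)⟩
  refine Set.ncard_le_ncard (Set.image_mono ?_) (Set.toFinite _)
  rintro x ⟨hx, w, hw, hlt⟩
  have h1 := mu_le σ l x
  exact ⟨hx, w, hw, by omega⟩

end Pool.Agent.Helper44.PS
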