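import Pool.Agent.Helper44.PS.Final
import Pool.Agent.Helper44.PS.Mult
import Pool.Agent.Helper40.CS.Fin

/-!
# Jordan types and multiplicities (helper44)

The law for Jordan types of helper40 with one more conclusion: where the generic Jordan blocks at `l`
have size one, an element of `Fr` with a larger block has a larger multiplicity of `l` than some
element of `Fr` arbitrarily close to it.
-/

set_option autoImplicit false

namespace Pool.Agent.Helper44.PS

open Polynomial Pool.Agent.Helper40.ZO Pool.Agent.Helper40.LL Pool.Agent.Helper40.JL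
  Pool.Agent.Helper40.CS

theorem compat_law2 {I : Type*} {E P : Type*} {K V : I → Type*} [Field E] [∀ i, Field (K i)]
    [∀ i, Algebra E (K i)] [∀ i, IsAlgClosed (K i)] [∀ i, CharZero (K i)]
    [∀ i, TopologicalSpace (K i)] [∀ i, IsTopologicalRing (K i)] [∀ i, T2Space (K i)]
    [∀ i, AddCommGroup (V i)] [∀ i, Module (K i) (V i)] [∀ i, FiniteDimensional (K i) (V i)]
    [Group P] [TopologicalSpace P] [IsTopologicalGroup P] [CompactSpace P]
    [TotallyDisconnectedSpace P] (ρ : ∀ i, P →* Module.End (K i) (V i))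
    (hρ : ∀ (i : I) (v : V i) (f : Module.Dual (K i) (V i)), Continuous fun x => f (ρ i x v))
    {Fr : Set P} (hFr : Dense Fr) (poly : P → E[X])
    (hcomp : ∀ x ∈ Fr, ∀ i, (ρ i x).charpoly = (poly x).map (algebraMap E (K i))) :
    ∃ N : Subgroup P, N.Normal ∧ IsOpen (N : Set P) ∧
      ∃ lam : ∀ i, P ⧸ N → K i → ℕ → ℕ, (∀ i c l, Law (ρ i) N c l (lam i c l)) ∧
        ∀ (l : E) (i : I) (c : P ⧸ N) (x : P), x ∈ Fr → (x : P ⧸ N) = c →
          lam i c (algebraMap E (K i) l) 1 = 0 → nb (ρ i x) (algebraMap E (K i) l) 1 ≠ 0 →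
            ∀ H : Subgroup P, IsOpen (H : Set P) → ∃ y ∈ Fr, x⁻¹ * y ∈ H ∧
              (poly y).rootMultiplicity l < (poly x).rootMultiplicity l := by
  classical
  rcases isEmpty_or_nonempty I with hI | ⟨⟨i₀⟩⟩
  · exact ⟨⊤, inferInstance, isOpen_univ, fun i => hI.elim i, fun i => hI.elim i,
      fun l i => hI.elim i⟩
  -- the common dimension
  obtain ⟨x₁, hx₁⟩ := hFr.nonempty
  obtain ⟨n, hn⟩ : ∃ n, n = (poly x₁).natDegree := ⟨_, rfl⟩
  have hdim : ∀ i, Module.finrank (K i) (V i) = n := by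
    intro i
    have h1 := congrArg natDegree (hcomp x₁ hx₁ i)
    rw [LinearMap.charpoly_natDegree, natDegree_map] at h1
    rw [h1, hn]
  let b : ∀ i, Module.Basis (Fin n) (K i) (V i) := fun i =>
    Module.finBasisOfFinrankEq (K i) (V i) (hdim i)
  obtain ⟨N, hNn, hNo, hmin⟩ := exists_min (mat (ρ i₀) (b i₀))
  have hconn₀ : Conn (mat (ρ i₀) (b i₀)) N := hmin
  have hconn : ∀ i, Conn (mat (ρ i) (b i)) N := by
    intro i
    refine conn_of_conn (E := E) (mat (ρ i₀) (b i₀)) (mat (ρ i) (b i))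
      (mat_cont (ρ i₀) (hρ i₀) (b i₀)) hFr ?_ hNo hconn₀
    intro x hx
    exact ⟨poly x, by rw [mat_charpoly, hcomp x hx], by rw [mat_charpoly, hcomp x hx]⟩
  have hex := fun i (c : P ⧸ N) (l : K i) =>
    law_of_conn (ρ i) (hρ i) (b i) hNn hNo (hconn i) c l
  choose lam h1 h2 h3 h4 using hex
  refine ⟨N, hNn, hNo, lam, fun i c l => ⟨h1 i c l, h2 i c l, h3 i c l⟩, ?_⟩
  intro l i c x hxFr hxc hlam hns H hH
  -- the multiplicities
  have hmult : ∀ x ∈ Fr, (ρ i x).charpoly.rootMultiplicity (algebraMap E (K i) l) =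
      (poly x).rootMultiplicity l := by
    intro x hx
    rw [hcomp x hx i]
    exact (eq_rootMultiplicity_map (algebraMap E (K i)).injective l).symm
  -- the minimal multiplicity
  obtain ⟨y₀, hy₀, hy₀min⟩ := exists_min_nat (s := {y : P | (y : P ⧸ N) = c})
    (QuotientGroup.mk_surjective c)
    (fun y => (ρ i y).charpoly.rootMultiplicity (algebraMap E (K i) l))
  obtain ⟨E₀, hE0, hE0'⟩ := ker_open (b i)
    ((Polynomial.X - C (algebraMap E (K i) l)) ^ n) ⊤ (ρ i y₀)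
  -- the multiplicity of `x` is not minimal
  obtain ⟨y, hyFr, hyc, hynb⟩ := h4 i c (algebraMap E (K i) l) Fr hFr
  have h5 : (ρ i y).charpoly.rootMultiplicity (algebraMap E (K i) l) =
      lam i c (algebraMap E (K i) l) 0 := by
    rw [← hynb 0]
    exact mult_of_nb (by rw [hynb 1, hlam])
  have h6 := hy₀min y hyc
  rw [h5] at h6
  have h7 := h1 i c (algebraMap E (K i) l) x hxc 1
  rw [Finset.sum_range_one, pow_one, ← nb_zero] at h7
  have h8 : (ρ i y₀).charpoly.rootMultiplicity (algebraMap E (K i) l) <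
      (ρ i x).charpoly.rootMultiplicity (algebraMap E (K i) l) := by
    by_contra hle
    push Not at hle
    exact hns (nb_of_mult (hle.trans (h6.trans h7)))
  by_contra hcon
  push Not at hcon
  have hO : IsOpen {y : P | x⁻¹ * y ∈ H ∧ val (mat (ρ i) (b i) y) E₀ ≠ 0} := by
    refine IsOpen.inter (hH.preimage (continuous_const.mul continuous_id)) ?_
    exact isOpen_ne_fun (val_cont (mat_cont (ρ i) (hρ i) (b i)) E₀) continuous_const
  have hempty : ∀ y : P, x⁻¹ * y ∈ H → val (mat (ρ i) (b i) y) E₀ = 0 := by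
    intro y hy
    by_contra hne
    obtain ⟨y', ⟨hy'H, hy'E⟩, hy'Fr⟩ := hFr.inter_open_nonempty _ hO ⟨y, hy, hne⟩
    have h9 := hE0' _ hy'E
    rw [inf_top_eq, inf_top_eq, ← mult_eq _ _ (hdim i).le, ← mult_eq _ _ (hdim i).le] at h9
    have h10 := hcon y' hy'Fr hy'H
    rw [← hmult x hxFr, ← hmult y' hy'Fr] at h10
    omega
  obtain ⟨g, hg⟩ := val_left (mat (ρ i) (b i) x) E₀
  have h9 := hconn i (H ⊓ N) (hH.inter hNo) inf_le_right g (by
    intro γ hγ
    have h10 := hg (mat (ρ i) (b i) γ)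
    have h11 := hempty (x * γ) (by rw [inv_mul_cancel_left]; exact hγ.1)
    rw [map_mul] at h11
    exact h10.trans h11) (x⁻¹ * y₀) (by
    have h12 : (x : P ⧸ N) = y₀ := hxc.trans hy₀.symm
    rwa [QuotientGroup.eq] at h12)
  have h10 := hg (mat (ρ i) (b i) (x⁻¹ * y₀))
  apply hE0
  have h11 : mat (ρ i) (b i) x * mat (ρ i) (b i) (x⁻¹ * y₀) = mat (ρ i) (b i) y₀ := by
    rw [← map_mul, mul_inv_cancel_left]
  rw [h11] at h10
  exact h10.symm.trans h9

theorem mu_eq {E P : Type*} [Field E] {p r : ℕ} [Fact p.Prime] [Algebra E ℚ_[p]] [Group P]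
    (σ : P →* Matrix (Fin r) (Fin r) ℤ_[p]) {q : E[X]} {x : P}
    (h : (σ x).charpoly.map PadicInt.Coe.ringHom = q.map (algebraMap E ℚ_[p])) {l : E}
    {l' : ℤ_[p]} (hl : (l' : ℚ_[p]) = algebraMap E ℚ_[p] l) : mu σ l' x = q.rootMultiplicity l := by
  rw [mu, eq_rootMultiplicity_map (f := PadicInt.Coe.ringHom (p := p)) Subtype.coe_injective l', h]
  change (q.map (algebraMap E ℚ_[p])).rootMultiplicity (l' : ℚ_[p]) = _
  rw [hl]
  exact (eq_rootMultiplicity_map (algebraMap E ℚ_[p]).injective l).symm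

/-- **The law for Jordan types with linear saving.** -/
theorem linear_law {I : Type*} {E P : Type*} {K V : I → Type*} [Field E] [∀ i, Field (K i)]
    [∀ i, Algebra E (K i)] [∀ i, IsAlgClosed (K i)] [∀ i, CharZero (K i)]
    [∀ i, TopologicalSpace (K i)] [∀ i, IsTopologicalRing (K i)] [∀ i, T2Space (K i)]
    [∀ i, AddCommGroup (V i)] [∀ i, Module (K i) (V i)] [∀ i, FiniteDimensional (K i) (V i)]
    [Group P] [TopologicalSpace P] [IsTopologicalGroup P] [CompactSpace P]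
    [TotallyDisconnectedSpace P] (ρ : ∀ i, P →* Module.End (K i) (V i))
    (hρ : ∀ (i : I) (v : V i) (f : Module.Dual (K i) (V i)), Continuous fun x => f (ρ i x v))
    {Fr : Set P} (hFr : Dense Fr) (poly : P → E[X])
    (hcomp : ∀ x ∈ Fr, ∀ i, (ρ i x).charpoly = (poly x).map (algebraMap E (K i)))
    {p r : ℕ} [Fact p.Prime] [Algebra E ℚ_[p]] (σ : P →* Matrix (Fin r) (Fin r) ℤ_[p])
    (hσ : Continuous σ)
    (hcomp' : ∀ x ∈ Fr,
      (σ x).charpoly.map PadicInt.Coe.ringHom = (poly x).map (algebraMap E ℚ_[p])) :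
    ∃ N : Subgroup P, N.Normal ∧ IsOpen (N : Set P) ∧
      ∃ lam : ∀ i, P ⧸ N → K i → ℕ → ℕ, (∀ i c l, Law (ρ i) N c l (lam i c l)) ∧
        ∀ (A : Subgroup P) (z : P), A.Normal →
          (A ⊔ Subgroup.zpowers z).topologicalClosure = ⊤ →
          ∀ (l : E) (w : ℕ), 0 < w → l ^ w = 1 → ∃ C : ℕ, ∀ n, 0 < n → ∀ m,
            (red σ m '' {x | x ∈ Fr ∧ x ∈ coset A (z ^ n) ∧
              ∃ i, lam i (x : P ⧸ N) (algebraMap E (K i) l) 1 = 0 ∧
                nb (ρ i x) (algebraMap E (K i) l) 1 ≠ 0}).ncard * p ^ m ≤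
              C * (red σ m '' (A : Set P)).ncard := by
  obtain ⟨N, hN1, hN2, lam, h1, h2⟩ := compat_law2 ρ hρ hFr poly hcomp
  refine ⟨N, hN1, hN2, lam, h1, ?_⟩
  intro A z hA hgen l w hw hl
  have h3 : (algebraMap E ℚ_[p] l) ^ w = 1 := by rw [← map_pow, hl, map_one]
  have h4 : ‖algebraMap E ℚ_[p] l‖ ≤ 1 := by
    have h5 := congrArg norm h3
    rw [norm_pow, norm_one] at h5
    exact ((pow_eq_one_iff_of_nonneg (norm_nonneg _) hw.ne').1 h5).le
  obtain ⟨l', hl'⟩ : ∃ l' : ℤ_[p], (l' : ℚ_[p]) = algebraMap E ℚ_[p] l := ⟨⟨_, h4⟩, rfl⟩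
  obtain ⟨m₁, C, hC⟩ := count_mult σ (A := A) (z := z) (fun M x => exists_gen_mod hσ hgen M x)
    (l := l') hw (by
      apply PadicInt.ext
      rw [PadicInt.coe_pow, PadicInt.coe_one, hl']
      exact h3)
  refine ⟨C, fun n hn m => (Nat.mul_le_mul_right _ ?_).trans (hC n hn m)⟩
  refine Set.ncard_le_ncard (Set.image_mono ?_) (Set.toFinite _)
  rintro x ⟨hx, hxz, i, hi, hns⟩
  refine ⟨hxz, ?_⟩
  obtain ⟨y, hy, hyH, hlt⟩ := h2 l i _ x hx rfl hi hns (NN σ m₁) (isOpen_NN hσ m₁)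
  refine ⟨x⁻¹ * y, hyH, ?_⟩
  rw [mul_inv_cancel_left, mu_eq σ (hcomp' y hy) hl', mu_eq σ (hcomp' x hx) hl']
  exact hlt

end Pool.Agent.Helper44.PS
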