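import Pool.Agent.Helper44.PS.Cyc

/-!
# Jordan types at the roots of unity: linear saving (helper44)
-/

set_option autoImplicit false

namespace Pool.Agent.Helper44.PS

open Polynomial Pool.Agent.Helper40.ZO Pool.Agent.Helper40.LL Pool.Agent.Helper40.JL
  Pool.Agent.Helper40.CS

theorem compat_law3 {I : Type*} {E P : Type*} {K V : I → Type*} [Field E] [∀ i, Field (K i)]
    [∀ i, Algebra E (K i)] [∀ i, IsAlgClosed (K i)] [∀ i, CharZero (K i)]
    [∀ i, TopologicalSpace (K i)] [∀ i, IsTopologicalRing (K i)] [∀ i, T2Space (K i)]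
    [∀ i, AddCommGroup (V i)] [∀ i, Module (K i) (V i)] [∀ i, FiniteDimensional (K i) (V i)]
    [Group P] [TopologicalSpace P] [IsTopologicalGroup P] [CompactSpace P]
    [TotallyDisconnectedSpace P] (ρ : ∀ i, P →* Module.End (K i) (V i))
    (hρ : ∀ (i : I) (v : V i) (f : Module.Dual (K i) (V i)), Continuous fun x => f (ρ i x v))
    {Fr : Set P} (hFr : Dense Fr) (poly : P → E[X])
    (hcomp : ∀ x ∈ Fr, ∀ i, (ρ i x).charpoly = (poly x).map (algebraMap E (K i))) :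
    ∃ N : Subgroup P, N.Normal ∧ IsOpen (N : Set P) ∧
      ∃ lam : ∀ i, P ⧸ N → K i → ℕ → ℕ, (∀ i c l, Law (ρ i) N c l (lam i c l)) ∧
        ∀ (w : ℕ), 0 < w → ∀ (i : I) (x : P), x ∈ Fr →
          (∀ k : K i, k ^ w = 1 → lam i (x : P ⧸ N) k 1 = 0) →
          (∃ k : K i, k ^ w = 1 ∧ nb (ρ i x) k 1 ≠ 0) →
            ∀ H : Subgroup P, IsOpen (H : Set P) → ∃ y ∈ Fr, x⁻¹ * y ∈ H ∧
              rw1 (ρ i y).charpoly w < rw1 (ρ i x).charpoly w := by
  classical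
  rcases isEmpty_or_nonempty I with hI | ⟨⟨i₀⟩⟩
  · exact ⟨⊤, inferInstance, isOpen_univ, fun i => hI.elim i, fun i => hI.elim i,
      fun w hw i => hI.elim i⟩
  -- the common dimension
  obtain ⟨x₁, hx₁⟩ := hFr.nonempty
  obtain ⟨n, hn⟩ : ∃ n, n = (poly x₁).natDegree := ⟨_, rfl⟩
  have hdim : ∀ i, Module.finrank (K i) (V i) = n := by
    intro i
    have h1 := congrArg natDegree (hcomp x₁ hx₁ i)
    rw [LinearMap.charpoly_natDegree, natDegree_map] at h1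
    rw [h1, hn]
  let b : ∀ i, Module.Basis (Fin n) (K i) (V i) := fun i =>
    Module.finBasisOfFinrankEq (K i) (V i) (hdim i)
  obtain ⟨N, hNn, hNo, hmin⟩ := exists_min (mat (ρ i₀) (b i₀))
  have hconn₀ : Conn (mat (ρ i₀) (b i₀)) N := hmin
  have hconn : ∀ i, Conn (mat (ρ i) (b i)) N := by
    intro i
    refine conn_of_conn (E := E) (mat (ρ i₀) (b i₀)) (mat (ρ i) (b i))
      (mat_cont (ρ i₀) (hρ i₀) (b i₀)) hFr ?_ hNo hconn₀
    intro x hx
    exact ⟨poly x, by rw [mat_charpoly, hcomp x hx], by rw [mat_charpoly, hcomp x hx]⟩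
  have hex := fun i (c : P ⧸ N) (l : K i) =>
    law_of_conn (ρ i) (hρ i) (b i) hNn hNo (hconn i) c l
  choose lam h1 h2 h3 h4 using hex
  refine ⟨N, hNn, hNo, lam, fun i c l => ⟨h1 i c l, h2 i c l, h3 i c l⟩, ?_⟩
  intro w hw i x hxFr hlam hns H hH
  -- the minimal multiplicities
  have hmin' : ∀ k : K i, ∃ (y₀ : P) (E₀ : MvPolynomial (Fin n × Fin n) (K i)), x⁻¹ * y₀ ∈ N ∧
      val (mat (ρ i) (b i) y₀) E₀ ≠ 0 ∧ (k ^ w = 1 → ∀ y, val (mat (ρ i) (b i) y) E₀ ≠ 0 →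
        (ρ i y).charpoly.rootMultiplicity k ≤ nb (ρ i x) k 0) := by
    intro k
    obtain ⟨y₀, hy₀, hy₀min⟩ := exists_min_nat (s := {y : P | (y : P ⧸ N) = (x : P ⧸ N)})
      ⟨x, rfl⟩ (fun y => (ρ i y).charpoly.rootMultiplicity k)
    obtain ⟨E₀, hE0, hE0'⟩ := ker_open (b i) ((Polynomial.X - C k) ^ n) ⊤ (ρ i y₀)
    refine ⟨y₀, E₀, ?_, hE0, ?_⟩
    · have h12 : (x : P ⧸ N) = y₀ := hy₀.symm
      rwa [QuotientGroup.eq] at h12
    · intro hk y hy
      obtain ⟨y', -, hyc, hynb⟩ := h4 i (x : P ⧸ N) k Fr hFr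
      have h5 : (ρ i y').charpoly.rootMultiplicity k = lam i (x : P ⧸ N) k 0 := by
        rw [← hynb 0]
        exact mult_of_nb (by rw [hynb 1, hlam k hk])
      have h6 := hy₀min y' hyc
      rw [h5] at h6
      have h7 := h1 i (x : P ⧸ N) k x rfl 1
      rw [Finset.sum_range_one, pow_one, ← nb_zero] at h7
      have h9 := hE0' _ hy
      rw [inf_top_eq, inf_top_eq, ← mult_eq _ _ (hdim i).le, ← mult_eq _ _ (hdim i).le] at h9
      exact h9.trans (h6.trans h7)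
  choose y₀ E₀ hy₀ hE₀ hgood using hmin'
  have hopen : ∀ k, IsOpen {y : P | val (mat (ρ i) (b i) y) (E₀ k) ≠ 0} := fun k =>
    isOpen_ne_fun (val_cont (mat_cont (ρ i) (hρ i) (b i)) (E₀ k)) continuous_const
  -- simultaneous genericity
  have hsim : ∀ s : Finset (K i), ∃ O : Set P, IsOpen O ∧ O.Nonempty ∧
      (∀ y ∈ O, x⁻¹ * y ∈ H ∧ x⁻¹ * y ∈ N) ∧
        ∀ k ∈ s, ∀ y ∈ O, val (mat (ρ i) (b i) y) (E₀ k) ≠ 0 := by
    intro s
    induction s using Finset.induction_on with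
    | empty =>
      refine ⟨{y | x⁻¹ * y ∈ H ∧ x⁻¹ * y ∈ N}, ?_, ⟨x, ?_⟩, fun y hy => hy, by simp⟩
      · exact (hH.preimage (continuous_const.mul continuous_id)).inter
          (hNo.preimage (continuous_const.mul continuous_id))
      · change x⁻¹ * x ∈ H ∧ x⁻¹ * x ∈ N
        rw [inv_mul_cancel]
        exact ⟨H.one_mem, N.one_mem⟩
    | insert k s hk ih =>
      obtain ⟨O, hO, ⟨x', hx'⟩, hOc, hOs⟩ := ih
      refine ⟨O ∩ {y | val (mat (ρ i) (b i) y) (E₀ k) ≠ 0}, hO.inter (hopen k), ?_,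
        fun y hy => hOc y hy.1, ?_⟩
      · by_contra hcon
        rw [Set.not_nonempty_iff_eq_empty] at hcon
        have hzero : ∀ y ∈ O, val (mat (ρ i) (b i) y) (E₀ k) = 0 := by
          intro y hy
          by_contra hne
          have h9 : y ∈ O ∩ {y | val (mat (ρ i) (b i) y) (E₀ k) ≠ 0} := ⟨hy, hne⟩
          rw [hcon] at h9
          exact h9
        have hO' : IsOpen {γ : P | x' * γ ∈ O} :=
          hO.preimage (continuous_const.mul continuous_id)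
        obtain ⟨H', hH'⟩ := ProfiniteGrp.exist_openNormalSubgroup_sub_open_nhds_of_one hO'
          (by change x' * 1 ∈ O; rwa [mul_one])
        obtain ⟨g, hg⟩ := val_left (mat (ρ i) (b i) x') (E₀ k)
        have h9 := hconn i (H'.toSubgroup ⊓ N) (H'.isOpen'.inter hNo) inf_le_right g (by
          intro γ hγ
          have h10 := hg (mat (ρ i) (b i) γ)
          have h11 := hzero (x' * γ) (hH' hγ.1)
          rw [map_mul] at h11
          exact h10.trans h11) (x'⁻¹ * y₀ k) (by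
          have h12 : x'⁻¹ * y₀ k = (x⁻¹ * x')⁻¹ * (x⁻¹ * y₀ k) := by group
          rw [h12]
          exact N.mul_mem (N.inv_mem (hOc x' hx').2) (hy₀ k))
        have h10 := hg (mat (ρ i) (b i) (x'⁻¹ * y₀ k))
        apply hE₀ k
        have h11 : mat (ρ i) (b i) x' * mat (ρ i) (b i) (x'⁻¹ * y₀ k) = mat (ρ i) (b i) (y₀ k) := by
          rw [← map_mul, mul_inv_cancel_left]
        rw [h11] at h10
        exact h10.symm.trans h9
      · intro k' hk' y hy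
        rcases Finset.mem_insert.1 hk' with rfl | h
        · exact hy.2
        · exact hOs k' h y hy.1
  obtain ⟨O, hO, hOne, hOc, hOs⟩ := hsim (un (K i) w)
  obtain ⟨y, hyO, hyFr⟩ := hFr.inter_open_nonempty _ hO hOne
  refine ⟨y, hyFr, (hOc y hyO).1, ?_⟩
  rw [rw1_eq_sum _ hw, rw1_eq_sum _ hw]
  obtain ⟨k₀, hk₀, hnb⟩ := hns
  refine Finset.sum_lt_sum (fun k hk => ?_) ⟨k₀, (mem_un hw).2 hk₀, ?_⟩
  · exact (hgood k ((mem_un hw).1 hk) y (hOs k hk y hyO)).trans (nb_le_mult _ _)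
  · refine lt_of_le_of_lt (hgood k₀ hk₀ y (hOs k₀ ((mem_un hw).2 hk₀) y hyO)) ?_
    by_contra hle
    push Not at hle
    exact hnb (nb_of_mult hle)

/-- **The law for Jordan types with linear saving.** -/
theorem linear_law3 {I : Type*} {E P : Type*} {K V : I → Type*} [Field E] [∀ i, Field (K i)]
    [∀ i, Algebra E (K i)] [∀ i, IsAlgClosed (K i)] [∀ i, CharZero (K i)]
    [∀ i, TopologicalSpace (K i)] [∀ i, IsTopologicalRing (K i)] [∀ i, T2Space (K i)]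
    [∀ i, AddCommGroup (V i)] [∀ i, Module (K i) (V i)] [∀ i, FiniteDimensional (K i) (V i)]
    [Group P] [TopologicalSpace P] [IsTopologicalGroup P] [CompactSpace P]
    [TotallyDisconnectedSpace P] (ρ : ∀ i, P →* Module.End (K i) (V i))
    (hρ : ∀ (i : I) (v : V i) (f : Module.Dual (K i) (V i)), Continuous fun x => f (ρ i x v))
    {Fr : Set P} (hFr : Dense Fr) (poly : P → E[X])
    (hcomp : ∀ x ∈ Fr, ∀ i, (ρ i x).charpoly = (poly x).map (algebraMap E (K i)))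
    {p r : ℕ} [Fact p.Prime] [Algebra E ℚ_[p]] (σ : P →* Matrix (Fin r) (Fin r) ℤ_[p])
    (hσ : Continuous σ)
    (hcomp' : ∀ x ∈ Fr,
      (σ x).charpoly.map PadicInt.Coe.ringHom = (poly x).map (algebraMap E ℚ_[p])) :
    ∃ N : Subgroup P, N.Normal ∧ IsOpen (N : Set P) ∧
      ∃ lam : ∀ i, P ⧸ N → K i → ℕ → ℕ, (∀ i c l, Law (ρ i) N c l (lam i c l)) ∧
        ∀ (A : Subgroup P) (z : P), A.Normal →
          (A ⊔ Subgroup.zpowers z).topologicalClosure = ⊤ →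
          ∀ w : ℕ, 0 < w → ∃ C : ℕ, ∀ n, 0 < n → ∀ m,
            (red σ m '' {x | x ∈ Fr ∧ x ∈ coset A (z ^ n) ∧
              ∃ i, (∀ k : K i, k ^ w = 1 → lam i (x : P ⧸ N) k 1 = 0) ∧
                ∃ k : K i, k ^ w = 1 ∧ nb (ρ i x) k 1 ≠ 0}).ncard * p ^ m ≤
              C * (red σ m '' (A : Set P)).ncard := by
  obtain ⟨N, hN1, hN2, lam, h1, h2⟩ := compat_law3 ρ hρ hFr poly hcomp
  refine ⟨N, hN1, hN2, lam, h1, ?_⟩
  intro A z hA hgen w hw
  let _ : Algebra E (PadicAlgCl p) :=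
    ((algebraMap ℚ_[p] (PadicAlgCl p)).comp (algebraMap E ℚ_[p])).toAlgebra
  have hmu : ∀ y ∈ Fr, ∀ i, mu σ 1 (y ^ w) = rw1 (ρ i y).charpoly w := by
    intro y hy i
    have h3 : (σ y).charpoly.map (inc p) = (poly y).map (algebraMap E (PadicAlgCl p)) := by
      rw [inc, ← Polynomial.map_map, hcomp' y hy, Polynomial.map_map]
      rfl
    rw [mu_pow σ hw, h3, hcomp y hy i]
    exact rw1_eq _ _
  obtain ⟨m₁, C, hC⟩ := count_cyc σ (A := A) (z := z) (fun M x => exists_gen_mod hσ hgen M x) w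
  refine ⟨C, fun n hn m => (Nat.mul_le_mul_right _ ?_).trans (hC n hn m)⟩
  refine Set.ncard_le_ncard (Set.image_mono ?_) (Set.toFinite _)
  rintro x ⟨hx, hxz, i, hi, hns⟩
  refine ⟨hxz, ?_⟩
  obtain ⟨y, hy, hyH, hlt⟩ := h2 w hw i x hx hi hns (NN σ m₁) (isOpen_NN hσ m₁)
  refine ⟨x⁻¹ * y, hyH, ?_⟩
  rw [mul_inv_cancel_left, hmu y hy i, hmu x hx i]
  exact hlt

end Pool.Agent.Helper44.PS
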