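import Pool.Agent.Helper44.PS.Count

/-!
# Polynomials in the entries of a p-adic representation (helper44)

`Nice σ N g`: along `x v ^ t` with `v ≡ 1` modulo `p ^ 2` the Newton coefficients of `g` satisfy
`Rec p N`, and `g` is Lipschitz.  `nice_poly`: every polynomial in the entries of `σ x` is nice.
-/

set_option autoImplicit false

namespace Pool.Agent.Helper44.PS

open Matrix Finset

variable {p : ℕ} [hp : Fact p.Prime] {P : Type*} [Group P] {r : ℕ}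

/-- Reduction modulo `p ^ m`. -/
noncomputable def red (σ : P →* Matrix (Fin r) (Fin r) ℤ_[p]) (m : ℕ) :
    P →* Matrix (Fin r) (Fin r) (ZMod (p ^ m)) :=
  ((PadicInt.toZModPow (p := p) m).mapMatrix : Matrix (Fin r) (Fin r) ℤ_[p] →+*
    Matrix (Fin r) (Fin r) (ZMod (p ^ m))).toMonoidHom.comp σ

/-- The elements congruent to `1` modulo `p ^ m`. -/
noncomputable def NN (σ : P →* Matrix (Fin r) (Fin r) ℤ_[p]) (m : ℕ) : Subgroup P := (red σ m).ker

theorem red_apply (σ : P →* Matrix (Fin r) (Fin r) ℤ_[p]) (m : ℕ) (x : P) :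
    red σ m x = (σ x).map (PadicInt.toZModPow m) := rfl

theorem toZModPow_eq_zero_iff (m : ℕ) (y : ℤ_[p]) :
    PadicInt.toZModPow m y = 0 ↔ ∃ z, y = (p : ℤ_[p]) ^ m * z := by
  rw [← RingHom.mem_ker, PadicInt.ker_toZModPow, Ideal.mem_span_singleton]
  rfl

theorem map_eq_iff (m : ℕ) (X Y : Matrix (Fin r) (Fin r) ℤ_[p]) :
    X.map (PadicInt.toZModPow m) = Y.map (PadicInt.toZModPow m) ↔
      ∃ Z : Matrix (Fin r) (Fin r) ℤ_[p], X = Y + (p : ℤ_[p]) ^ m • Z := by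
  constructor
  · intro h
    have h1 : ∀ i j, ∃ z, X i j - Y i j = (p : ℤ_[p]) ^ m * z := by
      intro i j
      rw [← toZModPow_eq_zero_iff, map_sub, sub_eq_zero]
      exact congrFun (congrFun h i) j
    choose Z hZ using h1
    refine ⟨Matrix.of Z, ?_⟩
    ext i j
    rw [Matrix.add_apply, Matrix.smul_apply, Matrix.of_apply, smul_eq_mul, ← hZ i j]
    ring
  · rintro ⟨Z, rfl⟩
    ext i j
    rw [Matrix.map_apply, Matrix.map_apply, Matrix.add_apply, map_add, add_eq_left,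
      toZModPow_eq_zero_iff]
    exact ⟨Z i j, rfl⟩

theorem mem_NN {σ : P →* Matrix (Fin r) (Fin r) ℤ_[p]} {m : ℕ} {x : P} :
    x ∈ NN σ m ↔ ∃ Z : Matrix (Fin r) (Fin r) ℤ_[p], σ x = 1 + (p : ℤ_[p]) ^ m • Z := by
  rw [← map_eq_iff, NN, MonoidHom.mem_ker, red_apply]
  have h1 : (1 : Matrix (Fin r) (Fin r) ℤ_[p]).map (PadicInt.toZModPow m) = 1 := by
    rw [Matrix.map_one _ (map_zero _) (map_one _)]
  rw [h1]

theorem NN_mono {σ : P →* Matrix (Fin r) (Fin r) ℤ_[p]} {m n : ℕ} (h : m ≤ n) :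
    NN σ n ≤ NN σ m := by
  intro x hx
  obtain ⟨Z, hZ⟩ := mem_NN.1 hx
  refine mem_NN.2 ⟨(p : ℤ_[p]) ^ (n - m) • Z, ?_⟩
  rw [hZ, smul_smul, ← pow_add]
  congr 3
  omega

/-- Functions with the estimates along powers. -/
structure Nice (σ : P →* Matrix (Fin r) (Fin r) ℤ_[p]) (N : ℕ) (g : P → ℚ_[p]) : Prop where
  pos : 0 < N
  lip : ∀ (m : ℕ) (x h : P), h ∈ NN σ m → ‖g (x * h) - g x‖ ≤ (p : ℝ) ^ (-(m : ℤ))
  newt : ∀ x v : P, v ∈ NN σ 2 → ∃ a : ℕ → ℚ_[p], Rec p N a ∧ Newton a fun t => g (x * v ^ t)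

/-- Matrix coefficients of multiplicative maps preserving the congruences. -/
def MC (r : ℕ) (g : Matrix (Fin r) (Fin r) ℤ_[p] → ℤ_[p]) : Prop :=
  ∃ (ι : Type) (_ : Fintype ι) (_ : DecidableEq ι)
    (κ : Matrix (Fin r) (Fin r) ℤ_[p] →* Matrix ι ι ℤ_[p]) (c : Matrix ι ι ℤ_[p]),
    (∀ (m : ℕ) (Y : Matrix (Fin r) (Fin r) ℤ_[p]), ∃ Y' : Matrix ι ι ℤ_[p],
      κ (1 + (p : ℤ_[p]) ^ m • Y) = 1 + (p : ℤ_[p]) ^ m • Y') ∧ ∀ X, g X = trace (c * κ X)

theorem mc_const (r : ℕ) (a : ℤ_[p]) : MC (p := p) r fun _ => a := by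
  refine ⟨Unit, inferInstance, inferInstance, 1, Matrix.of fun _ _ => a, fun m Y => ⟨0, ?_⟩,
    fun X => ?_⟩
  · simp
  · simp [trace]

theorem mc_var (r : ℕ) (i j : Fin r) : MC (p := p) r fun X => X i j := by
  refine ⟨Fin r, inferInstance, inferInstance, MonoidHom.id _, single j i 1,
    fun m Y => ⟨Y, rfl⟩, fun X => ?_⟩
  rw [MonoidHom.id_apply, trace_single_mul]
  simp

theorem mc_add {r : ℕ} {g h : Matrix (Fin r) (Fin r) ℤ_[p] → ℤ_[p]} (hg : MC r g) (hh : MC r h) :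
    MC r fun X => g X + h X := by
  obtain ⟨ι₁, _, _, κ₁, c₁, h1, h2⟩ := hg
  obtain ⟨ι₂, _, _, κ₂, c₂, h3, h4⟩ := hh
  refine ⟨ι₁ ⊕ ι₂, inferInstance, inferInstance,
    { toFun := fun X => fromBlocks (κ₁ X) 0 0 (κ₂ X)
      map_one' := by rw [map_one, map_one, fromBlocks_one]
      map_mul' := fun X Y => by
        rw [map_mul, map_mul, fromBlocks_multiply]
        simp }, fromBlocks c₁ 0 0 c₂, fun m Y => ?_, fun X => ?_⟩
  · obtain ⟨Y₁, hY₁⟩ := h1 m Y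
    obtain ⟨Y₂, hY₂⟩ := h3 m Y
    refine ⟨fromBlocks Y₁ 0 0 Y₂, ?_⟩
    change fromBlocks (κ₁ _) 0 0 (κ₂ _) = _
    rw [hY₁, hY₂, ← fromBlocks_one, fromBlocks_smul, fromBlocks_add]
    simp
  · change g X + h X = trace (fromBlocks c₁ 0 0 c₂ * fromBlocks (κ₁ X) 0 0 (κ₂ X))
    rw [fromBlocks_multiply, h2, h4]
    simp [trace]

theorem mc_mul {r : ℕ} {g h : Matrix (Fin r) (Fin r) ℤ_[p] → ℤ_[p]} (hg : MC r g) (hh : MC r h) :
    MC r fun X => g X * h X := by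
  obtain ⟨ι₁, _, _, κ₁, c₁, h1, h2⟩ := hg
  obtain ⟨ι₂, _, _, κ₂, c₂, h3, h4⟩ := hh
  refine ⟨ι₁ × ι₂, inferInstance, inferInstance,
    { toFun := fun X => kroneckerMap (· * ·) (κ₁ X) (κ₂ X)
      map_one' := by
        rw [map_one, map_one]
        exact one_kronecker_one
      map_mul' := fun X Y => by
        rw [map_mul, map_mul]
        exact mul_kronecker_mul _ _ _ _ }, kroneckerMap (· * ·) c₁ c₂, fun m Y => ?_, fun X => ?_⟩
  · obtain ⟨Y₁, hY₁⟩ := h1 m Y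
    obtain ⟨Y₂, hY₂⟩ := h3 m Y
    refine ⟨kroneckerMap (· * ·) Y₁ 1 + kroneckerMap (· * ·) 1 Y₂ +
      (p : ℤ_[p]) ^ m • kroneckerMap (· * ·) Y₁ Y₂, ?_⟩
    change kroneckerMap (· * ·) (κ₁ _) (κ₂ _) = _
    rw [hY₁, hY₂]
    ext ⟨i, i'⟩ ⟨j, j'⟩
    simp only [kroneckerMap_apply, Matrix.add_apply, Matrix.smul_apply, smul_eq_mul,
      Matrix.one_apply, Prod.mk.injEq]
    by_cases hij : i = j <;> by_cases hij' : i' = j' <;> simp [hij, hij'] <;> ring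
  · change g X * h X = trace (kroneckerMap (· * ·) c₁ c₂ * kroneckerMap (· * ·) (κ₁ X) (κ₂ X))
    have h5 : kroneckerMap (· * ·) c₁ c₂ * kroneckerMap (· * ·) (κ₁ X) (κ₂ X) =
        kroneckerMap (· * ·) (c₁ * κ₁ X) (c₂ * κ₂ X) := (mul_kronecker_mul _ _ _ _).symm
    rw [h5, h2, h4]
    exact (trace_kronecker _ _).symm

theorem mc_poly {r : ℕ} (G : MvPolynomial (Fin r × Fin r) ℤ_[p]) :
    MC (p := p) r fun X => MvPolynomial.eval (fun k => X k.1 k.2) G := by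
  induction G using MvPolynomial.induction_on with
  | C a => simpa using mc_const r a
  | add f g hf hg => simpa using mc_add hf hg
  | mul_X f k hf => simpa using mc_mul hf (mc_var r k.1 k.2)

theorem norm_p_pow_mul (m : ℕ) (z : ℤ_[p]) :
    ‖(((p : ℤ_[p]) ^ m * z : ℤ_[p]) : ℚ_[p])‖ ≤ (p : ℝ) ^ (-(m : ℤ)) := by
  rw [PadicInt.coe_mul, PadicInt.coe_pow, PadicInt.coe_natCast, norm_mul, norm_pow, Padic.norm_p,
    _root_.zpow_neg, _root_.zpow_natCast, inv_pow]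
  exact mul_le_of_le_one_right (by positivity) z.2

/-- The recurrence of Cayley and Hamilton. -/
theorem ch_rec {ι : Type} [Fintype ι] [DecidableEq ι] (Y C : Matrix ι ι ℤ_[p]) {B : ℝ} (hB : 0 ≤ B)
    (h : ∀ i < Fintype.card ι, ‖((trace (C * ((p : ℤ_[p]) ^ 2 • Y) ^ i) : ℤ_[p]) : ℚ_[p])‖ ≤ B) :
    ∀ j, Fintype.card ι ≤ j →
      ‖((trace (C * ((p : ℤ_[p]) ^ 2 • Y) ^ j) : ℤ_[p]) : ℚ_[p])‖ *
        (p : ℝ) ^ (2 * (j + 1 - Fintype.card ι)) ≤ B := by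
  have hp0 : (0 : ℝ) < p := by exact_mod_cast hp.1.pos
  have hp1 : (1 : ℝ) ≤ p := one_lt_p.le
  let n := Fintype.card ι
  let D : Matrix ι ι ℤ_[p] := (p : ℤ_[p]) ^ 2 • Y
  have hD : ∀ j, D ^ j = (p : ℤ_[p]) ^ (2 * j) • Y ^ j := by
    intro j
    rw [show D = (p : ℤ_[p]) ^ 2 • Y from rfl, smul_pow, pow_mul]
  have hmon : Y.charpoly.Monic := Y.charpoly_monic
  have hdeg : Y.charpoly.natDegree = n := Y.charpoly_natDegree_eq_dim
  have hY : Y ^ n = -∑ i ∈ range n, Y.charpoly.coeff i • Y ^ i := by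
    have h1 := Y.aeval_self_charpoly
    rw [Polynomial.aeval_eq_sum_range, hdeg, sum_range_succ] at h1
    have h2 : Y.charpoly.coeff n = 1 := by
      rw [← hdeg]
      exact hmon
    rw [h2, one_smul] at h1
    exact (neg_eq_of_add_eq_zero_right h1).symm
  have hrec : ∀ k, trace (C * D ^ (k + n)) =
      -∑ i ∈ range n, (p : ℤ_[p]) ^ (2 * (n - i)) * (Y.charpoly.coeff i * trace (C * D ^ (k + i))) := by
    intro k
    have h1 : D ^ (k + n) = -∑ i ∈ range n,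
        ((p : ℤ_[p]) ^ (2 * (n - i)) * Y.charpoly.coeff i) • D ^ (k + i) := by
      rw [hD, pow_add, hY, mul_neg, smul_neg, Finset.mul_sum, Finset.smul_sum]
      congr 1
      refine Finset.sum_congr rfl fun i hi => ?_
      rw [mem_range] at hi
      rw [hD, Matrix.mul_smul, ← pow_add, smul_smul, smul_smul]
      congr 1
      rw [show 2 * (k + n) = 2 * (n - i) + 2 * (k + i) by omega, pow_add]
      ring
    rw [h1, Matrix.mul_neg, trace_neg, Matrix.mul_sum, trace_sum]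
    congr 1
    refine Finset.sum_congr rfl fun i _ => ?_
    rw [Matrix.mul_smul, trace_smul, smul_eq_mul, mul_assoc]
  intro j
  induction j using Nat.strong_induction_on with
  | _ j ih =>
    intro hj
    obtain ⟨k, rfl⟩ : ∃ k, j = k + n := ⟨j - n, by omega⟩
    have h1 : 2 * (k + n + 1 - n) = 2 * (k + 1) := by omega
    change ‖((trace (C * D ^ (k + n)) : ℤ_[p]) : ℚ_[p])‖ * (p : ℝ) ^ (2 * (k + n + 1 - n)) ≤ B
    rw [h1]
    have h2 : ‖((trace (C * D ^ (k + n)) : ℤ_[p]) : ℚ_[p])‖ ≤ B / (p : ℝ) ^ (2 * (k + 1)) := by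
      rw [hrec, PadicInt.coe_neg, norm_neg, PadicInt.coe_sum]
      refine IsUltrametricDist.norm_sum_le_of_forall_le_of_nonneg (by positivity) fun i hi => ?_
      rw [mem_range] at hi
      rw [PadicInt.coe_mul, PadicInt.coe_mul, PadicInt.coe_pow, PadicInt.coe_natCast, norm_mul,
        norm_mul, norm_pow, Padic.norm_p, inv_pow, le_div_iff₀ (by positivity)]
      have h3 : ‖((Y.charpoly.coeff i : ℤ_[p]) : ℚ_[p])‖ *
          ‖((trace (C * D ^ (k + i)) : ℤ_[p]) : ℚ_[p])‖ ≤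
            ‖((trace (C * D ^ (k + i)) : ℤ_[p]) : ℚ_[p])‖ :=
        mul_le_of_le_one_left (norm_nonneg _) (Y.charpoly.coeff i).2
      have h4 : ‖((trace (C * D ^ (k + i)) : ℤ_[p]) : ℚ_[p])‖ * (p : ℝ) ^ (2 * (k + 1)) ≤
          B * (p : ℝ) ^ (2 * (n - i)) := by
        rcases lt_or_ge (k + i) n with hki | hki
        · refine mul_le_mul (h _ hki) (pow_le_pow_right₀ hp1 (by omega)) (by positivity) hB
        · have h5 := ih (k + i) (by omega) hki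
          have h6 : 2 * (k + 1) = 2 * (k + i + 1 - n) + 2 * (n - i) := by omega
          rw [h6, pow_add (p : ℝ), ← mul_assoc]
          exact mul_le_mul_of_nonneg_right h5 (by positivity)
      calc ((p : ℝ) ^ (2 * (n - i)))⁻¹ * (‖((Y.charpoly.coeff i : ℤ_[p]) : ℚ_[p])‖ *
            ‖((trace (C * D ^ (k + i)) : ℤ_[p]) : ℚ_[p])‖) * (p : ℝ) ^ (2 * (k + 1))
          ≤ ((p : ℝ) ^ (2 * (n - i)))⁻¹ * ‖((trace (C * D ^ (k + i)) : ℤ_[p]) : ℚ_[p])‖ *
            (p : ℝ) ^ (2 * (k + 1)) :=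
          mul_le_mul_of_nonneg_right (mul_le_mul_of_nonneg_left h3 (by positivity)) (by positivity)
        _ = ((p : ℝ) ^ (2 * (n - i)))⁻¹ * (‖((trace (C * D ^ (k + i)) : ℤ_[p]) : ℚ_[p])‖ *
            (p : ℝ) ^ (2 * (k + 1))) := by ring
        _ ≤ ((p : ℝ) ^ (2 * (n - i)))⁻¹ * (B * (p : ℝ) ^ (2 * (n - i))) :=
          mul_le_mul_of_nonneg_left h4 (by positivity)
        _ = B := by field_simp
    exact (le_div_iff₀ (by positivity)).1 h2

theorem nice_mc {g : Matrix (Fin r) (Fin r) ℤ_[p] → ℤ_[p]} (hg : MC r g) :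
    ∃ N : ℕ, ∀ σ : P →* Matrix (Fin r) (Fin r) ℤ_[p], Nice σ N fun x => (g (σ x) : ℚ_[p]) := by
  obtain ⟨ι, _, _, κ, c, h1, h2⟩ := hg
  refine ⟨Fintype.card ι + 1, fun σ => ⟨Nat.succ_pos _, ?_, ?_⟩⟩
  · intro m x h hh
    obtain ⟨Z, hZ⟩ := mem_NN.1 hh
    obtain ⟨Y, hY⟩ := h1 m Z
    have h3 : g (σ (x * h)) - g (σ x) = (p : ℤ_[p]) ^ m * trace (c * (κ (σ x) * Y)) := by
      rw [h2, h2, map_mul, map_mul, hZ, hY, mul_add, mul_one, mul_add, trace_add, add_sub_cancel_left,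
        Matrix.mul_smul, Matrix.mul_smul, trace_smul, smul_eq_mul]
    change ‖((g (σ (x * h)) : ℤ_[p]) : ℚ_[p]) - ((g (σ x) : ℤ_[p]) : ℚ_[p])‖ ≤ _
    rw [← PadicInt.coe_sub, h3]
    exact norm_p_pow_mul m _
  · intro x v hv
    obtain ⟨Z, hZ⟩ := mem_NN.1 hv
    obtain ⟨Y, hY⟩ := h1 2 Z
    refine ⟨fun j => ((trace (c * κ (σ x) * ((p : ℤ_[p]) ^ 2 • Y) ^ j) : ℤ_[p]) : ℚ_[p]),
      ⟨Nat.succ_pos _, ?_⟩, ?_⟩
    · intro B hB j hj
      have hB0 : 0 ≤ B := (norm_nonneg _).trans (hB 0 (Nat.succ_pos _))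
      have h3 := ch_rec Y (c * κ (σ x)) hB0 (fun i hi => hB i (by omega)) j (by omega)
      refine le_trans (mul_le_mul_of_nonneg_left (pow_le_pow_right₀ one_lt_p.le (by omega))
        (norm_nonneg _)) h3
    · intro t
      change ((g (σ (x * v ^ t)) : ℤ_[p]) : ℚ_[p]) = _
      have h4 : g (σ (x * v ^ t)) = ∑ j ∈ range (t + 1),
          (t.choose j : ℤ_[p]) * trace (c * κ (σ x) * ((p : ℤ_[p]) ^ 2 • Y) ^ j) := by
        rw [h2, map_mul, map_mul, map_pow, map_pow, hZ, hY, add_comm (1 : Matrix ι ι ℤ_[p]),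
          (Commute.one_right ((p : ℤ_[p]) ^ 2 • Y)).add_pow, Finset.mul_sum, Finset.mul_sum,
          trace_sum]
        refine Finset.sum_congr rfl fun j _ => ?_
        rw [one_pow, mul_one, ← mul_assoc, ← mul_assoc]
        have h5 : ∀ (A : Matrix ι ι ℤ_[p]) (k : ℕ), A * (k : Matrix ι ι ℤ_[p]) = (k : ℤ_[p]) • A := by
          intro A k
          rw [← nsmul_eq_mul', Nat.cast_smul_eq_nsmul]
        rw [h5, trace_smul, smul_eq_mul]
      rw [h4, PadicInt.coe_sum]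
      refine Finset.sum_congr rfl fun j _ => ?_
      rw [PadicInt.coe_mul, PadicInt.coe_natCast]

/-- Polynomials in the entries are nice. -/
theorem nice_poly (G : MvPolynomial (Fin r × Fin r) ℤ_[p]) :
    ∃ N : ℕ, ∀ σ : P →* Matrix (Fin r) (Fin r) ℤ_[p],
      Nice σ N fun x => ((MvPolynomial.eval (fun k => σ x k.1 k.2) G : ℤ_[p]) : ℚ_[p]) :=
  nice_mc (mc_poly G)

end Pool.Agent.Helper44.PS
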