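import Pool.Agent.Helper44.PS.Law3
import Pool.Agent.Helper44.PS.Final
import Pool.Agent.Helper73.KT.Glue

/-!
# One fibre decides, for all eigenvalues or for the roots of unity
-/

set_option autoImplicit false

namespace Pool.Agent.Helper44.PS

open Polynomial Pool.Agent.Helper40.ZO

/-- No block of size at least two at any eigenvalue means semisimple. -/
theorem isSemisimple_iff_nb {K V : Type*} [Field K] [IsAlgClosed K] [AddCommGroup V] [Module K V]
    [FiniteDimensional K V] (T : Module.End K V) :
    T.IsSemisimple ↔ ∀ k : K, Module.finrank K (LinearMap.ker (T - algebraMap K (Module.End K V) k) ⊓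
      LinearMap.range ((T - algebraMap K (Module.End K V) k) ^ 1) : Submodule K V) = 0 := by
  constructor
  · intro h k
    rw [Submodule.finrank_eq_zero, eq_bot_iff]
    rintro w ⟨h1, u, hu⟩
    rw [SetLike.mem_coe, LinearMap.mem_ker] at h1
    rw [pow_one] at hu
    have h2 : T.maxGenEigenspace k = T.eigenspace k :=
      (Module.End.isFinitelySemisimple_iff_isSemisimple.mpr h).maxGenEigenspace_eq_eigenspace k
    have h3 : u ∈ T.maxGenEigenspace k := by
      rw [Module.End.mem_maxGenEigenspace]
      refine ⟨2, ?_⟩
      have h4 : T - k • (1 : Module.End K V) = T - algebraMap K (Module.End K V) k := by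
        rw [Algebra.algebraMap_eq_smul_one]
      rw [h4, sq, Module.End.mul_apply, hu, h1]
    rw [h2, Module.End.mem_eigenspace_iff] at h3
    rw [LinearMap.sub_apply, Module.algebraMap_end_apply, h3, sub_self] at hu
    rw [Submodule.mem_bot, ← hu]
  · intro h
    apply Pool.Agent.Helper73.KT.semisimple_of_iSup
    rw [eq_top_iff, ← Module.End.iSup_maxGenEigenspace_eq_top T]
    refine iSup_mono fun k => ?_
    intro v hv
    rw [Module.End.mem_maxGenEigenspace] at hv
    obtain ⟨n, hn⟩ := hv
    have h4 : T - k • (1 : Module.End K V) = T - algebraMap K (Module.End K V) k := by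
      rw [Algebra.algebraMap_eq_smul_one]
    rw [h4] at hn
    have h5 := h k
    rw [Submodule.finrank_eq_zero, pow_one] at h5
    have h6 : ∀ n : ℕ, ((T - algebraMap K (Module.End K V) k) ^ (n + 1)) v = 0 →
        (T - algebraMap K (Module.End K V) k) v = 0 := by
      intro n
      induction n with
      | zero => intro h; simpa using h
      | succ n ih =>
        intro h
        apply ih
        have h7 : ((T - algebraMap K (Module.End K V) k) ^ (n + 1)) v ∈
            (LinearMap.ker (T - algebraMap K (Module.End K V) k) ⊓
              LinearMap.range (T - algebraMap K (Module.End K V) k) : Submodule K V) := by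
          refine ⟨?_, ?_⟩
          · rw [SetLike.mem_coe, LinearMap.mem_ker, ← Module.End.mul_apply, ← pow_succ']
            exact h
          · exact ⟨((T - algebraMap K (Module.End K V) k) ^ n) v, by
              rw [← Module.End.mul_apply, ← pow_succ']⟩
        rw [h5, Submodule.mem_bot] at h7
        exact h7
    rw [Module.End.mem_eigenspace_iff]
    rcases n with _ | n
    · have h8 : v = 0 := by simpa using hn
      rw [h8, map_zero, smul_zero]
    · have h8 := h6 n hn
      rw [LinearMap.sub_apply, Module.algebraMap_end_apply, sub_eq_zero] at h8
      exact h8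

end Pool.Agent.Helper44.PS
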