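import Mathlib

/-!
# Zeros of polynomials in the unit disc (helper44)

* `norm_eval_eq`: the norm of a polynomial is constant on balls without roots.
* `small_of_roots`: a polynomial with `n` roots in the unit disc, whose coefficients of index at
  least `n` are smaller than `w`, is smaller than `w` on the unit disc.
-/

set_option autoImplicit false

namespace Pool.Agent.Helper44.PS

open Polynomial

variable {K : Type*} [NormedField K] [IsUltrametricDist K]

/-- The norm of a polynomial is constant on balls without roots. -/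
theorem norm_eval_eq [IsAlgClosed K] (f : K[X]) (a b : K) (r : ℝ) (hab : ‖b - a‖ ≤ r)
    (h : ∀ α ∈ f.roots, r < ‖a - α‖) : ‖f.eval a‖ = ‖f.eval b‖ := by
  have hs : f.Splits := IsAlgClosed.splits f
  have h1 : f = C f.leadingCoeff * (f.roots.map fun α => X - C α).prod := hs.eq_prod_roots
  have h2 : ∀ x : K, ‖f.eval x‖ = ‖f.leadingCoeff‖ * (f.roots.map fun α => ‖x - α‖).prod := by
    intro x
    conv_lhs => rw [h1]
    rw [eval_mul, eval_C, norm_mul, eval_multiset_prod, Multiset.map_map]
    congr 1
    have h3 : ∀ s : Multiset K, ‖(s.map ((fun g : K[X] => eval x g) ∘ fun α => X - C α)).prod‖ =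
        (s.map fun α => ‖x - α‖).prod := by
      intro s
      induction s using Multiset.induction_on with
      | empty => simp
      | cons α s ih =>
        rw [Multiset.map_cons, Multiset.prod_cons, Multiset.map_cons, Multiset.prod_cons, norm_mul,
          ih]
        simp
    exact h3 f.roots
  rw [h2, h2]
  congr 2
  refine Multiset.map_congr rfl fun α hα => ?_
  have h4 := h α hα
  have h5 : b - α = (b - a) + (a - α) := by ring
  have h6 : ‖b - a‖ < ‖a - α‖ := lt_of_le_of_lt hab h4
  rw [h5, IsUltrametricDist.norm_add_eq_max_of_norm_ne_norm h6.ne, max_eq_right h6.le]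

private theorem quot_small {f q : K[X]} {α : K} (hα : ‖α‖ ≤ 1) (hq : f = (X - C α) * q) {n : ℕ}
    {w : ℝ} (hw : ∀ k, n + 1 ≤ k → ‖f.coeff k‖ < w) : ∀ k, n ≤ k → ‖q.coeff k‖ < w := by
  have hw0 : 0 < w := lt_of_le_of_lt (norm_nonneg _) (hw (n + 1) le_rfl)
  have key : ∀ d k : ℕ, n ≤ k → q.natDegree < k + d → ‖q.coeff k‖ < w := by
    intro d
    induction d with
    | zero =>
      intro k _ hk
      rw [coeff_eq_zero_of_natDegree_lt (by simpa using hk), norm_zero]
      exact hw0
    | succ d ih =>
      intro k hk hkd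
      have h1 : f.coeff (k + 1) = q.coeff k - α * q.coeff (k + 1) := by
        rw [hq, sub_mul, coeff_sub, coeff_X_mul, coeff_C_mul]
      have h2 : q.coeff k = f.coeff (k + 1) + α * q.coeff (k + 1) := by
        rw [h1]
        ring
      rw [h2]
      refine lt_of_le_of_lt (IsUltrametricDist.norm_add_le_max _ _) (max_lt ?_ ?_)
      · exact hw _ (by omega)
      · rw [norm_mul]
        refine lt_of_le_of_lt (mul_le_of_le_one_left (norm_nonneg _) hα) ?_
        exact ih (k + 1) (by omega) (by omega)
  intro k hk
  exact key (q.natDegree + 1) k hk (by omega)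

/-- A polynomial with many roots in the unit disc and small higher coefficients is small. -/
theorem small_of_roots (s : Finset K) : ∀ (f : K[X]) (w : ℝ),
    (∀ α ∈ s, f.eval α = 0 ∧ ‖α‖ ≤ 1) → (∀ k, s.card ≤ k → ‖f.coeff k‖ < w) →
      ∀ x : K, ‖x‖ ≤ 1 → ‖f.eval x‖ < w := by
  classical
  induction s using Finset.induction_on with
  | empty =>
    intro f w _ hw x hx
    have hw0 : 0 < w := lt_of_le_of_lt (norm_nonneg _) (hw 0 (by simp))
    rw [eval_eq_sum_range]
    obtain ⟨i, -, hi⟩ := IsUltrametricDist.exists_norm_finsetSum_le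
      (Finset.range (f.natDegree + 1)) (fun i => f.coeff i * x ^ i)
    refine lt_of_le_of_lt hi ?_
    rw [norm_mul, norm_pow]
    exact lt_of_le_of_lt (mul_le_of_le_one_right (norm_nonneg _)
      (pow_le_one₀ (norm_nonneg _) hx)) (hw i (by simp))
  | insert α s hα ih =>
    intro f w hs hw x hx
    rw [Finset.card_insert_of_notMem hα] at hw
    obtain ⟨h1, h2⟩ := hs α (Finset.mem_insert_self _ _)
    obtain ⟨q, hq⟩ := dvd_iff_isRoot.2 (show f.IsRoot α from h1)
    have h3 := ih q w (by
      intro β hβ
      obtain ⟨h4, h5⟩ := hs β (Finset.mem_insert_of_mem hβ)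
      refine ⟨?_, h5⟩
      rw [hq, eval_mul, eval_sub, eval_X, eval_C, mul_eq_zero] at h4
      rcases h4 with h4 | h4
      · exact absurd (sub_eq_zero.1 h4 ▸ hβ) hα
      · exact h4) (quot_small h2 hq hw) x hx
    rw [hq, eval_mul, eval_sub, eval_X, eval_C, norm_mul]
    refine lt_of_le_of_lt (mul_le_of_le_one_left (norm_nonneg _) ?_) h3
    rw [sub_eq_add_neg]
    refine (IsUltrametricDist.norm_add_le_max _ _).trans (max_le hx ?_)
    rwa [norm_neg]

end Pool.Agent.Helper44.PS
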